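import Pool.Agent.P.MP_0ad054_nt.An.Defs

/-! Vaughan's identity. -/

namespace Pool.Agent.P.MP_0ad054_nt.An

open Finset
open scoped ArithmeticFunction.vonMangoldt ArithmeticFunction.Moebius ArithmeticFunction.zeta

namespace VaughanP

theorem sum_anti (X : ℕ) (g : ℕ → ℕ → ℂ) :
    ∑ n ∈ Icc 1 X, ∑ p ∈ n.divisorsAntidiagonal, g p.1 p.2 =
      ∑ d ∈ Icc 1 X, ∑ m ∈ Icc 1 (X / d), g d m := by
  rw [sum_sigma', sum_sigma']
  refine sum_nbij' (fun z => ⟨z.2.1, z.2.2⟩) (fun z => ⟨z.1 * z.2, (z.1, z.2)⟩) ?_ ?_ ?_ ?_ ?_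
  · rintro ⟨n, d, m⟩ hz
    simp only [mem_sigma, mem_Icc, Nat.mem_divisorsAntidiagonal] at hz ⊢
    obtain ⟨⟨h1, h2⟩, h3, h4⟩ := hz
    have hd : 0 < d := Nat.pos_of_ne_zero fun h => h4 (by rw [← h3, h, zero_mul])
    have hm : 0 < m := Nat.pos_of_ne_zero fun h => h4 (by rw [← h3, h, mul_zero])
    refine ⟨⟨hd, ?_⟩, hm, (Nat.le_div_iff_mul_le hd).2 ?_⟩
    · exact (Nat.le_mul_of_pos_right d hm).trans (h3 ▸ h2)
    · rw [mul_comm, h3]; exact h2
  · rintro ⟨d, m⟩ hz
    simp only [mem_sigma, mem_Icc, Nat.mem_divisorsAntidiagonal] at hz ⊢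
    obtain ⟨⟨h1, _⟩, h3, h4⟩ := hz
    have h5 := (Nat.le_div_iff_mul_le h1).1 h4
    have h6 : 0 < d * m := Nat.mul_pos h1 h3
    exact ⟨⟨h6, by rw [mul_comm]; exact h5⟩, trivial, h6.ne'⟩
  · rintro ⟨n, d, m⟩ hz
    simp only [mem_sigma, mem_Icc, Nat.mem_divisorsAntidiagonal] at hz
    obtain ⟨_, h3, _⟩ := hz
    subst h3
    rfl
  · rintro ⟨d, m⟩ _
    rfl
  · rintro ⟨n, d, m⟩ _
    rfl

theorem sum_conv (F G : ArithmeticFunction ℝ) (X : ℕ) (f : ℕ → ℂ) :
    ∑ n ∈ Icc 1 X, ((F * G) n : ℂ) * f n =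
      ∑ d ∈ Icc 1 X, (F d : ℂ) * ∑ m ∈ Icc 1 (X / d), (G m : ℂ) * f (d * m) := by
  have h := sum_anti X (fun d m => (F d : ℂ) * ((G m : ℂ) * f (d * m)))
  simp_rw [mul_sum]
  rw [← h]
  refine sum_congr rfl fun n _ => ?_
  rw [ArithmeticFunction.mul_apply, Complex.ofReal_sum, sum_mul]
  refine sum_congr rfl fun p hp => ?_
  rw [(Nat.mem_divisorsAntidiagonal.1 hp).1]
  push_cast; ring

/-- truncation -/
noncomputable def cut (F : ArithmeticFunction ℝ) (U : ℕ) : ArithmeticFunction ℝ :=
  ⟨fun n => if n ≤ U then F n else 0, by simp⟩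

theorem cut_apply (F : ArithmeticFunction ℝ) (U n : ℕ) : cut F U n = if n ≤ U then F n else 0 := rfl

theorem af_sub (F G : ArithmeticFunction ℝ) (n : ℕ) : (F - G) n = F n - G n := by
  rw [sub_eq_add_neg, ArithmeticFunction.add_apply, ArithmeticFunction.neg_apply, sub_eq_add_neg]

theorem abs_mu (n : ℕ) : |((μ : ArithmeticFunction ℝ) n)| ≤ 1 := by
  rw [ArithmeticFunction.intCoe_apply]
  exact_mod_cast ArithmeticFunction.abs_moebius_le_one

theorem ident (A B : ArithmeticFunction ℝ) :
    Λ = A * ArithmeticFunction.log - A * B * (ζ : ArithmeticFunction ℝ) +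
      ((μ : ArithmeticFunction ℝ) - A) * ((Λ - B) * (ζ : ArithmeticFunction ℝ)) + B := by
  have h1 := ArithmeticFunction.vonMangoldt_mul_zeta
  have h2 : ((μ : ArithmeticFunction ℝ) * (ζ : ArithmeticFunction ℝ)) = 1 :=
    ArithmeticFunction.coe_moebius_mul_coe_zeta
  rw [← h1]
  linear_combination (B - Λ) * h2

end VaughanP

open VaughanP in
theorem vaughan : S_Vaughan := by
  intro U V _ _
  set A := cut (μ : ArithmeticFunction ℝ) U with hA
  set B := cut Λ V with hB
  have hB0 : ∀ n, 0 ≤ B n ∧ B n ≤ Λ n := fun n => by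
    rw [hB, cut_apply]
    have := ArithmeticFunction.vonMangoldt_nonneg (n := n)
    split_ifs
    · exact ⟨this, le_rfl⟩
    · exact ⟨le_rfl, this⟩
  have hA1 : ∀ n, |A n| ≤ 1 := fun n => by
    rw [hA, cut_apply]
    split_ifs
    · exact abs_mu n
    · simp
  refine ⟨fun k => (A * B) k, fun l => ((Λ - B) * (ζ : ArithmeticFunction ℝ)) l, fun k => ?_, fun l => ?_,
    fun X f => ?_⟩
  · show |(A * B) k| ≤ _
    rw [mul_comm, ArithmeticFunction.mul_apply, ← ArithmeticFunction.vonMangoldt_sum,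
      Nat.sum_divisorsAntidiagonal (fun a b => B a * A b)]
    refine (abs_sum_le_sum_abs _ _).trans (sum_le_sum fun d _ => ?_)
    rw [abs_mul, abs_of_nonneg (hB0 d).1]
    calc B d * |A (k / d)| ≤ B d * 1 := mul_le_mul_of_nonneg_left (hA1 _) (hB0 d).1
      _ ≤ Λ d := by rw [mul_one]; exact (hB0 d).2
  · show |((Λ - B) * (ζ : ArithmeticFunction ℝ)) l| ≤ _
    rw [ArithmeticFunction.coe_mul_zeta_apply, ← ArithmeticFunction.vonMangoldt_sum]
    refine (abs_sum_le_sum_abs _ _).trans (sum_le_sum fun d _ => ?_)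
    rw [af_sub, abs_of_nonneg (by linarith [(hB0 d).2])]
    linarith [(hB0 d).1]
  · have h0 : ∑ n ∈ Icc 1 X, (Λ n : ℂ) * f n =
        ∑ n ∈ Icc 1 X, ((A * ArithmeticFunction.log) n : ℂ) * f n -
        ∑ n ∈ Icc 1 X, ((A * B * (ζ : ArithmeticFunction ℝ)) n : ℂ) * f n +
        ∑ n ∈ Icc 1 X, ((((μ : ArithmeticFunction ℝ) - A) *
          ((Λ - B) * (ζ : ArithmeticFunction ℝ))) n : ℂ) * f n +
        ∑ n ∈ Icc 1 X, (B n : ℂ) * f n := by
      rw [← sum_sub_distrib, ← sum_add_distrib, ← sum_add_distrib]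
      refine sum_congr rfl fun n _ => ?_
      conv_lhs => rw [ident A B]
      simp only [ArithmeticFunction.add_apply, af_sub]
      push_cast; ring
    have hz : ∀ d, X < d → Icc 1 (X / d) = ∅ := fun d hd => by
      rw [Nat.div_eq_of_lt hd]; rfl
    rw [h0, sum_conv A ArithmeticFunction.log, sum_conv (A * B), sum_conv ((μ : ArithmeticFunction ℝ) - A)]
    congr 1
    · congr 1
      · congr 1
        · refine sum_congr_of_eq_on_inter (fun d h1 h2 => ?_) (fun d h1 h2 => ?_) (fun d _ h2 => ?_)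
          · rw [mem_Icc] at h1 h2
            rw [hA, cut_apply, if_neg (by omega)]; simp
          · rw [mem_Icc] at h1 h2
            rw [hz d (by omega)]; simp
          · rw [hA, cut_apply, if_pos (mem_Icc.1 h2).2, ArithmeticFunction.intCoe_apply]
            simp [ArithmeticFunction.log_apply]
        · refine sum_congr_of_eq_on_inter (fun d h1 h2 => ?_) (fun d h1 h2 => ?_) (fun d _ _ => ?_)
          · rw [mem_Icc] at h1 h2
            have : (A * B) d = 0 := by
              rw [ArithmeticFunction.mul_apply]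
              refine sum_eq_zero fun p hp => ?_
              rw [hA, hB, cut_apply, cut_apply]
              split_ifs with b1 b2
              · have := Nat.mul_le_mul b1 b2
                rw [(Nat.mem_divisorsAntidiagonal.1 hp).1] at this
                omega
              · simp
              · simp
              · simp
            rw [this]; simp
          · rw [mem_Icc] at h1 h2
            rw [hz d (by omega)]; simp
          · refine congrArg _ ?_
            refine sum_congr rfl fun m hm => ?_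
            have : m ≠ 0 := by have := (mem_Icc.1 hm).1; omega
            simp [ArithmeticFunction.natCoe_apply, ArithmeticFunction.zeta_apply, this]
      · refine sum_congr_of_eq_on_inter (fun d h1 h2 => ?_) (fun d h1 h2 => ?_) (fun d _ h2 => ?_)
        · rw [mem_Icc] at h1
          rw [mem_Ioc] at h2
          rw [af_sub, hA, cut_apply, if_pos (by omega)]; simp
        · rw [mem_Ioc] at h1
          rw [mem_Icc] at h2
          omega
        · rw [mem_Ioc] at h2
          rw [af_sub, hA, cut_apply, if_neg (by omega), sub_zero,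
            ArithmeticFunction.intCoe_apply, Complex.ofReal_intCast]
          congr 1
          refine sum_congr_of_eq_on_inter (fun l b1 b2 => ?_) (fun l b1 b2 => ?_) (fun l _ _ => rfl)
          · rw [mem_Icc] at b1
            rw [mem_Ioc] at b2
            have : ((Λ - B) * (ζ : ArithmeticFunction ℝ)) l = 0 := by
              rw [ArithmeticFunction.coe_mul_zeta_apply]
              refine sum_eq_zero fun r hr => ?_
              have := Nat.divisor_le hr
              rw [af_sub, hB, cut_apply, if_pos (by omega), sub_self]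
            rw [this]; simp
          · rw [mem_Ioc] at b1
            rw [mem_Icc] at b2
            omega
    · refine sum_congr_of_eq_on_inter (fun d h1 h2 => ?_) (fun d h1 h2 => ?_) (fun d _ h2 => ?_)
      · rw [mem_Icc] at h1 h2
        rw [hB, cut_apply, if_neg (by omega)]; simp
      · rw [mem_Icc] at h1 h2
        omega
      · rw [mem_Icc] at h2
        rw [hB, cut_apply, if_pos (by omega)]

end Pool.Agent.P.MP_0ad054_nt.An
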