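import Pool.Agent.P.MP_0ad054_nt.An.Defs

/-! Siegel's theorem, by the method of Estermann. -/

namespace Pool.Agent.P.MP_0ad054_nt.An

namespace SiegelP

open Finset Complex DirichletCharacter Metric Filter Topology
open scoped ComplexOrder

lemma Zf_one : Zf 1 = 1 := by simp [Zf]

lemma Zf_of_ne {s : ℂ} (hs : s ≠ 1) : Zf s = (s - 1) * riemannZeta s := by
  simp [Zf, Function.update_of_ne hs, LFunctionTrivChar]

lemma differentiable_Zf : Differentiable ℂ Zf := differentiable_LFunctionTrivChar₁ 1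

lemma absc_le {a : ℕ → ℂ} (hs : ∀ s : ℂ, 1 < s.re → LSeriesSummable a s) :
    LSeries.abscissaOfAbsConv a ≤ (1 : ℝ) :=
  LSeries.abscissaOfAbsConv_le_of_forall_lt_LSeriesSummable fun y hy => hs y (by simpa using hy)

lemma one_le_LSeries {a : ℕ → ℂ} (h0 : 0 ≤ a) (h1 : a 1 = 1)
    (hs : ∀ s : ℂ, 1 < s.re → LSeriesSummable a s) : 1 ≤ LSeries a (2 : ℝ) := by
  have := (hs (2 : ℝ) (by simp)).le_tsum 1 fun n _ => LSeries.term_nonneg (h0 n) 2
  rwa [LSeries.term_of_ne_zero one_ne_zero, h1, Nat.cast_one, one_cpow, div_one] at this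

lemma absc_lt {a : ℕ → ℂ} (hs : ∀ s : ℂ, 1 < s.re → LSeriesSummable a s) {x : ℝ} (hx : 1 < x) :
    LSeries.abscissaOfAbsConv a < x :=
  (absc_le hs).trans_lt (EReal.coe_lt_coe_iff.2 hx)

/-- Taylor coefficients at the point `2` -/
lemma coeff_eq {G : ℂ → ℂ} {a : ℕ → ℂ} (hs : ∀ s : ℂ, 1 < s.re → LSeriesSummable a s)
    (hF : ∀ s : ℂ, 1 < s.re → riemannZeta s * G s = LSeries a s) (m : ℕ) :
    iteratedDeriv m (dslope (fun s => Zf s * G s) 1) 2 =
      iteratedDeriv m (LSeries a) 2 - G 1 * ((-1) ^ m * m.factorial) := by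
  have ho : IsOpen {s : ℂ | 1 < s.re} := continuous_re.isOpen_preimage _ isOpen_Ioi
  have h2 : (2 : ℂ) ∈ {s : ℂ | 1 < s.re} := by simp
  have e : Set.EqOn (dslope (fun s => Zf s * G s) 1)
      (LSeries a - fun s => G 1 * (1 * s - 1)⁻¹) {s : ℂ | 1 < s.re} := fun s hs' => by
    have h1 : s ≠ 1 := fun h => by simp [h] at hs'
    have h3 : s - 1 ≠ 0 := sub_ne_zero.2 h1
    rw [dslope_of_ne _ h1, slope_def_field, Zf_of_ne h1, Zf_one, Pi.sub_apply, ← hF s hs', one_mul,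
      one_mul]
    field_simp
  have hL : ContDiffAt ℂ m (LSeries a) 2 :=
    (LSeries_analyticOnNhd a 2 (absc_lt hs h2)).contDiffAt
  have hI : ContDiffAt ℂ m (fun s : ℂ => (1 * s - 1)⁻¹) 2 :=
    ContDiffAt.inv (by fun_prop) (by norm_num)
  rw [e.iteratedDeriv_of_isOpen ho m h2, iteratedDeriv_sub hL (contDiffAt_const.mul hI),
    iteratedDeriv_const_mul _ hI, iteratedDeriv_eq_iterate (f := fun s : ℂ => (1 * s - 1)⁻¹),
    iter_deriv_inv_linear_sub]
  norm_num

lemma real_part {b : ℕ → ℝ} {lam B t S : ℝ} (hb : ∀ m, 0 ≤ b m) (hb0 : 1 ≤ b 0) {l : ℝ}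
    (hl : l ≤ lam) (ht : 0 < t) (ht' : t ≤ 1 / 8) (hB : ∀ m, |b m - l| ≤ B / (3 / 2) ^ m)
    (hS : HasSum (fun m => (b m - l) * (1 + t) ^ m) S) (hS' : S ≤ lam / t) (N : ℕ) (hN : N ≠ 0) :
    t * (1 - 4 * B * (3 / 4) ^ N) ≤ lam * (1 + t) ^ N := by
  have h1 : ∀ m, -(B * (3 / 4) ^ m) ≤ (b m - l) * (1 + t) ^ m := fun m => by
    have h2 := (abs_le.1 (hB m)).1
    have B0 : 0 ≤ B / (3 / 2) ^ m := (abs_nonneg _).trans (hB m)
    have h3 : (1 + t) ^ m ≤ (9 / 8) ^ m := by gcongr; linarith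
    have h4 : B * (3 / 4) ^ m = B / (3 / 2) ^ m * (9 / 8) ^ m := by
      rw [div_mul_eq_mul_div, mul_div_assoc, ← div_pow]; norm_num
    have h5 : 0 ≤ (1 + t) ^ m := by positivity
    rw [h4]
    nlinarith
  have h2 : HasSum (fun m => -(B * (3 / 4 : ℝ) ^ (m + N))) (-(4 * B * (3 / 4) ^ N)) := by
    have := ((hasSum_geometric_of_lt_one (r := (3 / 4 : ℝ)) (by norm_num) (by norm_num)).mul_left
      (B * (3 / 4) ^ N)).neg
    convert! this using 1
    · funext m; ring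
    · norm_num; ring
  have h3 := hasSum_le (fun m => h1 (m + N)) h2 ((hasSum_nat_add_iff' N).2 hS)
  have h4 : 1 - lam * ∑ m ∈ range N, (1 + t) ^ m ≤ ∑ m ∈ range N, (b m - l) * (1 + t) ^ m := by
    have h5 : b 0 * (1 + t) ^ 0 ≤ ∑ m ∈ range N, b m * (1 + t) ^ m :=
      single_le_sum (f := fun m => b m * (1 + t) ^ m) (fun m _ => mul_nonneg (hb m) (by positivity))
        (mem_range.2 (Nat.pos_of_ne_zero hN))
    have h6 : 0 ≤ ∑ m ∈ range N, (1 + t) ^ m := sum_nonneg fun m _ => by positivity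
    simp only [sub_mul, sum_sub_distrib, ← mul_sum]
    nlinarith
  have h5 : (∑ m ∈ range N, (1 + t) ^ m) * t = (1 + t) ^ N - 1 := by
    simpa using geom_sum_mul (1 + t) N
  rw [le_div_iff₀ ht] at hS'
  have h6 := mul_le_mul_of_nonneg_right (show 1 - 4 * B * (3 / 4) ^ N ≤
    S + lam * ∑ m ∈ range N, (1 + t) ^ m by linarith) ht.le
  rw [add_mul, mul_assoc lam, h5] at h6
  linarith

lemma one_add_le {t : ℝ} (ht : 0 ≤ t) : 1 + t ≤ (4 / 3 : ℝ) ^ (4 * t) := by
  rw [Real.rpow_mul (by norm_num)]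
  calc 1 + t ≤ Real.exp t := by linarith [Real.add_one_le_exp t]
    _ = Real.exp 1 ^ t := by rw [Real.exp_one_rpow]
    _ ≤ _ := by
      gcongr
      have := Real.exp_one_lt_d9
      norm_num
      linarith

theorem estermann : ∃ c : ℝ, 0 < c ∧ ∀ (G : ℂ → ℂ) (a : ℕ → ℂ) (M t : ℝ), Differentiable ℂ G →
    0 ≤ a → a 1 = 1 → (∀ s : ℂ, 1 < s.re → LSeriesSummable a s) →
    (∀ s : ℂ, 1 < s.re → riemannZeta s * G s = LSeries a s) → 1 ≤ M →
    (∀ s ∈ closedBall (2 : ℂ) (3 / 2), ‖G s‖ ≤ M) → 0 < t → t ≤ 1 / 8 →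
    0 ≤ (Zf (1 - t : ℝ) * G (1 - t : ℝ)).re → c * t * M ^ (-(4 * t)) ≤ ‖G 1‖ := by
  obtain ⟨K, hK⟩ := (isCompact_closedBall (2 : ℂ) (3 / 2)).exists_bound_of_continuousOn
    differentiable_Zf.continuous.continuousOn
  have K0 : 0 ≤ K := (norm_nonneg _).trans (hK 2 (mem_closedBall_self (by norm_num)))
  set C : ℝ := 4 / 3 * (16 * (K + 1)) with hC
  have C1 : 1 ≤ C := by rw [hC]; linarith
  refine ⟨1 / (2 * C), by positivity, fun G a M t hG h0 h1 hs hF hM hb ht ht' hre => ?_⟩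
  set H := dslope (fun s => Zf s * G s) 1 with hH
  have hd : Differentiable ℂ H := by
    rw [← differentiableOn_univ, hH, differentiableOn_dslope univ_mem]
    exact (differentiable_Zf.mul hG).differentiableOn
  have hG1 : ‖G 1‖ ≤ M := hb 1 (by rw [mem_closedBall, dist_eq_norm]; norm_num)
  have hHb : ∀ s ∈ sphere (2 : ℂ) (3 / 2), ‖H s‖ ≤ 2 * (K + 1) * M := fun s hs' => by
    have h2 : 1 / 2 ≤ ‖s - 1‖ := by
      have := norm_sub_norm_le (s - 2) (s - 1)
      rw [mem_sphere_iff_norm.1 hs', show s - 2 - (s - 1) = -1 by ring, norm_neg, norm_one] at this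
      linarith
    have h3 : s ≠ 1 := fun h => by norm_num [h] at h2
    rw [hH, dslope_of_ne _ h3, slope_def_field, Zf_one, one_mul, norm_div, div_le_iff₀ (by linarith)]
    have h4 : ‖Zf s * G s‖ ≤ K * M := by
      rw [norm_mul]
      exact mul_le_mul (hK s (sphere_subset_closedBall hs')) (hb s (sphere_subset_closedBall hs'))
        (norm_nonneg _) K0
    have h5 := norm_sub_le (Zf s * G s) (G 1)
    have h6 : 0 ≤ (K + 1) * M := by positivity
    nlinarith
  have hab : LSeries.abscissaOfAbsConv a < (2 : ℝ) := absc_lt hs one_lt_two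
  have hal := fun m => LSeries.iteratedDeriv_alternating h0 hab m
  simp only [ofReal_ofNat] at hal
  set b : ℕ → ℝ := fun m => ((-1) ^ m * iteratedDeriv m (LSeries a) 2).re / m.factorial with hb'
  have hm : ∀ m : ℕ, (0 : ℝ) < m.factorial := fun m => by positivity
  have e : ∀ m : ℕ, (m.factorial : ℂ)⁻¹ * ((-1) ^ m * iteratedDeriv m H 2) = b m - G 1 := fun m => by
    have h2 : (m.factorial : ℂ) ≠ 0 := by exact_mod_cast m.factorial_ne_zero
    have h3 : ((-1 : ℂ) ^ m) * (-1) ^ m = 1 := by rw [← mul_pow]; simp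
    rw [hH, coeff_eq hs hF, hb', ofReal_div, ← eq_re_of_ofReal_le (hal m), ofReal_natCast]
    field_simp
    linear_combination (-(G 1) * m.factorial) * h3
  have hB : ∀ m, |b m - (G 1).re| ≤ 2 * (K + 1) * M / (3 / 2) ^ m := fun m => by
    have h2 := norm_iteratedDeriv_le_of_forall_mem_sphere_norm_le m (by norm_num)
      hd.diffContOnCl hHb
    have h3 := abs_re_le_norm (b m - G 1)
    rw [sub_re, ofReal_re, ← e m, norm_mul, norm_mul, norm_pow, norm_neg, norm_one, one_pow, one_mul,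
      norm_inv, Complex.norm_natCast] at h3
    refine h3.trans ?_
    rw [inv_mul_le_iff₀ (hm m), ← mul_div_assoc]
    exact h2
  have hS : HasSum (fun m => (b m - (G 1).re) * (1 + t) ^ m) (H (1 - t : ℝ)).re := by
    convert! hasSum_re (hasSum_taylorSeries_of_entire hd 2 (1 - t : ℝ)) using 2 with m
    rw [smul_eq_mul, smul_eq_mul, show ((1 - t : ℝ) : ℂ) - 2 = -1 * (1 + t : ℝ) by push_cast; ring,
      mul_pow, mul_right_comm, ← mul_assoc, e m, ← ofReal_pow, re_mul_ofReal, sub_re, ofReal_re]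
  have hS' : (H (1 - t : ℝ)).re ≤ ‖G 1‖ / t := by
    have h3 : ((1 - t : ℝ) : ℂ) ≠ 1 := by
      rw [Ne, ← ofReal_one, ofReal_inj]; linarith
    rw [hH, dslope_of_ne _ h3, slope_def_field, Zf_one, one_mul,
      show ((1 - t : ℝ) : ℂ) - 1 = (-t : ℝ) by push_cast; ring, div_ofReal_re, div_neg, ← neg_div]
    gcongr
    rw [sub_re]
    linarith [re_le_norm (G 1)]
  obtain ⟨n, hn1, hn2⟩ := exists_nat_pow_near (x := 16 * (K + 1) * M) (y := 4 / 3) (by nlinarith)
    (by norm_num)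
  have h2 := real_part (b := b) (fun m => div_nonneg (le_def.1 (hal m)).1 (hm m).le) (by
    have := (le_def.1 (one_le_LSeries h0 h1 hs)).1
    simpa [hb'] using this) (re_le_norm (G 1)) ht ht' hB hS hS' (n + 1) n.succ_ne_zero
  have h3 : 4 * (2 * (K + 1) * M) * (3 / 4) ^ (n + 1) ≤ 1 / 2 := by
    have : ((4 / 3 : ℝ) ^ (n + 1)) * (3 / 4) ^ (n + 1) = 1 := by rw [← mul_pow]; norm_num
    have h4 : (0 : ℝ) < (3 / 4) ^ (n + 1) := by positivity
    nlinarith
  have h4 : (1 + t) ^ (n + 1) ≤ C * M ^ (4 * t) := by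
    calc (1 + t) ^ (n + 1) ≤ ((4 / 3 : ℝ) ^ (4 * t)) ^ (n + 1) := by
          gcongr; exact one_add_le ht.le
      _ = ((4 / 3 : ℝ) ^ (n + 1)) ^ (4 * t) := by
          rw [← Real.rpow_natCast, ← Real.rpow_natCast, ← Real.rpow_mul (by norm_num),
            ← Real.rpow_mul (by norm_num), mul_comm]
      _ ≤ (C * M) ^ (4 * t) := by
          gcongr
          rw [pow_succ, hC]
          linarith
      _ = C ^ (4 * t) * M ^ (4 * t) := Real.mul_rpow (by linarith) (by linarith)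
      _ ≤ C ^ (1 : ℝ) * M ^ (4 * t) := by gcongr; linarith
      _ = _ := by rw [Real.rpow_one]
  have h5 : 0 < M ^ (4 * t) := by positivity
  rw [Real.rpow_neg (by linarith), ← div_eq_mul_inv, div_le_iff₀ h5, div_mul_eq_mul_div,
    div_le_iff₀ (by positivity)]
  nlinarith [norm_nonneg (G 1)]

/-- values at the powers of `p` -/
noncomputable def PP (f : ArithmeticFunction ℂ) (p : ℕ) : PowerSeries ℂ :=
  PowerSeries.mk fun i => f (p ^ i)

/-- the geometric series -/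
noncomputable def GE (x : ℂ) : PowerSeries ℂ := PowerSeries.mk fun i => x ^ i

/-- series with nonnegative coefficients -/
def NN (φ : PowerSeries ℂ) : Prop := ∀ i, 0 ≤ PowerSeries.coeff i φ

lemma PP_mul (f g : ArithmeticFunction ℂ) {p : ℕ} (hp : p.Prime) :
    PP (f * g) p = PP f p * PP g p := by
  ext k
  simp only [PP, PowerSeries.coeff_mk, PowerSeries.coeff_mul, ArithmeticFunction.mul_apply]
  rw [Nat.sum_divisorsAntidiagonal fun i j => f i * g j, Nat.sum_divisors_prime_pow hp,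
    Nat.sum_antidiagonal_eq_sum_range_succ fun i j => f (p ^ i) * g (p ^ j)]
  refine sum_congr rfl fun i hi => ?_
  rw [Nat.pow_div (Nat.lt_succ_iff.1 (mem_range.1 hi)) hp.pos]

lemma PP_char {q : ℕ} (χ : DirichletCharacter ℂ q) {p : ℕ} (hp : p.Prime) :
    PP (toArithmeticFunction (χ ·)) p = GE (χ p) := by
  ext k
  simp [PP, GE, toArithmeticFunction, hp.ne_zero]

lemma PP_zeta {p : ℕ} (hp : p.Prime) :
    PP (ArithmeticFunction.zeta : ArithmeticFunction ℂ) p = GE 1 := by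
  ext k
  simp [PP, GE, hp.ne_zero]

lemma NN.mul {φ ψ : PowerSeries ℂ} (h : NN φ) (h' : NN ψ) : NN (φ * ψ) := fun i => by
  rw [PowerSeries.coeff_mul]
  exact sum_nonneg fun _ _ => mul_nonneg (h _) (h' _)

lemma NN_GE {x : ℂ} (hx : 0 ≤ x) : NN (GE x) := fun i => by simpa [GE] using pow_nonneg hx i

lemma NN_one_mul {x : ℂ} (hx : x = 0 ∨ x = 1 ∨ x = -1) : NN (GE 1 * GE x) := by
  rcases hx with rfl | rfl | rfl
  · exact (NN_GE zero_le_one).mul (NN_GE le_rfl)
  · exact (NN_GE zero_le_one).mul (NN_GE zero_le_one)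
  · intro i
    rw [mul_comm]
    simp only [GE, PowerSeries.coeff_mul, PowerSeries.coeff_mk, one_pow, mul_one]
    rw [Nat.sum_antidiagonal_eq_sum_range_succ_mk, neg_one_geom_sum]
    split_ifs
    exacts [le_rfl, zero_le_one]

lemma NN_four {u v : ℂ} (hu : u = 0 ∨ u = 1 ∨ u = -1) (hv : v = 0 ∨ v = 1 ∨ v = -1) :
    NN (GE 1 * GE u * (GE v * GE (u * v))) := by
  rcases hv with rfl | rfl | rfl
  · rw [mul_zero]
    exact (NN_one_mul hu).mul ((NN_GE le_rfl).mul (NN_GE le_rfl))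
  · rw [mul_one]
    exact (NN_one_mul hu).mul (NN_one_mul hu)
  · rcases hu with rfl | rfl | rfl
    · rw [zero_mul, mul_mul_mul_comm]
      exact (NN_one_mul (by simp)).mul ((NN_GE le_rfl).mul (NN_GE le_rfl))
    · rw [one_mul, mul_mul_mul_comm]
      exact (NN_one_mul (by simp)).mul (NN_one_mul (by simp))
    · rw [neg_mul_neg, one_mul, mul_comm (GE (-1)) (GE 1)]
      exact (NN_one_mul (by simp)).mul (NN_one_mul (by simp))

variable {q q₁ q₃ : ℕ}

lemma summable_char (χ : DirichletCharacter ℂ q) {s : ℂ} (hs : 1 < s.re) :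
    LSeriesSummable (toArithmeticFunction (χ ·)) s :=
  LSeriesSummable_of_bounded_of_one_lt_re (m := 1) (fun n hn => by
    simpa [toArithmeticFunction, hn] using norm_le_one χ _) hs

lemma L_char [NeZero q] (χ : DirichletCharacter ℂ q) {s : ℂ} (hs : 1 < s.re) :
    LFunction χ s = LSeries (toArithmeticFunction (χ ·)) s :=
  (χ.LFunction_eq_LSeries hs).trans (LSeries_congr χ.apply_eq_toArithmeticFunction_apply s)

lemma L_zetaMul [NeZero q] (χ : DirichletCharacter ℂ q) {s : ℂ} (hs : 1 < s.re) :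
    riemannZeta s * LFunction χ s = LSeries χ.zetaMul s := by
  have h1 : LSeriesSummable (ArithmeticFunction.zeta : ArithmeticFunction ℂ) s :=
    ArithmeticFunction.LSeriesSummable_zeta_iff.2 hs
  rw [zetaMul, ArithmeticFunction.LSeries_mul' h1 (summable_char χ hs), L_char χ hs,
    ← ArithmeticFunction.LSeries_zeta_eq_riemannZeta hs]
  rfl

/-- the Dirichlet coefficients of the product of four L-functions -/
noncomputable def co (χ₁ : DirichletCharacter ℂ q₁) (χ : DirichletCharacter ℂ q)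
    (χ₃ : DirichletCharacter ℂ q₃) : ArithmeticFunction ℂ :=
  χ₁.zetaMul * (toArithmeticFunction (χ ·) * toArithmeticFunction (χ₃ ·))

variable {χ₁ : DirichletCharacter ℂ q₁} {χ : DirichletCharacter ℂ q} {χ₃ : DirichletCharacter ℂ q₃}

lemma co_mult : (co χ₁ χ χ₃).IsMultiplicative :=
  χ₁.isMultiplicative_zetaMul.mul
    (χ.isMultiplicative_toArithmeticFunction.mul χ₃.isMultiplicative_toArithmeticFunction)

lemma co_nonneg (h₁ : χ₁ ^ 2 = 1) (h : χ ^ 2 = 1) (h₃ : ∀ n : ℕ, χ₃ n = χ₁ n * χ n) (n : ℕ) :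
    0 ≤ co χ₁ χ χ₃ n := by
  rcases eq_or_ne n 0 with rfl | hn
  · simp
  · rw [co_mult.multiplicative_factorization _ hn]
    refine prod_nonneg fun p hp => ?_
    have hp' := Nat.prime_of_mem_primeFactors hp
    have := NN_four (MulChar.isQuadratic_iff_sq_eq_one.2 h₁ p) (MulChar.isQuadratic_iff_sq_eq_one.2 h p)
      (n.factorization p)
    rwa [← h₃, ← PP_char _ hp', ← PP_char _ hp', ← PP_char _ hp', ← PP_zeta hp', ← PP_mul _ _ hp',
      ← PP_mul _ _ hp', ← PP_mul _ _ hp', PP, PowerSeries.coeff_mk] at this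

lemma co_summable {s : ℂ} (hs : 1 < s.re) : LSeriesSummable (co χ₁ χ χ₃) s :=
  ArithmeticFunction.LSeriesSummable_mul (χ₁.LSeriesSummable_zetaMul hs)
    (ArithmeticFunction.LSeriesSummable_mul (summable_char χ hs) (summable_char χ₃ hs))

lemma L_co [NeZero q₁] [NeZero q] [NeZero q₃] {s : ℂ} (hs : 1 < s.re) :
    riemannZeta s * (LFunction χ₁ s * (LFunction χ s * LFunction χ₃ s)) = LSeries (co χ₁ χ χ₃) s := by
  rw [co, ArithmeticFunction.LSeries_mul' (χ₁.LSeriesSummable_zetaMul hs)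
    (ArithmeticFunction.LSeriesSummable_mul (summable_char χ hs) (summable_char χ₃ hs)),
    ArithmeticFunction.LSeries_mul' (summable_char χ hs) (summable_char χ₃ hs), ← L_zetaMul _ hs,
    ← L_char _ hs, ← L_char _ hs, mul_assoc]

lemma im_eq_zero {Φ : ℂ → ℂ} (hΦ : Differentiable ℂ Φ) (h : ∀ x : ℝ, 1 < x → (Φ x).im = 0) (x : ℝ) :
    (Φ x).im = 0 := by
  have h1 : AnalyticOnNhd ℝ (fun x : ℝ => (Φ x).im) Set.univ := fun y _ =>
    (imCLM.analyticAt _).comp (((hΦ.analyticAt _).restrictScalars (𝕜 := ℝ)).comp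
      (ofRealCLM.analyticAt y))
  exact h1.eqOn_zero_of_preconnected_of_eventuallyEq_zero isPreconnected_univ (Set.mem_univ 2)
    ((eventually_gt_nhds one_lt_two).mono h) (Set.mem_univ x)

lemma re_nonneg [NeZero q] (h1 : χ ≠ 1) (h : χ ^ 2 = 1) {β : ℝ}
    (hZ : ∀ x : ℝ, β ≤ x → x < 1 → Zf x ≠ 0) (hL : ∀ x : ℝ, β ≤ x → x < 1 → LFunction χ x ≠ 0) :
    0 ≤ (Zf β * LFunction χ β).re := by
  have hd : Differentiable ℂ fun s => Zf s * LFunction χ s :=
    differentiable_Zf.mul (differentiable_LFunction h1)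
  have hp : ∀ x : ℝ, 1 < x → 0 < Zf x * LFunction χ x := fun x hx => by
    rw [Zf_of_ne (by exact_mod_cast hx.ne'), mul_assoc, L_zetaMul χ (by simpa using hx)]
    refine mul_pos (by exact_mod_cast sub_pos.2 hx) (LSeries.positive (zetaMul_nonneg h)
      (χ.isMultiplicative_zetaMul.map_one ▸ zero_lt_one)
      (absc_lt (fun s => χ.LSeriesSummable_zetaMul) hx))
  by_contra hc
  have hβ : β ≤ 2 := by
    by_contra h2
    exact hc (lt_def.1 (hp β (by linarith))).1.le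
  obtain ⟨x, hx, e⟩ := intermediate_value_Icc hβ
    (continuous_re.comp (hd.continuous.comp continuous_ofReal)).continuousOn
    (show (0 : ℝ) ∈ Set.Icc _ _ from ⟨(not_le.1 hc).le, (lt_def.1 (hp 2 one_lt_two)).1.le⟩)
  have e0 : Zf x * LFunction χ x = 0 :=
    Complex.ext e (im_eq_zero hd (fun y hy => (lt_def.1 (hp y hy)).2.symm) x)
  rcases lt_trichotomy x 1 with h2 | rfl | h2
  · exact mul_ne_zero (hZ x hx.1 h2) (hL x hx.1 h2) e0
  · rw [ofReal_one, Zf_one, one_mul] at e0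
    exact LFunction_apply_one_ne_zero h1 e0
  · exact (hp x h2).ne' e0

lemma ball_bound (hL : S_Lup) : ∃ C : ℝ, 1 ≤ C ∧ ∀ (q : ℕ) [NeZero q] (χ : DirichletCharacter ℂ q),
    χ ≠ 1 → ∀ s ∈ closedBall (2 : ℂ) (3 / 2), ‖LFunction χ s‖ ≤ C * q := by
  obtain ⟨C, C0, h, -⟩ := hL (1 / 2) (by norm_num) le_rfl
  refine ⟨1 + 4 * C, by linarith, fun q _ χ hχ s hs => ?_⟩
  rw [mem_closedBall, dist_eq_norm] at hs
  have h1 := (abs_le.1 ((abs_re_le_norm _).trans hs)).1
  have h2 := (abs_im_le_norm _).trans hs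
  simp only [sub_re, re_ofNat, sub_im, im_ofNat, sub_zero] at h1 h2
  have hq : (1 : ℝ) ≤ q := by exact_mod_cast NeZero.one_le
  have h3 : 1 ≤ cond q s := by unfold cond; nlinarith [abs_nonneg s.im]
  have h4 : cond q s ≤ 4 * q := by unfold cond; nlinarith
  have h5 := Real.rpow_le_rpow_of_exponent_le h3 (show (1 / 2 : ℝ) ≤ 1 by norm_num)
  rw [Real.rpow_one] at h5
  refine (h q χ hχ s (by linarith)).trans ?_
  nlinarith [mul_le_mul_of_nonneg_left (h5.trans h4) C0.le]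

lemma final_bound {D B L x u v ε : ℝ} (hD : 0 < D) (hB : 0 < B) (hx : 1 ≤ x) (h : u + v ≤ ε)
    (H : D * x ^ (-u) ≤ B * x ^ v * L) : D / B * x ^ (-ε) ≤ L := by
  have h1 : x ^ (-ε) * x ^ v ≤ x ^ (-u) := by
    rw [← Real.rpow_add (by linarith)]
    exact Real.rpow_le_rpow_of_exponent_le hx (by linarith)
  have h2 : 0 < x ^ v := by positivity
  rw [div_mul_eq_mul_div, div_le_iff₀ hB]
  refine le_of_mul_le_mul_right ?_ h2
  nlinarith

lemma lift_mul [NeZero q₁] [NeZero q] (χ₁ : DirichletCharacter ℂ q₁) (χ : DirichletCharacter ℂ q)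
    (n : ℕ) : (changeLevel (dvd_mul_right q₁ q) χ₁ * changeLevel (dvd_mul_left q q₁) χ) n =
      χ₁ n * χ n := by
  rw [MulChar.mul_apply]
  by_cases h : IsCoprime (n : ℤ) ((q₁ * q : ℕ) : ℤ)
  · have h1 := changeLevel_eq_cast_of_dvd' χ₁ (dvd_mul_right q₁ q) h
    have h2 := changeLevel_eq_cast_of_dvd' χ (dvd_mul_left q q₁) h
    simp only [Int.cast_natCast] at h1 h2
    rw [h1, h2]
  · have h1 := (apply_eq_zero_iff (changeLevel (dvd_mul_right q₁ q) χ₁) n).2 h
    rw [Nat.cast_mul, IsCoprime.mul_right_iff, not_and_or, ← apply_eq_zero_iff χ₁,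
      ← apply_eq_zero_iff χ] at h
    simp only [Int.cast_natCast] at h h1
    rw [h1, zero_mul, mul_eq_zero.2 h]

lemma factor_bd (χ : DirichletCharacter ℂ q) (N : ℕ) :
    (1 / 2) ^ N.primeFactors.card ≤ ‖∏ p ∈ N.primeFactors, (1 - χ p * (p : ℂ) ^ (-1 : ℂ))‖ ∧
      ‖∏ p ∈ N.primeFactors, (1 - χ p * (p : ℂ) ^ (-1 : ℂ))‖ ≤ 2 ^ N.primeFactors.card := by
  have h : ∀ p ∈ N.primeFactors, ‖χ p * (p : ℂ) ^ (-1 : ℂ)‖ ≤ 1 / 2 := fun p hp => by
    have h2 : (2 : ℝ) ≤ p := by exact_mod_cast (Nat.prime_of_mem_primeFactors hp).two_le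
    rw [cpow_neg_one, norm_mul, norm_inv, Complex.norm_natCast, one_div, ← one_mul (2 : ℝ)⁻¹]
    gcongr
    exact norm_le_one χ _
  rw [norm_prod, ← prod_const, ← prod_const]
  refine ⟨prod_le_prod (fun _ _ => by norm_num) fun p hp => ?_,
    prod_le_prod (fun _ _ => norm_nonneg _) fun p hp => ?_⟩
  · have := norm_sub_norm_le 1 (χ p * (p : ℂ) ^ (-1 : ℂ))
    rw [norm_one] at this
    linarith [h p hp]
  · have := norm_sub_le 1 (χ p * (p : ℂ) ^ (-1 : ℂ))
    rw [norm_one] at this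
    linarith [h p hp]

lemma same_char [NeZero q₁] [NeZero q] (h₁ : χ₁ ≠ 1) (h₁' : χ₁ ^ 2 = 1) (h : χ ≠ 1)
    (e : changeLevel (dvd_mul_right q₁ q) χ₁ * changeLevel (dvd_mul_left q q₁) χ = 1) :
    ‖LFunction χ₁ 1‖ ≤ tau (q₁ * q) ^ 2 * ‖LFunction χ 1‖ := by
  have e1 : changeLevel (dvd_mul_right q₁ q) χ₁ = changeLevel (dvd_mul_left q q₁) χ := by
    refine (left_inv_eq_right_inv (a := changeLevel (dvd_mul_right q₁ q) χ₁) ?_ e)
    rw [← sq, ← map_pow, h₁', map_one]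
  have e2 := LFunction_changeLevel (dvd_mul_right q₁ q) χ₁ (s := 1) (.inl h₁)
  rw [e1, LFunction_changeLevel _ χ (.inl h)] at e2
  have e3 := congrArg norm e2
  rw [norm_mul, norm_mul] at e3
  have h2 := mul_le_mul_of_nonneg_left (factor_bd χ₁ (q₁ * q)).1 (norm_nonneg (LFunction χ₁ 1))
  have h3 := mul_le_mul_of_nonneg_left (factor_bd χ (q₁ * q)).2 (norm_nonneg (LFunction χ 1))
  have h4 := two_pow_le_tau (NeZero.ne (q₁ * q))
  set w : ℝ := 2 ^ (q₁ * q).primeFactors.card with hw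
  have w0 : 0 < w := by positivity
  rw [one_div, inv_pow, ← hw, ← e3, ← div_eq_mul_inv] at h2
  have h5 := (div_le_iff₀ w0).1 (h2.trans h3)
  have h6 : w * w ≤ tau (q₁ * q) ^ 2 := by rw [← sq]; gcongr
  nlinarith [norm_nonneg (LFunction χ 1)]

lemma exists_eta {ε : ℝ} (hε : 0 < ε) : ∃ η : ℝ, 0 < η ∧ η ≤ 1 / 8 ∧ η ≤ ε / 16 ∧
    ∀ x : ℝ, 1 - η ≤ x → x < 1 → Zf x ≠ 0 := by
  have h : ∀ᶠ x : ℝ in 𝓝 1, Zf x ≠ 0 :=
    (differentiable_Zf.continuous.comp continuous_ofReal).continuousAt.eventually_ne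
      (by simp [Zf_one])
  obtain ⟨r, r0, hr⟩ := Metric.eventually_nhds_iff.1 h
  refine ⟨min (min (1 / 8) (ε / 16)) (r / 2), by positivity, (min_le_left _ _).trans (min_le_left _ _),
    (min_le_left _ _).trans (min_le_right _ _), fun x h1 h2 => hr ?_⟩
  rw [Real.dist_eq, abs_lt]
  constructor <;> linarith [min_le_right (min (1 / 8) (ε / 16)) (r / 2)]

end SiegelP

open SiegelP DirichletCharacter Metric in
theorem siegel (h : S_Lup) : S_Siegel := by
  intro ε hε
  obtain ⟨c, c0, hE⟩ := estermann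
  obtain ⟨C, C1, hC⟩ := ball_bound h
  obtain ⟨η, η0, η1, η2, hZ⟩ := exists_eta hε
  by_cases hex : ∃ (q₁ : ℕ) (_ : NeZero q₁) (χ₁ : DirichletCharacter ℂ q₁) (x : ℝ),
    χ₁ ≠ 1 ∧ χ₁ ^ 2 = 1 ∧ 1 - η ≤ x ∧ x < 1 ∧ LFunction χ₁ x = 0
  · obtain ⟨q₁, _, χ₁, x, h1, h2, x1, x2, hx⟩ := hex
    obtain ⟨t, rfl⟩ : ∃ t, x = 1 - t := ⟨1 - x, by ring⟩
    have t0 : 0 < t := by linarith
    have q1 : (1 : ℝ) ≤ q₁ := by exact_mod_cast NeZero.one_le
    have A0 : 0 < ‖LFunction χ₁ 1‖ := norm_pos_iff.2 (LFunction_apply_one_ne_zero h1)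
    obtain ⟨δ, δ0, δ1, δ2⟩ : ∃ δ : ℝ, 0 < δ ∧ δ ≤ 1 / 2 ∧ δ ≤ ε / 2 :=
      ⟨min (1 / 2) (ε / 2), by positivity, min_le_left _ _, min_le_right _ _⟩
    obtain ⟨C', C0, hC', -⟩ := h δ δ0 δ1
    obtain ⟨T, T0, hT⟩ := tau_le δ0
    refine ⟨min (c * t * (C ^ 3 * q₁ ^ 2) ^ (-(4 * t)) / (‖LFunction χ₁ 1‖ * C' * (2 * q₁) ^ δ))
      (‖LFunction χ₁ 1‖ / (T * q₁ ^ δ) ^ 2), by positivity, fun q _ χ h3 h4 => ?_⟩
    have hq : (1 : ℝ) ≤ q := by exact_mod_cast NeZero.one_le
    by_cases e : changeLevel (dvd_mul_right q₁ q) χ₁ * changeLevel (dvd_mul_left q q₁) χ = 1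
    · refine le_trans (by gcongr; exact min_le_right _ _)
        (final_bound (u := 0) (v := δ * 2) A0 (by positivity) hq (by linarith) ?_)
      rw [neg_zero, Real.rpow_zero, mul_one, Real.rpow_mul (by positivity), Real.rpow_two, ← mul_pow,
        mul_assoc T, ← Real.mul_rpow (by positivity) (by positivity), ← Nat.cast_mul]
      refine (same_char h1 h2 h3 e).trans ?_
      gcongr
      exacts [tau_nonneg _, hT _]
    · refine le_trans (by gcongr; exact min_le_left _ _)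
        (final_bound (u := 8 * t) (v := δ) (by positivity) (by positivity) hq (by linarith) ?_)
      have h5 := hE (fun s => LFunction χ₁ s * (LFunction χ s * LFunction (changeLevel
        (dvd_mul_right q₁ q) χ₁ * changeLevel (dvd_mul_left q q₁) χ) s)) _ (C ^ 3 * q₁ ^ 2 * q ^ 2) t
        ((differentiable_LFunction h1).mul ((differentiable_LFunction h3).mul
          (differentiable_LFunction e))) (co_nonneg h2 h4 (lift_mul χ₁ χ)) co_mult.map_one
        (fun s => co_summable) (fun s => L_co) (one_le_mul_of_one_le_of_one_le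
          (one_le_mul_of_one_le_of_one_le (one_le_pow₀ C1) (one_le_pow₀ q1)) (one_le_pow₀ hq))
        (fun s hs => by
          rw [norm_mul, norm_mul]
          refine (mul_le_mul (hC _ _ h1 s hs) (mul_le_mul (hC _ _ h3 s hs) (hC _ _ e s hs)
            (norm_nonneg _) (by positivity)) (by positivity) (by positivity)).trans_eq ?_
          push_cast
          ring) t0 (by linarith) (by simp only [hx, zero_mul, mul_zero, Complex.zero_re, le_refl])
      have h6 := hC' _ _ e 1 (by simp [δ0.le])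
      have e1 : cond (q₁ * q) 1 ^ δ = (2 * q₁) ^ δ * q ^ δ := by
        rw [← Real.mul_rpow (by positivity) (by positivity)]
        simp only [cond, Complex.one_im, abs_zero, zero_add, Nat.cast_mul]
        congr 1
        ring
      have e2 : ((q : ℝ) ^ 2) ^ (-(4 * t)) = q ^ (-(8 * t)) := by
        rw [← Real.rpow_two, ← Real.rpow_mul (by positivity)]
        congr 1
        ring
      rw [Real.mul_rpow (by positivity) (by positivity), e2, ← mul_assoc, norm_mul, norm_mul] at h5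
      rw [e1] at h6
      refine h5.trans ((mul_le_mul_of_nonneg_left (mul_le_mul_of_nonneg_left h6 (norm_nonneg _))
        A0.le).trans_eq (by ring))
  · refine ⟨c * η * C ^ (-(4 * η)) / 1, by positivity, fun q _ χ h3 h4 => ?_⟩
    have hq : (1 : ℝ) ≤ q := by exact_mod_cast NeZero.one_le
    refine final_bound (u := 4 * η) (v := 0) (by positivity) one_pos hq (by linarith) ?_
    have h5 := hE (LFunction χ) _ (C * q) η (differentiable_LFunction h3) (zetaMul_nonneg h4)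
      χ.isMultiplicative_zetaMul.map_one (fun s => χ.LSeriesSummable_zetaMul) (fun s => L_zetaMul χ)
      (one_le_mul_of_one_le_of_one_le C1 hq) (hC _ _ h3) η0 η1
      (re_nonneg h3 h4 hZ fun x x1 x2 hx => hex ⟨q, inferInstance, χ, x, h3, h4, x1, x2, hx⟩)
    rwa [Real.mul_rpow (by positivity) (by positivity), ← mul_assoc, ← one_mul ‖LFunction χ 1‖,
      ← Real.rpow_zero q, ← one_mul ((q : ℝ) ^ (0 : ℝ))] at h5

end Pool.Agent.P.MP_0ad054_nt.An
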