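import Pool.Agent.P.MP_0ad054_nt.An.Lup

/-! A thin zero free region for Dirichlet L-functions. -/

namespace Pool.Agent.P.MP_0ad054_nt.An

open Finset Complex DirichletCharacter Filter Topology LupP

namespace ZfreeP

variable {F : ℂ → ℂ} {q : ℕ} {d D C x : ℝ} {s : ℂ}

lemma cond_rpow_le (h0 : 0 ≤ d) {w : ℂ} (h : |w.im| ≤ |s.im|) : cond q w ^ d ≤ cond q s ^ d := by
  unfold cond
  gcongr

lemma cond_rpow_le_two (h0 : 0 ≤ d) (h1 : d ≤ 1) {w : ℂ} (h : |w.im| ≤ 2 * |s.im| + 2) :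
    cond q w ^ d ≤ 2 * cond q s ^ d := by
  have a : cond q w ≤ 2 * cond q s := by
    unfold cond
    nlinarith [Nat.cast_nonneg (α := ℝ) q]
  refine (Real.rpow_le_rpow (by unfold cond; positivity) a h0).trans ?_
  rw [Real.mul_rpow (by norm_num) (by unfold cond; positivity)]
  refine mul_le_mul_of_nonneg_right ?_ (by unfold cond; positivity)
  simpa using Real.rpow_le_rpow_of_exponent_le (x := 2) (by norm_num) h1

lemma one_le_P (hq : 1 ≤ q) (h0 : 0 ≤ d) (s : ℂ) : 1 ≤ cond q s ^ d :=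
  Real.one_le_rpow (by linarith [two_le_cond hq s]) h0

lemma q_le_P (h0 : 0 ≤ d) (s : ℂ) : (q : ℝ) ^ d ≤ cond q s ^ d :=
  Real.rpow_le_rpow (Nat.cast_nonneg _)
    (le_mul_of_one_le_right (Nat.cast_nonneg _) (by linarith [abs_nonneg s.im])) h0

/-- Holomorphic functions with a bound for the derivative. -/
def Nice (F : ℂ → ℂ) (q : ℕ) (d D : ℝ) : Prop :=
  (∀ w : ℂ, 0 < w.re → DifferentiableAt ℂ F w) ∧
    ∀ s : ℂ, 1 - d / 2 ≤ s.re → ‖deriv F s‖ ≤ D * cond q s ^ d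

lemma nice_of (h0 : 0 < d) (h1 : d ≤ 1 / 2) (hC : 0 ≤ C) (hD : 4 * C / d ≤ D)
    (hF : ∀ w : ℂ, 0 < w.re → DifferentiableAt ℂ F w)
    (hb : ∀ w : ℂ, 1 - d ≤ w.re → ‖F w‖ ≤ C * cond q w ^ d) : Nice F q d D := by
  refine ⟨hF, fun s hs => ?_⟩
  have a : ∀ w ∈ Metric.closedBall s (d / 2), 1 - d ≤ w.re ∧ |w.im| ≤ 2 * |s.im| + 2 := by
    intro w hw
    rw [Metric.mem_closedBall, dist_eq_norm] at hw
    have a1 := (abs_le.1 ((abs_re_le_norm (w - s)).trans hw)).1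
    have a2 := (abs_im_le_norm (w - s)).trans hw
    rw [sub_re] at a1
    rw [sub_im] at a2
    exact ⟨by linarith, by linarith [abs_sub_abs_le_abs_sub w.im s.im, abs_nonneg s.im]⟩
  have := norm_deriv_le_of_forall_mem_sphere_norm_le (c := s) (R := d / 2) (f := F)
    (C := C * (2 * cond q s ^ d)) (half_pos h0)
    (DifferentiableOn.diffContOnCl fun w hw => (hF w (by
      linarith [(a w (Metric.closure_ball_subset_closedBall hw)).1])).differentiableWithinAt)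
    fun w hw => (hb w (a w (Metric.sphere_subset_closedBall hw)).1).trans
      (mul_le_mul_of_nonneg_left (cond_rpow_le_two h0.le (by linarith)
        (a w (Metric.sphere_subset_closedBall hw)).2) hC)
  refine this.trans (le_trans (le_of_eq ?_)
    (mul_le_mul_of_nonneg_right hD (by unfold cond; positivity)))
  field_simp
  ring

lemma Nice.lip (h : Nice F q d D) (h0 : 0 < d) (h1 : d ≤ 1 / 2) (hD : 0 ≤ D) (s : ℂ) {u v : ℂ}
    (hu : 1 - d / 2 ≤ u.re) (hu' : |u.im| ≤ |s.im|) (hv : 1 - d / 2 ≤ v.re)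
    (hv' : |v.im| ≤ |s.im|) : ‖F u‖ - D * cond q s ^ d * ‖u - v‖ ≤ ‖F v‖ := by
  have := (((convex_halfSpace_re_ge (1 - d / 2)).inter (convex_halfSpace_im_ge (-|s.im|))).inter
    (convex_halfSpace_im_le |s.im|)).norm_image_sub_le_of_norm_deriv_le (f := F)
    (C := D * cond q s ^ d) (fun w hw => h.1 w (by linarith [show 1 - d / 2 ≤ w.re from hw.1.1]))
    (fun w hw => (h.2 w hw.1.1).trans (mul_le_mul_of_nonneg_left
      (cond_rpow_le h0.le (abs_le.2 ⟨hw.1.2, hw.2⟩)) hD))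
    ⟨⟨hv, (abs_le.1 hv').1⟩, (abs_le.1 hv').2⟩ ⟨⟨hu, (abs_le.1 hu').1⟩, (abs_le.1 hu').2⟩
  linarith [norm_sub_norm_le (F u) (F v)]

lemma Nice.move (h : Nice F q d D) (h0 : 0 < d) (h1 : d ≤ 1 / 2) (hq : 1 ≤ q) (hD : 2 / d ≤ D)
    {E y : ℝ} (hE : 1 ≤ E) (hy : y * (8 * E * (D * cond q s ^ d)) = 1)
    (hl : ∀ x : ℝ, 0 < x → x ≤ 1 → x ^ 3 ≤ 8 * E * ‖F (1 + x + I * s.im)‖ ^ 4)
    (h2 : 1 - y ^ 4 ≤ s.re) (h3 : s.re ≤ 2) : 1 - d / 2 ≤ s.re ∧ y ^ 4 ≤ ‖F s‖ := by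
  have hP := one_le_P hq h0.le s
  rw [div_le_iff₀ h0] at hD
  have D4 : 4 ≤ D := by nlinarith
  set P := cond q s ^ d
  have y0 : 0 < y := pos_of_mul_pos_left (hy ▸ one_pos) (by positivity)
  have DP : 4 ≤ D * P := by nlinarith
  have y1 : y * (32 * E) ≤ 1 := by
    rw [← hy]
    exact mul_le_mul_of_nonneg_left (by nlinarith) y0.le
  have y2 : y * (8 * D) ≤ 1 := by
    rw [← hy]
    refine mul_le_mul_of_nonneg_left ?_ y0.le
    have : D ≤ D * P := by nlinarith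
    nlinarith
  have y3 : y ≤ 1 := by nlinarith
  have y4 : y ^ 4 ≤ y := pow_le_of_le_one y0.le y3 (by norm_num)
  have y5 : y ≤ d / 2 := by nlinarith
  have y6 : y ^ 4 ≤ y ^ 3 / (4 * E) := by
    rw [le_div_iff₀ (by positivity)]
    nlinarith [pow_pos y0 3]
  have key : ∀ x : ℝ, y ^ 4 ≤ x → x ≤ 1 → y ^ 3 / (2 * E) ≤ ‖F (1 + x + I * s.im)‖ := by
    intro x a b
    refine le_of_pow_le_pow_left₀ (n := 4) (by norm_num) (norm_nonneg _) ?_
    have c := hl x ((pow_pos y0 4).trans_le a) b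
    have c1 : (y ^ 4) ^ 3 ≤ x ^ 3 := by gcongr
    have c2 : 8 * E ≤ (2 * E) ^ 4 := by nlinarith [pow_le_pow_right₀ hE (show 1 ≤ 4 by norm_num)]
    rw [div_pow, div_le_iff₀ (by positivity)]
    nlinarith [mul_le_mul_of_nonneg_left c2 (show 0 ≤ ‖F (1 + x + I * s.im)‖ ^ 4 by positivity)]
  have e4 : y ^ 3 / (2 * E) = 2 * (y ^ 3 / (4 * E)) := by field_simp; ring
  refine ⟨by linarith, ?_⟩
  rcases le_total (1 + y ^ 4) s.re with h4 | h4
  · have := key (s.re - 1) (by linarith) (by linarith)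
    rw [show 1 + ((s.re - 1 : ℝ) : ℂ) + I * s.im = s by apply Complex.ext <;> simp] at this
    linarith [pow_pos y0 4]
  · have a1 := key (y ^ 4) le_rfl (by linarith)
    have a2 := h.lip h0 h1 (by linarith) s (u := 1 + (y ^ 4 : ℝ) + I * s.im) (v := s)
      (by simp only [add_re, one_re, ofReal_re, I_mul_re, ofReal_im]; linarith [pow_pos y0 4])
      (by simp only [add_im, one_im, ofReal_re, I_mul_im, ofReal_im]; simp) (by linarith) le_rfl
    have a3 : ‖1 + ((y ^ 4 : ℝ) : ℂ) + I * s.im - s‖ ≤ 2 * y ^ 4 := by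
      rw [show 1 + ((y ^ 4 : ℝ) : ℂ) + I * s.im - s = ((1 + y ^ 4 - s.re : ℝ) : ℂ) by
        generalize y ^ 4 = z
        apply Complex.ext <;> simp, norm_real, Real.norm_of_nonneg (by linarith)]
      linarith
    have a4 : D * P * (2 * y ^ 4) = y ^ 3 / (4 * E) := by
      rw [eq_div_iff (by positivity)]
      linear_combination y ^ 3 * hy
    linarith [mul_le_mul_of_nonneg_left a3 (show 0 ≤ D * P by positivity)]

lemma Nice.fin (h : Nice F q d D) (h0 : 0 < d) (h1 : d ≤ 1 / 2) (hq : 1 ≤ q) (hD : 2 / d ≤ D)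
    (hC : 1 ≤ C) {δ c : ℝ} (hδ : 53 * d ≤ δ) (hc : c * (8 * C * D) ^ 4 ≤ 1)
    (hl : ∀ x : ℝ, 0 < x → x ≤ 1 →
      x ^ 3 ≤ 8 * (C * (cond q s ^ d) ^ 12) * ‖F (1 + x + I * s.im)‖ ^ 4)
    (h2 : 1 - c * cond q s ^ (-δ) ≤ s.re) (h3 : s.re ≤ 2) :
    F s ≠ 0 ∧ ‖deriv F s / F s‖ ≤ D * (8 * C * D) ^ 4 * cond q s ^ δ := by
  have hP := one_le_P hq h0.le s
  have hQ := two_le_cond hq s
  have D0 : 0 < D := lt_of_lt_of_le (by positivity) hD
  have b1 : (cond q s ^ d) ^ 53 ≤ cond q s ^ δ := by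
    rw [← Real.rpow_mul_natCast (by linarith)]
    exact Real.rpow_le_rpow_of_exponent_le (by linarith) (by push_cast; linarith)
  rw [Real.rpow_neg (by linarith)] at h2
  have hm := fun y hy => h.move h0 h1 hq hD (s := s) (y := y)
    (one_le_mul_of_one_le_of_one_le hC (one_le_pow₀ hP)) hy hl
  have hd := h.2 s
  set P := cond q s ^ d
  have b2 : P ^ 52 ≤ cond q s ^ δ := (pow_le_pow_right₀ hP (by norm_num)).trans b1
  have e : (8 * (C * P ^ 12) * (D * P))⁻¹ ^ 4 = ((8 * C * D) ^ 4 * P ^ 52)⁻¹ := by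
    rw [inv_pow]; congr 1; ring
  obtain ⟨a1, a2⟩ := hm _ (inv_mul_cancel₀ (by positivity)) (by
    refine le_trans (sub_le_sub_left ?_ 1) h2
    rw [e, mul_inv]
    refine mul_le_mul ?_ (inv_anti₀ (by positivity) b2) (by positivity) (by positivity)
    rwa [← one_div, le_div_iff₀ (by positivity)]) h3
  rw [e] at a2
  have a3 : 0 < ‖F s‖ := lt_of_lt_of_le (by positivity) a2
  refine ⟨norm_pos_iff.1 a3, ?_⟩
  rw [norm_div]
  refine (div_le_div₀ (by positivity) (hd a1) (by positivity) a2).trans ?_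
  rw [div_inv_eq_mul]
  calc D * P * ((8 * C * D) ^ 4 * P ^ 52) = D * (8 * C * D) ^ 4 * P ^ 53 := by ring
    _ ≤ _ := by gcongr

lemma Nice.low (h : Nice F q d D) (h0 : 0 < d) (h1 : d ≤ 1 / 2) (hq : 1 ≤ q) (hD : 1 ≤ D)
    (hC : 1 ≤ C) {c : ℝ} (c0 : 0 < c) (c1 : c ≤ 1) (hF : c / cond q s ^ d ≤ ‖F 1‖)
    (hx : 0 < x) (hx' : x ≤ 1)
    (hl : ∀ t : ℝ, 0 < t → t ≤ 1 → t ≤ |s.im| ∨ t ≤ x →
      x ^ 3 * t ^ 5 ≤ 8 * (C * (cond q s ^ d) ^ 2) * ‖F (1 + x + I * s.im)‖ ^ 4) :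
    x ^ 3 ≤ 8 * (C * (4 * D / c) ^ 5 * (cond q s ^ d) ^ 12) * ‖F (1 + x + I * s.im)‖ ^ 4 := by
  have hP := one_le_P hq h0.le s
  have a2 := h.lip h0 h1 (by linarith) s (u := 1) (v := 1 + x + I * s.im) (by simp; linarith)
    (by simp) (by simp; linarith) (by simp)
  set P := cond q s ^ d
  obtain ⟨t, ht⟩ : ∃ t, t = c / (4 * D * P ^ 2) := ⟨_, rfl⟩
  have t0 : 0 < t := by rw [ht]; positivity
  have p2 : 1 ≤ P ^ 2 := one_le_pow₀ hP
  have t1 : t ≤ 1 := by
    rw [ht, div_le_one (by positivity)]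
    nlinarith
  have e : C * (4 * D / c) ^ 5 * P ^ 12 = C * P ^ 2 / t ^ 5 := by
    rw [ht]; field_simp
  rw [e, mul_div_assoc', div_mul_eq_mul_div, le_div_iff₀ (by positivity)]
  by_cases hc : t ≤ |s.im| ∨ t ≤ x
  · exact hl t t0 t1 hc
  · push Not at hc
    have a3 : ‖1 - (1 + x + I * s.im)‖ ≤ 2 * t := by
      rw [show 1 - (1 + x + I * s.im) = -((x : ℂ) + I * s.im) by ring, norm_neg]
      refine (norm_add_le _ _).trans ?_
      rw [norm_mul, norm_I, one_mul, norm_real, norm_real, Real.norm_of_nonneg hx.le,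
        Real.norm_eq_abs]
      linarith [hc.1, hc.2]
    have a4 : c / P = 4 * (D * P * t) := by rw [ht]; field_simp
    have a5 : t ≤ D * P * t := le_mul_of_one_le_left t0.le (by nlinarith)
    have a6 : t ≤ ‖F (1 + x + I * s.im)‖ := by
      linarith [mul_le_mul_of_nonneg_left a3 (show 0 ≤ D * P by positivity)]
    calc x ^ 3 * t ^ 5 ≤ 1 * t ^ 4 := by
          gcongr ?_ * ?_
          · exact pow_le_one₀ hx.le hx'
          · exact pow_le_pow_of_le_one t0.le t1 (by norm_num)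
      _ ≤ _ := by
          gcongr
          nlinarith

lemma norm_L_le_two [NeZero q] (χ : DirichletCharacter ℂ q) (hx : 0 < x) (hx' : x ≤ 1) {w : ℂ}
    (hw : w.re = 1 + x) : ‖LFunction χ w‖ ≤ 2 / x := by
  have := norm_L_le χ (s := w) (by linarith)
  rw [hw, add_sub_cancel_left] at this
  have h1 : 1 ≤ 1 / x := by rw [le_div_iff₀ hx]; linarith
  rw [show 2 / x = 2 * (1 / x) by ring]
  linarith

lemma three41 [NeZero q] (χ : DirichletCharacter ℂ q) (hx : 0 < x) (hx' : x ≤ 1) {t E : ℝ}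
    (hE : ‖LFunction (χ ^ 2) (1 + x + 2 * I * t)‖ ≤ E) :
    x ^ 3 ≤ 8 * E * ‖LFunction χ (1 + x + I * t)‖ ^ 4 := by
  have h := norm_LFunction_product_ge_one χ hx t
  rw [norm_mul, norm_mul, norm_pow, norm_pow] at h
  have h1 := norm_L_le_two (1 : DirichletCharacter ℂ q) hx hx' (w := 1 + x) (by simp)
  have h2 : 1 ≤ (2 / x) ^ 3 * ‖LFunction χ (1 + x + I * t)‖ ^ 4 * E := h.le.trans (by gcongr)
  calc x ^ 3 = x ^ 3 * 1 := (mul_one _).symm
    _ ≤ x ^ 3 * ((2 / x) ^ 3 * ‖LFunction χ (1 + x + I * t)‖ ^ 4 * E) := by gcongr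
    _ = _ := by field_simp; ring

lemma triv_le (h : S_Lup) (h0 : 0 < d) (h1 : d ≤ 1 / 2) : ∃ C : ℝ, 1 ≤ C ∧
    ∀ (q : ℕ) [NeZero q] (s : ℂ) (x t : ℝ), 0 < x → x ≤ 1 → 0 < t → t ≤ 1 → t ≤ |s.im| ∨ t ≤ x →
      ‖LFunction (1 : DirichletCharacter ℂ q) (1 + x + 2 * I * s.im)‖ ≤
        C * (cond q s ^ d) ^ 2 / t := by
  obtain ⟨C, C0, -, hC⟩ := h d h0 h1
  obtain ⟨B, B0, hB⟩ := tau_le h0
  refine ⟨2 + B * (1 + 2 * C), by nlinarith [mul_pos B0 C0], fun q _ s x t hx hx' t0 t1 ht => ?_⟩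
  have hP := one_le_P (NeZero.one_le (n := q)) h0.le s
  have p2 : 1 ≤ (cond q s ^ d) ^ 2 := one_le_pow₀ hP
  set w : ℂ := 1 + x + 2 * I * s.im with hw
  have w1 : w.re = 1 + x := by simp [hw]
  have w2 : w.im = 2 * s.im := by simp [hw]
  rcases ht with ht | ht
  · have w3 : w ≠ 1 := by
      intro e
      rw [e, one_re] at w1
      linarith
    have a1 : ‖∏ p ∈ q.primeFactors, (1 - (p : ℂ) ^ (-w))‖ ≤ B * cond q s ^ d := by
      rw [norm_prod]
      refine le_trans ?_ ((two_pow_le_tau (NeZero.ne q)).trans ((hB q).trans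
        (mul_le_mul_of_nonneg_left (q_le_P h0.le s) B0.le)))
      rw [← prod_const]
      refine prod_le_prod (fun _ _ => norm_nonneg _) fun p hp => (norm_sub_le _ _).trans ?_
      have := (Nat.prime_of_mem_primeFactors hp).pos
      rw [norm_one, norm_natCast_cpow_of_pos this]
      linarith [Real.rpow_le_one_of_one_le_of_nonpos (x := p) (z := (-w).re) (by exact_mod_cast this)
        (by rw [neg_re]; linarith)]
    have a2 : ‖1 / (w - 1)‖ ≤ 1 / t := by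
      rw [norm_div, norm_one]
      refine one_div_le_one_div_of_le t0 (le_trans ?_ (abs_im_le_norm _))
      rw [sub_im, w2, one_im, sub_zero, abs_mul, abs_two]
      linarith
    have a3 : cond 1 w ^ d ≤ 2 * cond q s ^ d := by
      refine le_trans (Real.rpow_le_rpow (by unfold cond; positivity) ?_ h0.le)
        (cond_rpow_le_two (w := w) h0.le (by linarith) (by rw [w2, abs_mul, abs_two]; linarith))
      unfold cond
      gcongr
      exact NeZero.one_le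
    have a4 : ‖riemannZeta w‖ ≤ (1 + 2 * C) * cond q s ^ d / t := by
      have b1 := hC w w3 (by linarith)
      have b2 := norm_sub_norm_le (riemannZeta w) (1 / (w - 1))
      have b3 : 1 ≤ 1 / t := by rw [le_div_iff₀ t0]; linarith
      have b4 := mul_le_mul_of_nonneg_left a3 C0.le
      rw [div_eq_mul_one_div]
      nlinarith [mul_le_mul_of_nonneg_left b3 (show 0 ≤ C * cond q s ^ d by positivity)]
    have := LFunctionTrivChar_eq_mul_riemannZeta (N := q) w3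
    rw [LFunctionTrivChar] at this
    rw [this, norm_mul]
    refine (mul_le_mul a1 a4 (norm_nonneg _) (by positivity)).trans ?_
    rw [← mul_div_assoc]
    gcongr ?_ / t
    nlinarith
  · refine (norm_L_le_two _ hx hx' w1).trans ((div_le_div_of_nonneg_left zero_le_two t0 ht).trans ?_)
    gcongr ?_ / t
    nlinarith [mul_pos B0 (show 0 < 1 + 2 * C by linarith)]

/-- The function `(s - 1) ζ(s) / s`. -/
noncomputable def G (s : ℂ) : ℂ := Zf s / s

lemma ne_zero_of_re {w : ℂ} (h : 0 < w.re) : w ≠ 0 := by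
  rintro rfl
  simp at h

lemma G_le (h0 : 0 < d) (h1 : d ≤ 1 / 2) (C0 : 0 < C)
    (hC : ∀ s : ℂ, s ≠ 1 → 1 - d ≤ s.re → ‖riemannZeta s - 1 / (s - 1)‖ ≤ C * cond 1 s ^ d)
    {w : ℂ} (hw : 1 - d ≤ w.re) : ‖G w‖ ≤ (3 * C + 2) * cond 1 w ^ d := by
  have hP := one_le_P le_rfl h0.le w
  by_cases e : w = 1
  · rw [G, e, Zf_one, div_one, norm_one]
    rw [e] at hP
    nlinarith
  · have a1 := re_le_norm w
    have a2 : ‖w - 1‖ ≤ 3 * ‖w‖ := by linarith [norm_sub_le w 1, norm_one (α := ℂ)]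
    have a3 : Zf w = (w - 1) * (riemannZeta w - 1 / (w - 1)) + 1 := by
      rw [Zf_eq e, mul_sub, mul_one_div_cancel (sub_ne_zero.2 e)]
      ring
    rw [G, norm_div, div_le_iff₀ (by linarith), a3]
    refine (norm_add_le _ _).trans ?_
    rw [norm_mul, norm_one]
    have := mul_le_mul a2 (hC w e hw) (norm_nonneg _) (by positivity)
    nlinarith

lemma zeta_le_G {w : ℂ} {t : ℝ} (t0 : 0 < t) (t1 : t ≤ 1) (hw : 0 < w.re) (h : t ≤ ‖w - 1‖) :
    t * ‖riemannZeta w‖ ≤ 2 * ‖G w‖ := by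
  have e : w ≠ 1 := by
    rintro rfl
    simp at h
    linarith
  have a1 : ‖w‖ ≤ ‖w - 1‖ + 1 := by
    simpa using norm_add_le (w - 1) 1
  rw [G, Zf_eq e, norm_div, norm_mul, mul_div_assoc',
    le_div_iff₀ (norm_pos_iff.2 (ne_zero_of_re hw))]
  have a2 : t * ‖w‖ ≤ 2 * ‖w - 1‖ := by nlinarith [norm_nonneg (w - 1)]
  nlinarith [mul_le_mul_of_nonneg_right a2 (norm_nonneg (riemannZeta w))]

end ZfreeP

open ZfreeP

theorem zfree (h1 : S_Lup) (h2 : S_Siegel) : S_Zfree := by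
  intro δ hδ
  obtain ⟨d, d0, d1, d2⟩ : ∃ d : ℝ, 0 < d ∧ d ≤ 1 / 2 ∧ 53 * d ≤ δ :=
    ⟨min (1 / 2) (δ / 53), by positivity, min_le_left _ _, by linarith [min_le_right (1 / 2) (δ / 53)]⟩
  obtain ⟨C, C0, hL, hZ⟩ := h1 d d0 d1
  obtain ⟨B, B1, hB⟩ := triv_le h1 d0 d1
  obtain ⟨c', c0', hS⟩ := h2 d d0
  obtain ⟨c, c0, c1, c2⟩ : ∃ c : ℝ, 0 < c ∧ c ≤ 1 ∧ c ≤ c' :=
    ⟨min 1 c', by positivity, min_le_left _ _, min_le_right _ _⟩
  obtain ⟨D, hD⟩ : ∃ D, D = 4 * (3 * C + 2) / d := ⟨_, rfl⟩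
  have D1 : 2 / d ≤ D := by rw [hD]; gcongr; linarith
  have D2 : 4 ≤ D := le_trans (by rw [le_div_iff₀ d0]; linarith) D1
  have D3 : 1 ≤ (4 * D / c) ^ 5 := one_le_pow₀ (by rw [le_div_iff₀ c0]; linarith)
  obtain ⟨E, hE⟩ : ∃ E, E = (16 * B + 2 * C) * (4 * D / c) ^ 5 := ⟨_, rfl⟩
  have E1 : 16 * B + 2 * C ≤ E := hE ▸ le_mul_of_one_le_right (by linarith) D3
  have E2 : 1 ≤ E := by linarith
  have A1 : 1 ≤ (8 * E * D) ^ 4 := one_le_pow₀ (by nlinarith)
  have A2 : (2 * (D * (8 * E * D) ^ 4))⁻¹ * (8 * E * D) ^ 4 ≤ 1 := by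
    rw [inv_mul_le_iff₀ (by positivity)]
    nlinarith
  refine ⟨(2 * (D * (8 * E * D) ^ 4))⁻¹, by positivity, ?_, fun q _ χ hχ s s1 s2 => ?_,
    fun s s1 s2 => ?_⟩
  · rw [one_div]
    exact inv_anti₀ (by norm_num) (by nlinarith)
  · have hq := NeZero.one_le (n := q)
    have hP := one_le_P hq d0.le s
    have hN : Nice (LFunction χ) q d D := nice_of d0 d1 C0.le (by rw [hD]; gcongr; linarith)
      (fun w _ => differentiable_LFunction hχ w) (hL q χ hχ)
    refine (hN.fin d0 d1 hq D1 E2 d2 A2 (fun x hx hx' => ?_) s1 s2).imp_right fun a2 => ?_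
    swap
    · refine a2.trans ?_
      rw [div_inv_eq_mul]
      have : 0 ≤ D * (8 * E * D) ^ 4 * cond q s ^ δ := (norm_nonneg _).trans a2
      linarith
    by_cases hc : χ ^ 2 = 1
    · rw [hE]
      refine hN.low d0 d1 hq (by linarith) (by linarith) c0 c1 ?_ hx hx' fun t t0 t1 ht => ?_
      · refine le_trans ?_ (hS q χ hχ hc)
        rw [Real.rpow_neg (Nat.cast_nonneg _), ← div_eq_mul_inv]
        exact div_le_div₀ c0'.le c2 (by positivity) (q_le_P d0.le s)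
      · have a := three41 χ hx hx' (hc ▸ hB q s x t hx hx' t0 t1 ht)
        rw [mul_div_assoc', div_mul_eq_mul_div, le_div_iff₀ t0] at a
        calc x ^ 3 * t ^ 5 ≤ x ^ 3 * t := by
              gcongr
              exact pow_le_of_le_one t0.le t1 (by norm_num)
          _ ≤ _ := a.trans (by gcongr; linarith)
    · refine three41 χ hx hx' ((hL q _ hc _ (by simp; linarith)).trans ?_)
      have a := cond_rpow_le_two (q := q) (s := s) (w := 1 + x + 2 * I * s.im) d0.le (by linarith)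
        (by simp [abs_mul])
      calc _ ≤ C * (2 * cond q s ^ d) := by gcongr
        _ = 2 * C * (cond q s ^ d) ^ 1 := by ring
        _ ≤ _ := by gcongr <;> linarith
  · have hP := one_le_P le_rfl d0.le s
    have hN : Nice G 1 d D := nice_of d0 d1 (by positivity) hD.ge
      (fun w hw => (differentiable_Zf w).div differentiableAt_id (ne_zero_of_re hw))
      fun w hw => G_le d0 d1 C0 hZ hw
    refine (hN.fin d0 d1 le_rfl D1 E2 d2 A2 (fun x hx hx' => ?_) s1 s2).elim fun a1 a2 => ?_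
    swap
    · have hQ := two_le_cond le_rfl s
      have b1 : (2 * (D * (8 * E * D) ^ 4))⁻¹ * cond 1 s ^ (-δ) ≤ 2⁻¹ * 1 :=
        mul_le_mul (inv_anti₀ (by norm_num) (by nlinarith))
          (Real.rpow_le_one_of_one_le_of_nonpos (by linarith) (by linarith)) (by positivity)
          (by norm_num)
      have b2 : s ≠ 0 := ne_zero_of_re (by linarith)
      have b3 : Zf s ≠ 0 := fun e => a1 (by rw [G, e, zero_div])
      have b4 : deriv G s = (deriv Zf s * s - Zf s * 1) / s ^ 2 :=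
        ((differentiable_Zf s).hasDerivAt.div (hasDerivAt_id s) b2).deriv
      have b5 : deriv Zf s / Zf s = deriv G s / G s + 1 / s := by
        rw [b4, G]
        field_simp
        ring
      have b6 : ‖1 / s‖ ≤ 2 := by
        rw [norm_div, norm_one, div_le_iff₀ (norm_pos_iff.2 b2)]
        linarith [re_le_norm s]
      refine ⟨b3, ?_⟩
      rw [b5, div_inv_eq_mul]
      have b7 : 1 ≤ cond 1 s ^ δ := one_le_P le_rfl hδ.le s
      have b8 : 4 * 1 * 1 ≤ D * (8 * E * D) ^ 4 * cond 1 s ^ δ := by gcongr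
      linarith [norm_add_le (deriv G s / G s) (1 / s)]
    rw [hE]
    refine hN.low d0 d1 le_rfl (by linarith) (by linarith) c0 c1 ?_ hx hx' fun t t0 t1 ht => ?_
    · rw [G, Zf_one, div_one, norm_one, div_le_one (by positivity)]
      linarith
    · have a := three41 (1 : DirichletCharacter ℂ 1) hx hx' (E := B * (cond 1 s ^ d) ^ 2 / t)
        (by simpa only [one_pow] using hB 1 s x t hx hx' t0 t1 ht)
      rw [mul_div_assoc', div_mul_eq_mul_div, le_div_iff₀ t0, LFunction_modOne_eq] at a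
      have b := zeta_le_G (w := 1 + x + I * s.im) t0 t1 (by simp; linarith) (ht.elim
        (fun h => h.trans (le_trans (by simp) (abs_im_le_norm _)))
        fun h => h.trans (le_trans (by simp) (re_le_norm _)))
      calc x ^ 3 * t ^ 5 = x ^ 3 * t * t ^ 4 := by ring
        _ ≤ 8 * (B * (cond 1 s ^ d) ^ 2) * ‖riemannZeta (1 + x + I * s.im)‖ ^ 4 * t ^ 4 := by gcongr
        _ = 8 * (B * (cond 1 s ^ d) ^ 2) * (t * ‖riemannZeta (1 + x + I * s.im)‖) ^ 4 := by ring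
        _ ≤ 8 * (B * (cond 1 s ^ d) ^ 2) * (2 * ‖G (1 + x + I * s.im)‖) ^ 4 := by gcongr
        _ = 8 * (16 * B * (cond 1 s ^ d) ^ 2) * ‖G (1 + x + I * s.im)‖ ^ 4 := by ring
        _ ≤ _ := by gcongr; linarith

end Pool.Agent.P.MP_0ad054_nt.An
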