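import Pool.Agent.P.MP_0ad054_nt.An.TauberA

/-! Contour shift for the Riesz mean and the removal of the smoothing. -/

namespace Pool.Agent.P.MP_0ad054_nt.An

open Finset Complex MeasureTheory

namespace TauberP

theorem norm_set_le {f : ℝ → ℂ} {h : ℝ → ℝ} {S : Set ℝ} (hS : MeasurableSet S)
    (hh : Integrable h) (h0 : ∀ t, 0 ≤ h t) (hb : ∀ t ∈ S, ‖f t‖ ≤ h t) :
    ‖∫ t in S, f t‖ ≤ ∫ t, h t :=
  (norm_integral_le_of_norm_le hh.integrableOn
    ((ae_restrict_iff' hS).2 (Filter.Eventually.of_forall hb))).trans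
    (setIntegral_le_integral hh (Filter.Eventually.of_forall h0))

theorem norm_g_im {s : ℂ} (hs : 0 < s.re) {T : ℝ} (hT : 0 < T) (h : T ≤ |s.im|) :
    ‖g s‖ ≤ (s.im ^ 2)⁻¹ := by
  refine (norm_g_le hs).trans (inv_anti₀ ?_ (by nlinarith))
  rw [← sq_abs]
  have : 0 < |s.im| := by linarith
  positivity

theorem tail_le {H : ℝ → ℂ} {M T κ : ℝ} (hκ : 0 < κ) (hT : 0 < T) (hM : 0 ≤ M)
    (hH : Integrable H) (hb : ∀ t : ℝ, ‖H t‖ ≤ M * ‖g (κ + t * I)‖) :
    ‖∫ t, H t‖ ≤ ‖∫ t in (-T)..T, H t‖ + M * (2 * Real.pi / T) := by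
  rw [← integral_add_compl (s := Set.Ioc (-T) T) measurableSet_Ioc hH,
    intervalIntegral.integral_of_le (by linarith)]
  refine (norm_add_le _ _).trans (add_le_add le_rfl ?_)
  have hi : Integrable fun t : ℝ => M * (2 / T ^ 2) * (1 + (t / T) ^ 2)⁻¹ :=
    (integrable_inv_one_add_sq.comp_div hT.ne').const_mul _
  refine (norm_set_le measurableSet_Ioc.compl hi (fun t => by positivity) fun t ht => ?_).trans
    (le_of_eq ?_)
  · have h1 : T ≤ |t| := by
      rw [Set.mem_compl_iff, Set.mem_Ioc, not_and_or, not_lt, not_le] at ht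
      rcases ht with ht | ht
      · exact le_abs.2 (Or.inr (by linarith))
      · exact le_abs.2 (Or.inl ht.le)
    have h2 := norm_g_im (s := κ + t * I) (by simpa using hκ) hT (by simpa using h1)
    simp only [add_im, ofReal_im, mul_im, ofReal_re, I_im, mul_one, I_re, mul_zero, add_zero,
      zero_add] at h2
    have h3 : T ^ 2 ≤ t ^ 2 := by
      rw [← sq_abs t]; exact pow_le_pow_left₀ hT.le h1 2
    have h4 : 0 < T ^ 2 := by positivity
    refine (hb t).trans ?_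
    rw [mul_assoc]
    refine mul_le_mul_of_nonneg_left (h2.trans ?_) hM
    have e : 2 / T ^ 2 * (1 + (t / T) ^ 2)⁻¹ = 2 / (T ^ 2 + t ^ 2) := by
      field_simp
    rw [e, ← one_div, div_le_div_iff₀ (by linarith) (by positivity)]
    linarith
  · rw [integral_const_mul, Measure.integral_comp_div (fun t : ℝ => (1 + t ^ 2)⁻¹),
      integral_univ_inv_one_add_sq, abs_of_pos hT, smul_eq_mul]
    field_simp

theorem shift {F : ℂ → ℂ} {L κ σ T B : ℝ} (hL : 0 ≤ L) (hσ : 1 / 2 ≤ σ) (hσκ : σ ≤ κ)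
    (hκ : κ ≤ 2) (hT : 1 ≤ T) (hB : 0 ≤ B)
    (hF : DifferentiableOn ℂ F {s | σ ≤ s.re ∧ s.re ≤ 2 ∧ |s.im| ≤ T})
    (hFB : ∀ s : ℂ, σ ≤ s.re → s.re ≤ 2 → |s.im| ≤ T → ‖F s‖ ≤ B) :
    ‖∫ t in (-T)..T, cexp ((κ + t * I) * L) * g (κ + t * I) * F (κ + t * I)‖ ≤
      Real.exp (σ * L) * B * (4 * Real.pi) + 3 * (Real.exp (κ * L) * B / T) := by
  set H : ℂ → ℂ := fun s => cexp (s * L) * g s * F s with hH
  have hT0 : 0 < T := by linarith
  have hd : DifferentiableOn ℂ H (Set.uIcc σ κ ×ℂ Set.uIcc (-T) T) := by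
    intro s hs
    rw [mem_reProdIm, Set.uIcc_of_le hσκ, Set.uIcc_of_le (by linarith)] at hs
    refine DifferentiableWithinAt.mul (DifferentiableAt.differentiableWithinAt
      (DifferentiableAt.mul (by fun_prop) (differentiableAt_g (by linarith [hs.1.1])))) ?_
    refine (hF s ⟨hs.1.1, hs.1.2.trans hκ, abs_le.2 hs.2⟩).mono fun w hw => ?_
    rw [mem_reProdIm, Set.uIcc_of_le hσκ, Set.uIcc_of_le (by linarith)] at hw
    exact ⟨hw.1.1, hw.1.2.trans hκ, abs_le.2 hw.2⟩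
  have hr := integral_boundary_rect_eq_zero_of_differentiableOn H ⟨σ, -T⟩ ⟨κ, T⟩ hd
  simp only at hr
  have hn : ∀ s : ℂ, σ ≤ s.re → s.re ≤ κ → |s.im| ≤ T →
      ‖H s‖ ≤ Real.exp (s.re * L) * B * ‖g s‖ := by
    intro s h1 h2 h3
    simp only [hH, norm_mul, norm_E]
    have := hFB s h1 (h2.trans hκ) h3
    calc _ ≤ Real.exp (s.re * L) * ‖g s‖ * B := by gcongr
      _ = _ := by ring
  have hor : ∀ y : ℝ, |y| = T → ‖∫ x in σ..κ, H (x + y * I)‖ ≤
      3 / 2 * (Real.exp (κ * L) * B / T) := by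
    intro y hy
    have h1 : ∀ x ∈ Set.uIoc σ κ, ‖H (x + y * I)‖ ≤ Real.exp (κ * L) * B / T := by
      intro x hx
      rw [Set.uIoc_of_le hσκ] at hx
      have h2 := hn (x + y * I) (by simpa using hx.1.le) (by simpa using hx.2)
        (by simpa using hy.le)
      have h3 := norm_g_im (s := x + y * I) (by simp; linarith [hx.1]) hT0 (by simpa using hy.ge)
      simp only [add_im, ofReal_im, mul_im, ofReal_re, I_im, mul_one, I_re, mul_zero, add_zero,
        zero_add, add_re, mul_re, sub_self] at h2 h3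
      rw [← sq_abs, hy] at h3
      have h4 : (T ^ 2)⁻¹ ≤ T⁻¹ := inv_anti₀ hT0 (by nlinarith)
      have h5 : Real.exp (x * L) ≤ Real.exp (κ * L) :=
        Real.exp_le_exp.2 (mul_le_mul_of_nonneg_right hx.2 hL)
      rw [div_eq_mul_inv]
      refine h2.trans ?_
      gcongr
      exact h3.trans h4
    refine (intervalIntegral.norm_integral_le_of_norm_le_const h1).trans ?_
    rw [mul_comm, abs_of_nonneg (by linarith)]
    exact mul_le_mul_of_nonneg_right (by linarith) (by positivity)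
  have hleft : ‖∫ t in (-T)..T, H (σ + t * I)‖ ≤ Real.exp (σ * L) * B * (4 * Real.pi) := by
    rw [intervalIntegral.integral_of_le (by linarith)]
    have hi : Integrable fun t : ℝ => Real.exp (σ * L) * B * 4 * (1 + t ^ 2)⁻¹ :=
      integrable_inv_one_add_sq.const_mul _
    refine (norm_set_le measurableSet_Ioc hi (fun t => by positivity) fun t ht => ?_).trans
      (le_of_eq ?_)
    · have h2 := hn (σ + t * I) (by simp) (by simpa using hσκ)
        (by simpa using abs_le.2 ⟨ht.1.le, ht.2⟩)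
      simp only [ofReal_im, ofReal_re, I_im, mul_one, I_re, mul_zero, add_zero,
        add_re, mul_re, sub_self] at h2
      refine h2.trans ?_
      rw [mul_assoc _ (4 : ℝ)]
      exact mul_le_mul_of_nonneg_left (norm_g_half hσ t) (by positivity)
    · rw [integral_const_mul, integral_univ_inv_one_add_sq]; ring
  have h1 := hor (-T) (by rw [abs_neg, abs_of_pos hT0])
  have h2 := hor T (abs_of_pos hT0)
  have e : I • ∫ t in (-T)..T, H (κ + t * I) = I • (∫ t in (-T)..T, H (σ + t * I)) +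
      (∫ x in σ..κ, H (x + T * I)) - ∫ x in σ..κ, H (x + (-T : ℝ) * I) := by
    linear_combination hr
  have e2 : ‖∫ t in (-T)..T, H (κ + t * I)‖ = ‖I • ∫ t in (-T)..T, H (κ + t * I)‖ := by
    rw [norm_smul, norm_I, one_mul]
  change ‖∫ t in (-T)..T, H (κ + t * I)‖ ≤ _
  rw [e2, e]
  refine (norm_sub_le _ _).trans ((add_le_add (norm_add_le _ _) le_rfl).trans ?_)
  rw [norm_smul, norm_I, one_mul]
  linarith

theorem one_le_log {Z : ℝ} (hZ : 3 ≤ Z) : 1 ≤ Real.log Z := by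
  rw [Real.le_log_iff_exp_le (by linarith)]
  exact (Real.exp_one_lt_three).le.trans hZ

theorem riesz (a : ℕ → ℂ) (F : ℂ → ℂ) (ρ T B Z : ℝ) (N : ℕ)
    (ha : ∀ n, 1 ≤ n → ‖a n‖ ≤ Real.log n + 1) (hρ0 : 0 < ρ) (hρ : ρ ≤ 1 / 2) (hT : 1 ≤ T)
    (hB : 0 ≤ B) (hZ : 3 ≤ Z) (hN : Z < N + 1)
    (hF : DifferentiableOn ℂ F {s | 1 - ρ ≤ s.re ∧ s.re ≤ 2 ∧ |s.im| ≤ T})
    (hFL : ∀ s : ℂ, 1 < s.re → F s = LSeries a s)
    (hFB : ∀ s : ℂ, 1 - ρ ≤ s.re → s.re ≤ 2 → |s.im| ≤ T → ‖F s‖ ≤ B) :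
    ‖∑ n ∈ Icc 1 N, a n * f0 (n / Z)‖ ≤
      50 * Z * ((1 + B) * (Z ^ (-ρ) + 1 / T)) * Real.log Z ^ 2 := by
  have hZ0 : 0 < Z := by linarith
  have hT0 : 0 < T := by linarith
  have hL := one_le_log hZ
  set L := Real.log Z with hLd
  have hL0 : 0 < L := by linarith
  have hLi : 0 < 1 / L := by positivity
  have hLi' : 1 / L ≤ 1 := by rw [div_le_one hL0]; exact hL
  set κ : ℝ := 1 + 1 / L with hκ
  have hM := sum_term_le a ha hL
  have hs : Summable fun n => ‖LSeries.term a (κ : ℂ) n‖ :=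
    summable_of_sum_range_le (fun _ => norm_nonneg _) hM
  have hEκ : Real.exp (κ * L) ≤ 3 * Z := by
    have : κ * L = 1 + L := by rw [hκ]; field_simp; ring
    rw [this, Real.exp_add, hLd, Real.exp_log hZ0]
    exact mul_le_mul_of_nonneg_right Real.exp_one_lt_three.le hZ0.le
  have hEσ : Real.exp ((1 - ρ) * L) = Z * Z ^ (-ρ) := by
    rw [Real.rpow_def_of_pos hZ0, ← hLd, show (1 - ρ) * L = L + L * -ρ by ring, Real.exp_add,
      hLd, Real.exp_log hZ0]
  have hb : ∀ t : ℝ, ‖cexp ((κ + t * I) * L) * g (κ + t * I) * LSeries a (κ + t * I)‖ ≤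
      3 * Z * (16 * L ^ 2) * ‖g (κ + t * I)‖ := by
    intro t
    simp only [norm_mul, norm_E]
    simp only [add_re, ofReal_re, mul_re, I_re, mul_zero, ofReal_im, I_im, mul_one, sub_self,
      add_zero]
    have := norm_L_le a κ _ hM t
    calc _ ≤ 3 * Z * ‖g (κ + t * I)‖ * (16 * L ^ 2) := by gcongr
      _ = _ := by ring
  have hκ2 : 1 / 2 ≤ κ := by linarith
  have hint : Integrable fun t : ℝ =>
      cexp ((κ + t * I) * L) * g (κ + t * I) * LSeries a (κ + t * I) :=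
    Integrable.mono' ((integrable_g hκ2).norm.const_mul _)
      (((by fun_prop : Continuous fun t : ℝ => cexp ((κ + t * I) * L)).mul
        (continuous_g (by linarith))).mul (continuous_L a κ hs)).aestronglyMeasurable
      (Filter.Eventually.of_forall hb)
  have h1 := tail_le (by linarith) hT0 (by positivity) hint hb
  have h2 := shift (F := F) (κ := κ) hL0.le (by linarith) (by linarith) (by linarith) hT hB hF hFB
  have h3 : ∀ t : ℝ, F (κ + t * I) = LSeries a (κ + t * I) := fun t =>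
    hFL _ (by simp only [add_re, ofReal_re, mul_re, I_re, mul_zero, ofReal_im, I_im, mul_one,
      sub_self, add_zero]; linarith)
  simp only [h3] at h2
  rw [hEσ] at h2
  rw [perron a κ Z N hκ2 hZ0 hN hs, norm_smul, Real.norm_eq_abs,
    abs_of_pos (by positivity), ← hLd, one_div, inv_mul_le_iff₀ (by positivity)]
  refine (h1.trans (add_le_add h2 le_rfl)).trans ?_
  have hpi := Real.pi_gt_three
  have hu : 0 < Z ^ (-ρ) := by positivity
  set u := Z ^ (-ρ)
  set v := 1 / T with hv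
  have hv0 : 0 < v := by positivity
  have hL2 : 1 ≤ L ^ 2 := one_le_pow₀ hL
  have k1 : Real.exp (κ * L) * B / T ≤ 3 * Z * B * v := by
    rw [hv, mul_one_div]; gcongr
  have k2 : 3 * Z * (16 * L ^ 2) * (2 * Real.pi / T) = Real.pi * Z * (96 * v * L ^ 2) := by
    rw [hv]; ring
  have k3 : 3 * Z * B * v ≤ Real.pi * Z * (B * v * L ^ 2) := by
    calc 3 * Z * B * v = 3 * Z * (B * v * 1) := by ring
      _ ≤ _ := by gcongr
  have k4 : Z * u * B * (4 * Real.pi) ≤ Real.pi * Z * (4 * u * B * L ^ 2) := by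
    calc _ = Real.pi * Z * (4 * u * B * 1) := by ring
      _ ≤ _ := by gcongr
  have k5 : 4 * u * B * L ^ 2 + 3 * (B * v * L ^ 2) + 96 * v * L ^ 2 ≤
      100 * ((1 + B) * (u + v)) * L ^ 2 := by
    have : 4 * u * B + 3 * (B * v) + 96 * v ≤ 100 * ((1 + B) * (u + v)) := by
      nlinarith [mul_nonneg hu.le hB, mul_nonneg hv0.le hB]
    nlinarith
  have k6 := mul_le_mul_of_nonneg_left k5 (by positivity : 0 ≤ Real.pi * Z)
  rw [k2]
  nlinarith

end TauberP

open TauberP in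
theorem tauber : S_Tauber := by
  refine ⟨850, by norm_num, ?_⟩
  intro a F ρ T B δ X ha hρ0 hρ hT hB hδ0 hδ hX hF hFL hFB
  have hX3 : (3 : ℝ) ≤ X := by exact_mod_cast hX
  have hX0 : (0 : ℝ) < X := by linarith
  have hT0 : 0 < T := by linarith
  set Y : ℝ := (1 + δ) * X with hY
  have hXY : (X : ℝ) ≤ Y := by rw [hY]; nlinarith
  have hY2 : Y ≤ 2 * X := by rw [hY]; nlinarith
  have hY0 : 0 < Y := by linarith
  set N := ⌊Y⌋₊ with hNd
  have hXN : X ≤ N := Nat.le_floor hXY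
  have hNY : (N : ℝ) ≤ Y := Nat.floor_le hY0.le
  have hYN : Y < N + 1 := Nat.lt_floor_add_one Y
  have h1 := riesz a F ρ T B X N ha hρ0 hρ hT hB hX3 (by linarith) hF hFL hFB
  have h2 := riesz a F ρ T B Y N ha hρ0 hρ hT hB (by linarith) hYN hF hFL hFB
  have hL := one_le_log hX3
  set L := Real.log X with hLd
  have hLY : Real.log Y ≤ 2 * L := by
    rw [hLd, ← Real.log_rpow hX0]
    refine Real.log_le_log hY0 ?_
    rw [Real.rpow_two]; nlinarith
  have hLY0 : 0 ≤ Real.log Y := Real.log_nonneg (by linarith)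
  set E : ℝ := (1 + B) * ((X : ℝ) ^ (-ρ) + 1 / T) with hE
  have hE0 : 0 ≤ E := by positivity
  have h3 : ‖∑ n ∈ Icc 1 N, a n * f0 (n / Y)‖ ≤ 400 * X * E * L ^ 2 := by
    refine h2.trans ?_
    have : Y ^ (-ρ) ≤ (X : ℝ) ^ (-ρ) := Real.rpow_le_rpow_of_nonpos hX0 hXY (by linarith)
    calc _ ≤ 50 * (2 * X) * E * (2 * L) ^ 2 := by rw [hE]; gcongr
      _ = _ := by ring
  have hsplit : Icc 1 N = Icc 1 X ∪ Ioc X N := by
    ext n; simp only [mem_Icc, mem_union, mem_Ioc]; omega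
  have hdis : Disjoint (Icc 1 X) (Ioc X N) := by
    rw [disjoint_left]; intro n; simp only [mem_Icc, mem_Ioc]; omega
  have hid : ((δ * X : ℝ) : ℂ) * ∑ n ∈ Icc 1 X, a n =
      (Y : ℂ) * ∑ n ∈ Icc 1 N, a n * f0 (n / Y) - ((X : ℝ) : ℂ) * ∑ n ∈ Icc 1 N, a n * f0 (n / X) -
        ∑ n ∈ Ioc X N, a n * ((Y - n : ℝ) : ℂ) := by
    rw [mul_sum, mul_sum, mul_sum, ← sum_sub_distrib, hsplit, sum_union hdis, add_sub_assoc,
      ← sum_sub_distrib]
    have e1 : ∀ n : ℕ, ∀ Z : ℝ, 0 < Z → (n : ℝ) ≤ Z →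
        (Z : ℂ) * (a n * f0 (n / Z)) = a n * ((Z - n : ℝ) : ℂ) := by
      intro n Z hZ hn
      have : (n : ℝ) / Z ≤ 1 := by rw [div_le_one hZ]; exact hn
      rw [f0, max_eq_left (by linarith), mul_left_comm, ← ofReal_mul]
      congr 2; field_simp
    rw [sum_eq_zero (s := Ioc X N), add_zero]
    · refine sum_congr rfl fun n hn => ?_
      have hn' : (n : ℝ) ≤ X := by exact_mod_cast (mem_Icc.1 hn).2
      rw [e1 n Y hY0 (by linarith), e1 n X hX0 hn', hY]
      push_cast; ring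
    · intro n hn
      have hn1 : (X : ℝ) ≤ n := by exact_mod_cast (mem_Ioc.1 hn).1.le
      have hn2 : (n : ℝ) ≤ N := by exact_mod_cast (mem_Ioc.1 hn).2
      have : 1 ≤ (n : ℝ) / X := by rw [le_div_iff₀ hX0]; linarith
      rw [e1 n Y hY0 (by linarith), f0, max_eq_right (by linarith)]
      simp
  have h4 : ‖∑ n ∈ Ioc X N, a n * ((Y - n : ℝ) : ℂ)‖ ≤ δ * X * (3 * L * (δ * X)) := by
    refine (norm_sum_le _ _).trans ?_
    refine (sum_le_card_nsmul _ _ (3 * L * (δ * X)) fun n hn => ?_).trans ?_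
    · have hn1 : (X : ℝ) ≤ n := by exact_mod_cast (mem_Ioc.1 hn).1.le
      have hn2 : (n : ℝ) ≤ N := by exact_mod_cast (mem_Ioc.1 hn).2
      have h5 := ha n (by have := (mem_Ioc.1 hn).1; omega)
      have h6 : Real.log n ≤ Real.log Y := Real.log_le_log (by linarith) (by linarith)
      rw [norm_mul, norm_real, Real.norm_eq_abs, abs_of_nonneg (by linarith)]
      refine mul_le_mul (by linarith) ?_ (by linarith) (by positivity)
      rw [hY]; linarith
    · rw [nsmul_eq_mul, Nat.card_Ioc, Nat.cast_sub hXN]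
      refine mul_le_mul_of_nonneg_right ?_ (by positivity)
      rw [hY] at hNY; linarith
  have hδX : 0 < δ * X := by positivity
  have h5 : δ * X * ‖∑ n ∈ Icc 1 X, a n‖ ≤
      850 * X ^ 2 * E * L ^ 2 + δ * X * (3 * L * (δ * X)) := by
    have : δ * X * ‖∑ n ∈ Icc 1 X, a n‖ = ‖((δ * X : ℝ) : ℂ) * ∑ n ∈ Icc 1 X, a n‖ := by
      rw [norm_mul, norm_real, Real.norm_eq_abs, abs_of_pos hδX]
    rw [this, hid]
    refine (norm_sub_le _ _).trans (add_le_add ((norm_sub_le _ _).trans ?_) h4)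
    rw [norm_mul, norm_mul, norm_real, norm_real, Real.norm_eq_abs, Real.norm_eq_abs,
      abs_of_pos hY0, abs_of_pos hX0]
    calc _ ≤ 2 * X * (400 * X * E * L ^ 2) + X * (50 * X * E * L ^ 2) := by gcongr
      _ = _ := by ring
  refine le_of_mul_le_mul_left (h5.trans ?_) hδX
  have e : δ * X * (850 * (X * (δ + E / δ) + 1) * L ^ 2) =
      850 * X ^ 2 * E * L ^ 2 + δ * X * (850 * L ^ 2 * (δ * X) + 850 * L ^ 2) := by
    field_simp; ring
  rw [e]
  refine add_le_add le_rfl (mul_le_mul_of_nonneg_left ?_ hδX.le)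
  have : 3 * L ≤ 850 * L ^ 2 := by nlinarith
  have := mul_le_mul_of_nonneg_right this hδX.le
  nlinarith

end Pool.Agent.P.MP_0ad054_nt.An
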