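import Pool.Agent.P.MP_0ad054_nt.An.BVA

/-! The Bombieri-Vinogradov theorem with level `X ^ θ`, `θ < 1 / 2`. -/

namespace Pool.Agent.P.MP_0ad054_nt.An

open Finset Complex DirichletCharacter
open scoped ArithmeticFunction.vonMangoldt ArithmeticFunction.Moebius

namespace BVP

theorem half_le_log {X : ℕ} (hX : 2 ≤ X) : 0.69 ≤ Real.log X := by
  have h3 := (Real.log_two_gt_d9.le.trans_eq (by simp)).trans (log_mono hX)
  linarith

theorem natLog_le {X : ℕ} (hX : 2 ≤ X) : ((Nat.log 2 X + 1 : ℕ) : ℝ) ≤ 3 * Real.log X := by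
  have h1 := log_mono (Nat.pow_log_le_self 2 (show X ≠ 0 by omega))
  rw [Nat.cast_pow, Real.log_pow] at h1
  have h2 := half_le_log hX
  have h3 := Real.log_two_gt_d9
  have h4 : (0 : ℝ) ≤ Nat.log 2 X := Nat.cast_nonneg _
  push_cast at h1 ⊢
  nlinarith

theorem typeII {C : ℝ} (C0 : 0 ≤ C)
    (hL : ∀ (R X : ℕ) (a : ℕ → ℂ), ∑ q ∈ Icc 1 R, (q : ℝ) / q.totient *
      ∑ χ ∈ prim q, ‖tw X a χ‖ ^ 2 ≤
      C * (X + (R : ℝ) ^ 2) * (1 + Real.log R) * ∑ n ∈ Icc 1 X, ‖a n‖ ^ 2)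
    {b : ℕ → ℝ} (hb : ∀ l, |b l| ≤ Real.log l) {X U R K : ℕ} (hX : 2 ≤ X) (hU : 1 ≤ U) (hR : 1 ≤ R)
    (hK : K ≤ X) {D : ℝ} (D0 : 0 ≤ D) (h1 : X ≤ R * D) (h2 : (X : ℝ) ^ 2 ≤ U * D ^ 2)
    (h3 : (K : ℝ) ^ 2 * X ≤ D ^ 2) :
    ∑ r ∈ Ioc R K, 1 / (r.totient : ℝ) * ∑ χ ∈ prim r,
      ‖∑ k ∈ Ioc U X, (μ k : ℂ) * ∑ l ∈ Ioc U (X / k), (b l : ℂ) * χ (k * l : ℕ)‖ ≤
      9216 * C * Real.log X ^ 5 * D := by
  have l0 := Real.log_natCast_nonneg X
  set J := Nat.log 2 X + 1 with hJ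
  have hXJ : ∀ a, 1 ≤ a → X ≤ a * 2 ^ J := fun a ha =>
    (Nat.lt_pow_succ_log_self one_lt_two X).le.trans (Nat.le_mul_of_pos_left _ ha)
  set g : ℕ → ℝ := fun r => 1 / (r.totient : ℝ) * ∑ χ ∈ prim r,
      ‖∑ k ∈ Ioc U X, (μ k : ℂ) * ∑ l ∈ Ioc U (X / k), (b l : ℂ) * χ (k * l : ℕ)‖ with hg
  have g0 : ∀ r, 0 ≤ g r := fun r => by positivity
  have e1 : Ioc R K = (Ioc R (R * 2 ^ J)).filter fun r => r ≤ K := by
    have := hXJ R hR
    ext r; simp only [mem_Ioc, mem_filter]; omega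
  have key : ∀ i, ∑ r ∈ Ioc (R * 2 ^ i) (2 * (R * 2 ^ i)), (if r ≤ K then g r else 0) ≤
      J * (1024 * C * Real.log X ^ 3 * D) := fun i => by
    have hR' : R ≤ R * 2 ^ i := Nat.le_mul_of_pos_right _ (by positivity)
    set R' := R * 2 ^ i
    rcases le_or_gt K R' with h | h
    · refine le_trans (le_of_eq (sum_eq_zero fun r hr => if_neg ?_)) (by positivity)
      have := (mem_Ioc.1 hr).1
      omega
    have h4 : (R : ℝ) ≤ R' := by exact_mod_cast hR'
    have h5 : (R' : ℝ) ≤ K := by exact_mod_cast h.le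
    calc _ ≤ ∑ r ∈ Ioc R' (2 * R'), ∑ j ∈ range J, 1 / (r.totient : ℝ) * ∑ χ ∈ prim r,
          ‖∑ k ∈ Ioc (U * 2 ^ j) (2 * (U * 2 ^ j)), (μ k : ℂ) *
            ∑ l ∈ Ioc U (X / k), (b l : ℂ) * χ (k * l : ℕ)‖ := by
          refine sum_le_sum fun r _ => le_trans (b := g r) (by split_ifs; exacts [le_rfl, g0 r]) ?_
          rw [← mul_sum, sum_comm]
          simp only [hg]
          gcongr with χ
          rw [sum_subset (Ioc_subset_Ioc_right (hXJ U hU)) fun k h6 h7 => by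
            simp only [mem_Ioc] at h6 h7
            rw [Nat.div_eq_of_lt (by omega)]
            simp, sum_Ioc_dyadic]
          exact norm_sum_le _ _
      _ ≤ _ := by
          rw [sum_comm]
          refine (sum_le_card_nsmul _ _ _ fun j _ => typeII_block C0 hL hb hX hU (hR.trans hR')
            (h.le.trans hK) (Nat.le_mul_of_pos_right _ (by positivity)) D0 (h1.trans (by gcongr)) h2
            (le_trans (by gcongr) h3)).trans (by simp)
  rw [e1, sum_filter, sum_Ioc_dyadic]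
  refine (sum_le_card_nsmul _ _ _ fun i _ => key i).trans ?_
  rw [card_range, nsmul_eq_mul]
  calc _ ≤ 3 * Real.log X * (3 * Real.log X * (1024 * C * Real.log X ^ 3 * D)) := by
        gcongr <;> exact natLog_le hX
    _ = _ := by ring

theorem err {k : ℕ} (hk : k ≠ 0) (X : ℕ) :
    ∑ n ∈ (Icc 1 X).filter (fun n => ¬ n.Coprime k), Λ n ≤ Nat.log 2 X * Real.log k := by
  rw [← Real.log_pow, ← Nat.cast_pow, ← ArithmeticFunction.vonMangoldt_sum, ← sum_filter_ne_zero]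
  refine sum_le_sum_of_subset_of_nonneg (fun n hn => ?_) fun _ _ _ =>
    ArithmeticFunction.vonMangoldt_nonneg
  simp only [mem_filter, mem_Icc, ArithmeticFunction.vonMangoldt_ne_zero_iff,
    isPrimePow_nat_iff] at hn
  obtain ⟨⟨h1, h2⟩, p, j, hp, -, rfl⟩ := hn
  have h3 : p ∣ k := by
    by_contra h
    exact h2 (((Nat.Prime.coprime_iff_not_dvd hp).2 h).pow_left j)
  refine Nat.mem_divisors.2 ⟨pow_dvd_pow_of_dvd_of_le h3 ?_, pow_ne_zero _ hk⟩
  exact Nat.le_log_of_pow_le one_lt_two ((Nat.pow_le_pow_left hp.two_le j).trans h1.2)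

theorem tw_change {r k : ℕ} (h : r ∣ k) (hk : k ≠ 0) (χ : DirichletCharacter ℂ r) (X : ℕ) :
    ‖tw X (fun n => Λ n) (changeLevel h χ) - tw X (fun n => Λ n) χ‖ ≤ Nat.log 2 X * Real.log k := by
  refine le_trans ?_ (err hk X)
  rw [tw, tw, ← sum_sub_distrib, sum_filter]
  refine (norm_sum_le _ _).trans (sum_le_sum fun n _ => ?_)
  by_cases hn : n.Coprime k
  · have := changeLevel_eq_cast_of_dvd' χ h (Nat.isCoprime_iff_coprime.2 hn)
    simp only [Int.cast_natCast] at this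
    simp [hn, this]
  · rw [if_pos hn, MulChar.map_nonunit _ (mt (ZMod.isUnit_iff_coprime n k).1 hn), mul_zero, zero_sub,
      norm_neg, norm_mul, Complex.norm_real, Real.norm_of_nonneg ArithmeticFunction.vonMangoldt_nonneg]
    exact mul_le_of_le_one_right ArithmeticFunction.vonMangoldt_nonneg (χ.norm_le_one _)

/-- sums over primitive characters -/
noncomputable def PP (X r : ℕ) : ℝ :=
  if 2 ≤ r then ∑ χ ∈ prim r, ‖tw X (fun n => Λ n) χ‖ else 0

theorem PP_nonneg (X r : ℕ) : 0 ≤ PP X r := by unfold PP; split_ifs <;> positivity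

open Classical in
theorem sum_erase_le {k : ℕ} [NeZero k] (X : ℕ) :
    ∑ χ ∈ univ.erase (1 : DirichletCharacter ℂ k), ‖tw X (fun n => Λ n) χ‖ ≤
      ∑ r ∈ k.divisors, PP X r + k * (Nat.log 2 X * Real.log k) := by
  have E0 : 0 ≤ Nat.log 2 X * Real.log k := by positivity
  rw [← sum_fiberwise_of_maps_to (t := k.divisors) (g := conductor) fun χ _ =>
    Nat.mem_divisors.2 ⟨conductor_dvd_level χ, NeZero.ne k⟩]
  conv_rhs => rw [show (k : ℝ) * (Nat.log 2 X * Real.log k) =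
    ∑ r ∈ k.divisors, r.totient * (Nat.log 2 X * Real.log k) by
      rw [← sum_mul, ← Nat.cast_sum, Nat.sum_totient]]
  rw [← sum_add_distrib]
  refine sum_le_sum fun r hr => ?_
  have h := Nat.dvd_of_mem_divisors hr
  have r0 := Nat.pos_of_mem_divisors hr
  unfold PP
  split_ifs with h2
  · have h3 : (univ.erase (1 : DirichletCharacter ℂ k)).filter (fun χ => conductor χ = r) ⊆
        (prim r).image (changeLevel h) := fun χ hχ => by
      obtain rfl := (mem_filter.1 hχ).2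
      exact mem_image.2 ⟨χ.primitiveCharacter, mem_filter.2 ⟨mem_univ _,
        χ.primitiveCharacter_isPrimitive⟩, χ.changeLevel_primitiveCharacter⟩
    refine (sum_le_sum_of_subset_of_nonneg h3 fun _ _ _ => norm_nonneg _).trans
      ((sum_image_le_of_nonneg fun _ _ => norm_nonneg _).trans ((sum_le_sum fun χ _ =>
        (norm_le_norm_sub_add _ _).trans (add_le_add_left (tw_change h (NeZero.ne k) χ X) _)).trans ?_))
    rw [sum_add_distrib, add_comm, sum_const, nsmul_eq_mul]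
    gcongr
    exact card_prim_le r0.ne'
  · refine le_trans (le_of_eq (sum_eq_zero fun χ hχ => ?_)) (by positivity)
    rw [mem_filter, mem_erase, Ne, eq_one_iff_conductor_eq_one] at hχ
    omega

theorem ap {k : ℕ} (hk : k ≠ 0) {c : ℤ} (hc : IsCoprime c k) (X : ℕ) :
    |∑ n ∈ (Icc 1 X).filter (fun n : ℕ => (k : ℤ) ∣ n - c), Λ n - (X : ℝ) / k.totient| ≤
      1 / (k.totient : ℝ) * (∑ r ∈ k.divisors, PP X r + (k + 1) * (Nat.log 2 X * Real.log k) +
        |∑ n ∈ Icc 1 X, Λ n - X|) := by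
  classical
  have : NeZero k := ⟨hk⟩
  have hφ : (0 : ℝ) < k.totient := by exact_mod_cast Nat.totient_pos.2 (NeZero.pos k)
  have hu : IsUnit (c : ZMod k) := (ZMod.coe_int_isUnit_iff_isCoprime c k).2 hc.symm
  have h1 : ((k.totient * ∑ n ∈ (Icc 1 X).filter (fun n : ℕ => (k : ℤ) ∣ n - c), Λ n : ℝ) : ℂ) =
      ∑ χ : DirichletCharacter ℂ k, χ (c : ZMod k)⁻¹ * tw X (fun n => Λ n) χ := by
    simp only [tw, mul_sum, sum_filter, ofReal_sum]
    rw [sum_comm]
    refine sum_congr rfl fun n _ => ?_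
    simp only [mul_left_comm _ (Λ n : ℂ), ← mul_sum, sum_char_inv_mul_char_eq ℂ hu,
      ← ZMod.intCast_eq_intCast_iff_dvd_sub, Int.cast_natCast]
    split_ifs <;> simp [mul_comm]
  have h2 := tw_change (one_dvd k) hk 1 X
  have h3 : tw X (fun n => Λ n) (1 : DirichletCharacter ℂ 1) = (∑ n ∈ Icc 1 X, Λ n : ℝ) := by
    simp [tw, MulChar.one_apply (isUnit_of_subsingleton _)]
  rw [changeLevel_one, h3] at h2
  rw [← add_sum_erase _ _ (mem_univ 1), MulChar.one_apply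
    (IsUnit.of_mul_eq_one _ (ZMod.inv_mul_of_unit _ hu)), one_mul] at h1
  have h4 : ‖∑ χ ∈ univ.erase (1 : DirichletCharacter ℂ k), χ (c : ZMod k)⁻¹ *
      tw X (fun n => Λ n) χ‖ ≤ _ := (norm_sum_le _ _).trans ((sum_le_sum fun χ _ => (norm_mul_le _ _).trans
        (mul_le_of_le_one_left (norm_nonneg _) (χ.norm_le_one _))).trans (sum_erase_le X))
  rw [one_div, le_inv_mul_iff₀ hφ, ← abs_of_pos hφ, ← abs_mul, abs_of_pos hφ, mul_sub,
    mul_div_cancel₀ _ hφ.ne', ← Real.norm_eq_abs, ← Complex.norm_real, ofReal_sub, h1,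
    ← Real.norm_eq_abs, ← Complex.norm_real, ofReal_sub]
  refine le_trans (le_of_eq ?_) ((norm_add₃_le.trans (add_le_add_left (add_le_add h4 h2) _)).trans_eq
    (by ring))
  congr 1
  ring

theorem sum_inv_totient (K : ℕ) : ∑ m ∈ Icc 1 K, 1 / (m.totient : ℝ) ≤ (1 + Real.log K) ^ 2 := by
  refine le_trans (sum_le_sum fun m hm => ?_) (by simpa using sum_tau_pow_div_le 1 K)
  have m0 : 0 < m := (mem_Icc.1 hm).1
  have hφ := Nat.totient_pos.2 m0
  rw [div_le_div_iff₀ (by exact_mod_cast hφ) (by exact_mod_cast m0), one_mul, tau]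
  have := sum_le_card_nsmul m.divisors Nat.totient m.totient fun d hd =>
    Nat.le_of_dvd hφ (Nat.totient_dvd_of_dvd (Nat.dvd_of_mem_divisors hd))
  rw [Nat.sum_totient] at this
  exact_mod_cast this

theorem sum_div_le (K : ℕ) (P : ℕ → ℝ) (hP : ∀ r, 0 ≤ P r) :
    ∑ k ∈ Icc 1 K, 1 / (k.totient : ℝ) * ∑ r ∈ k.divisors, P r ≤
      (1 + Real.log K) ^ 2 * ∑ r ∈ Icc 1 K, 1 / (r.totient : ℝ) * P r := by
  refine le_trans (sum_le_sum fun k _ => ?_) ((sum_divisors_split K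
    (fun a b => 1 / (b.totient : ℝ) * (1 / (a.totient : ℝ) * P a))
    fun a b => by have := hP a; positivity).trans ?_)
  · rw [mul_sum]
    refine sum_le_sum fun r hr => ?_
    have h1 := Nat.totient_super_multiplicative (k / r) r
    rw [Nat.div_mul_cancel (Nat.dvd_of_mem_divisors hr)] at h1
    have h2 := Nat.totient_pos.2 (Nat.pos_of_mem_divisors hr)
    have h3 := Nat.totient_pos.2 (Nat.div_pos (Nat.divisor_le hr) (Nat.pos_of_mem_divisors hr))
    rw [← mul_assoc, div_mul_div_comm, one_mul]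
    have := hP r
    gcongr
    exact_mod_cast h1
  · rw [mul_sum]
    refine sum_le_sum fun r _ => ?_
    rw [← sum_mul]
    have := hP r
    gcongr
    exact sum_inv_totient K

theorem log_pow_le {η : ℝ} (hη : 0 < η) (B : ℕ) :
    ∃ c : ℝ, 0 < c ∧ ∀ x : ℝ, 1 ≤ x → Real.log x ^ B ≤ c * x ^ η := by
  refine ⟨((B + 1) / η) ^ B, by positivity, fun x hx => ?_⟩
  have h1 := Real.log_le_rpow_div (show 0 ≤ x by linarith) (show 0 < η / (B + 1) by positivity)
  calc _ ≤ (x ^ (η / (B + 1)) / (η / (B + 1))) ^ B := by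
        gcongr; exact Real.log_nonneg hx
    _ = ((B + 1) / η) ^ B * x ^ (η / (B + 1) * B) := by
        rw [Real.rpow_mul_natCast (by linarith), ← mul_pow]
        congr 1
        field_simp
    _ ≤ _ := by
        gcongr
        rw [div_mul_eq_mul_div, div_le_iff₀ (by positivity)]
        nlinarith

end BVP

open BVP in
theorem bv (hV : S_Vaughan) (hL : S_LS) (hS : S_SW) (hP : S_PNT) : S_BV := by
  intro θ A hθ
  obtain ⟨CL, CL0, hL⟩ := hL
  obtain ⟨CS, CS0, hS⟩ := hS (2 * (A + 7)) (A + 7)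
  obtain ⟨CP, CP0, hP⟩ := hP (A + 7)
  obtain ⟨c, c0, hc⟩ := log_pow_le (η := (1 / 2 - θ) / 4) (by linarith) (A + 7)
  refine ⟨9 * (32 * (CS + CP) + (112 + 9216 * CL) * (2 * c + 2)), by positivity,
    fun X K a hX hK ha => ?_⟩
  have hl := half_le_log hX
  have X1 : (1 : ℝ) ≤ X := by exact_mod_cast one_le_two.trans hX
  set l := Real.log X with hl'
  have l0 : 0 < l := by linarith
  have l1 : 1 ≤ 2 * l := by linarith
  have l2 : 1 ≤ 32 * l ^ 5 := (one_le_pow₀ (n := 5) l1).trans_eq (by ring)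
  have l3 : l ≤ 16 * l ^ 5 := by nlinarith [one_le_pow₀ (n := 4) l1]
  have l4 : l ^ 2 ≤ 8 * l ^ 5 := by nlinarith [one_le_pow₀ (n := 3) l1, pow_pos l0 2]
  rcases Nat.eq_zero_or_pos K with rfl | K0
  · simp only [Icc_eq_empty_of_lt one_pos, sum_empty]
    positivity
  have K1 : (1 : ℝ) ≤ K := by exact_mod_cast K0
  set y : ℝ := (X : ℝ) ^ ((1 / 2 - θ) / 4) with hy
  have y1 : 1 ≤ y := Real.one_le_rpow X1 (by linarith)
  have y2 : (K : ℝ) ^ 2 * y ^ 8 ≤ X := by
    calc _ ≤ ((X : ℝ) ^ θ) ^ 2 * y ^ 8 := by gcongr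
      _ = _ := by
        rw [hy, ← Real.rpow_mul_natCast (by linarith), ← Real.rpow_mul_natCast (by linarith),
          ← Real.rpow_add (by linarith)]
        convert Real.rpow_one _ using 2
        push_cast
        ring
  set U := ⌊y ^ 2⌋₊ with hU
  have y3 : 1 ≤ y ^ 2 := one_le_pow₀ y1
  have U1 : 1 ≤ U := Nat.le_floor (by simpa using y3)
  have U1' : (1 : ℝ) ≤ U := by exact_mod_cast U1
  have U2 : (U : ℝ) ≤ y ^ 2 := Nat.floor_le (by positivity)
  have U3 : y ^ 2 ≤ 2 * U := by linarith [Nat.lt_floor_add_one (y ^ 2)]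
  set Z : ℝ := X / l ^ (A + 7) with hZ
  have Z0 : 0 < Z := by positivity
  have hZ' : Z * l ^ (A + 7) = X := div_mul_cancel₀ _ (by positivity)
  set D := (2 * c + 2) * Z with hD
  have D0 : 0 < D := by positivity
  have D1 : 2 * X ≤ D * y := by
    have := mul_le_mul_of_nonneg_left (hc X X1) Z0.le
    rw [hZ'] at this
    rw [hD]
    linarith [mul_pos Z0 (one_pos.trans_le y1)]
  have D2 : 4 * (X : ℝ) ^ 2 ≤ D ^ 2 * y ^ 2 := by
    linarith [pow_le_pow_left₀ (by positivity) D1 2]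
  have y4 : y ^ 2 ≤ y ^ 8 := pow_le_pow_right₀ y1 (by norm_num)
  have y5 : y ^ 5 ≤ y ^ 8 := pow_le_pow_right₀ y1 (by norm_num)
  have K2 : 1 ≤ (K : ℝ) ^ 2 := one_le_pow₀ K1
  have D3 : (K : ℝ) ^ 2 * U ^ 2 ≤ D := by
    refine le_of_mul_le_mul_right (le_trans ?_ D1) (one_pos.trans_le y1)
    calc _ ≤ (K : ℝ) ^ 2 * (y ^ 2) ^ 2 * y := by gcongr
      _ = K ^ 2 * y ^ 5 := by ring
      _ ≤ K ^ 2 * y ^ 8 := by gcongr
      _ ≤ _ := by linarith
  have D4 : (K : ℝ) ^ 2 * X ≤ D ^ 2 := by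
    refine le_of_mul_le_mul_right (le_trans ?_ D2) (one_pos.trans_le y3)
    calc _ = (K : ℝ) ^ 2 * y ^ 2 * X := by ring
      _ ≤ K ^ 2 * y ^ 8 * X := by gcongr
      _ ≤ X * X := by gcongr
      _ ≤ _ := by linarith [sq_nonneg (X : ℝ)]
  have D5 : (X : ℝ) ^ 2 ≤ U * D ^ 2 := by
    linarith [mul_le_mul_of_nonneg_left U3 (sq_nonneg D), sq_nonneg (X : ℝ)]
  have KX : K ≤ X := by
    have : (K : ℝ) ≤ X := (le_self_pow₀ K1 two_ne_zero).trans
      ((le_mul_of_one_le_right (by positivity) (one_le_pow₀ y1)).trans y2)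
    exact_mod_cast this
  have UX : U * U ≤ X := by
    have : (U : ℝ) * U ≤ X := by
      calc _ ≤ y ^ 2 * y ^ 2 := by gcongr
        _ = 1 * y ^ 4 := by ring
        _ ≤ K ^ 2 * y ^ 8 := by gcongr; norm_num
        _ ≤ _ := y2
    exact_mod_cast this
  set F := ⌊l ^ (A + 7)⌋₊ with hF
  have F1 : (F : ℝ) ≤ l ^ (A + 7) := Nat.floor_le (by positivity)
  have F2 : (X : ℝ) ≤ (max 1 F : ℕ) * D := by
    have h1 : (1 : ℝ) ≤ (max 1 F : ℕ) := by exact_mod_cast le_max_left _ _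
    have h2 : (F : ℝ) ≤ (max 1 F : ℕ) := by exact_mod_cast le_max_right _ _
    have h3 := Nat.lt_floor_add_one (l ^ (A + 7))
    have h4 : l ^ (A + 7) ≤ 2 * (max 1 F : ℕ) := by linarith
    calc _ = Z * l ^ (A + 7) := hZ'.symm
      _ ≤ Z * (2 * (max 1 F : ℕ)) := by gcongr
      _ = (max 1 F : ℕ) * ((0 + 2) * Z) := by ring
      _ ≤ _ := by rw [hD]; gcongr; positivity
  obtain ⟨b, hb, hI⟩ := typeI hV U1
  have hII := typeII CL0.le hL hb hX U1 (le_max_left 1 F) KX D0.le F2 D5 D4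
  have h1 : ∑ r ∈ Icc 1 K, 1 / (r.totient : ℝ) * PP X r ≤ CS * Z + 4 * l * D + 9216 * CL * l ^ 5 * D := by
    set g : ℕ → ℝ := fun r => 1 / (r.totient : ℝ) * ∑ χ ∈ prim r,
      ‖∑ k ∈ Ioc U X, (μ k : ℂ) * ∑ l ∈ Ioc U (X / k), (b l : ℂ) * χ (k * l : ℕ)‖ with hg
    have g0 : ∀ r, 0 ≤ g r := fun r => by positivity
    have h2 : ∀ r ∈ Icc 1 K, 1 / (r.totient : ℝ) * PP X r ≤
        (if r ∈ Icc 1 F then CS * X / l ^ (2 * (A + 7)) else 0) + 4 * U ^ 2 * K * l +
          if r ∈ Ioc (max 1 F) K then g r else 0 := fun r hr => by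
      rw [mem_Icc] at hr
      have r0 : r ≠ 0 := by omega
      have : NeZero r := ⟨r0⟩
      have p1 : (0 : ℝ) ≤ 4 * U ^ 2 * K * l := by positivity
      have p2 : (0 : ℝ) ≤ if r ∈ Ioc (max 1 F) K then g r else 0 := by
        split_ifs; exacts [g0 r, le_rfl]
      unfold PP
      by_cases h2 : 2 ≤ r
      swap
      · rw [if_neg h2, mul_zero]
        positivity
      rw [if_pos h2]
      by_cases h3 : r ≤ F
      · rw [if_pos (mem_Icc.2 ⟨hr.1, h3⟩)]
        have := avg_le (f := fun χ => ‖tw X (fun n => Λ n) χ‖) r0 (by positivity) fun χ hχ =>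
          hS X r χ hX (le_trans (by exact_mod_cast h3) F1) (prim_ne_one h2 hχ)
        linarith
      · rw [if_neg fun h => h3 (mem_Icc.1 h).2, if_pos (mem_Ioc.2 ⟨by omega, hr.2⟩), zero_add]
        refine le_trans (mul_le_mul_of_nonneg_left (sum_le_sum fun χ hχ =>
          hI X r χ r0 (prim_ne_one h2 hχ) UX) (by positivity)) ?_
        rw [sum_add_distrib, mul_add]
        refine add_le_add (avg_le r0 p1 fun _ _ => ?_) le_rfl
        gcongr
        exact hr.2
    refine (sum_le_sum h2).trans ?_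
    rw [sum_add_distrib, sum_add_distrib, sum_ite_mem, sum_ite_mem]
    refine add_le_add (add_le_add ?_ ?_) ((sum_le_sum_of_subset_of_nonneg inter_subset_right
      fun _ _ _ => g0 _).trans hII)
    · refine (sum_le_sum_of_subset_of_nonneg inter_subset_right fun _ _ _ => by positivity).trans ?_
      rw [sum_const, Nat.card_Icc, Nat.add_sub_cancel, nsmul_eq_mul]
      refine (mul_le_mul_of_nonneg_right F1 (by positivity)).trans_eq ?_
      rw [hZ, two_mul, pow_add l (A + 7)]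
      field_simp
    · rw [sum_const, Nat.card_Icc, Nat.add_sub_cancel, nsmul_eq_mul]
      calc _ = 4 * l * (K ^ 2 * U ^ 2) := by ring
        _ ≤ _ := by gcongr
  have h2 : (1 + Real.log K) ^ 2 ≤ 9 * l ^ 2 := by
    have := log_mono KX
    calc _ ≤ (3 * l) ^ 2 := by gcongr; linarith
      _ = _ := by ring
  have h3 : ∀ k ∈ Icc 1 K, (k + 1) * (Nat.log 2 X * Real.log k) + |∑ n ∈ Icc 1 X, Λ n - X| ≤
      6 * l ^ 2 * D + CP * Z := fun k hk => by
    refine add_le_add ?_ ((hP X hX).trans_eq (by rw [hZ]; ring))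
    have h4 : (k : ℝ) ≤ K := by exact_mod_cast (mem_Icc.1 hk).2
    have h5 := natLog_le hX
    have h6 : (K : ℝ) ≤ D := (le_self_pow₀ K1 two_ne_zero).trans
      ((le_mul_of_one_le_right (by positivity) (one_le_pow₀ U1')).trans D3)
    push_cast at h5
    calc _ ≤ (2 * D) * (3 * l * l) := by
          gcongr
          · linarith
          · linarith
          · exact log_mono ((mem_Icc.1 hk).2.trans KX)
      _ = _ := by ring
  calc _ ≤ ∑ k ∈ Icc 1 K, (1 / (k.totient : ℝ) * ∑ r ∈ k.divisors, PP X r +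
        1 / (k.totient : ℝ) * (6 * l ^ 2 * D + CP * Z)) := by
        refine sum_le_sum fun k hk => (ap (by have := (mem_Icc.1 hk).1; omega) (ha k hk) X).trans ?_
        rw [← mul_add, add_assoc]
        exact mul_le_mul_of_nonneg_left (add_le_add le_rfl (h3 k hk)) (by positivity)
    _ ≤ 9 * l ^ 2 * (CS * Z + 4 * l * D + 9216 * CL * l ^ 5 * D) +
        9 * l ^ 2 * (6 * l ^ 2 * D + CP * Z) := by
        rw [sum_add_distrib, ← sum_mul]
        refine add_le_add ((sum_div_le K _ (PP_nonneg X)).trans (mul_le_mul h2 h1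
          (sum_nonneg fun r _ => mul_nonneg (by positivity) (PP_nonneg X r)) (by positivity))) ?_
        gcongr
        exact (sum_inv_totient K).trans h2
    _ = 9 * l ^ 2 * Z * ((CS + CP) * 1 + (4 * l + 6 * l ^ 2 + 9216 * CL * l ^ 5) * (2 * c + 2)) := by
        rw [hD]; ring
    _ ≤ 9 * l ^ 2 * Z * ((CS + CP) * (32 * l ^ 5) +
        (4 * (16 * l ^ 5) + 6 * (8 * l ^ 5) + 9216 * CL * l ^ 5) * (2 * c + 2)) := by gcongr
    _ = _ := by
        rw [hZ]
        field_simp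
        ring

end Pool.Agent.P.MP_0ad054_nt.An
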