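import Pool.Agent.P.MP_0ad054_nt.An.Defs

/-! The large sieve inequality, with a logarithmic loss. -/

namespace Pool.Agent.P.MP_0ad054_nt.An

open Finset Complex DirichletCharacter
open scoped ComplexConjugate

namespace LSP

theorem sum_natAbs_le (g : ℕ → ℝ) (hg : ∀ n, 0 ≤ g n) (Q : ℕ) :
    ∑ k ∈ Icc (-(Q : ℤ)) Q, g k.natAbs ≤ 2 * ∑ n ∈ range (Q + 1), g n := by
  have h1 : Icc (-(Q : ℤ)) Q ⊆ (range (Q + 1)).image (fun n : ℕ => (n : ℤ)) ∪
      (range (Q + 1)).image fun n : ℕ => -(n : ℤ) := by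
    intro k hk
    rw [mem_Icc] at hk
    simp only [mem_union, mem_image, mem_range]
    rcases le_total 0 k with h | h
    · exact Or.inl ⟨k.natAbs, by omega, by omega⟩
    · exact Or.inr ⟨k.natAbs, by omega, by omega⟩
  refine (sum_le_sum_of_subset_of_nonneg h1 fun _ _ _ => hg _).trans ?_
  rw [← union_sdiff_self_eq_union, sum_union disjoint_sdiff, two_mul]
  refine add_le_add ?_ ((sum_le_sum_of_subset_of_nonneg sdiff_subset fun _ _ _ => hg _).trans ?_)
  · exact (sum_image_le_of_nonneg fun _ _ => hg _).trans (by simp)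
  · exact (sum_image_le_of_nonneg fun _ _ => hg _).trans (by simp)

theorem spaced {ι : Type*} (T : Finset ι) (x : ι → ℝ) {Q : ℕ} (hQ : 0 < Q) {Y : ℝ} (hY : 0 ≤ Y)
    (h : ∀ s ∈ T, ∀ t ∈ T, s ≠ t → 1 / (Q : ℝ) ≤ dn (x s - x t)) (u : ℝ) :
    ∑ s ∈ T, mn Y (x s - u) ≤ 2 * (3 * Y + Q * (1 + Real.log Q)) := by
  classical
  have hQ' : (0 : ℝ) < Q := by exact_mod_cast hQ
  set y : ι → ℝ := fun s => x s - u - round (x s - u) with hy
  set φ : ι → ℤ := fun s => ⌊Q * y s⌋ with hφ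
  have hb : ∀ s, (φ s : ℝ) ≤ Q * y s ∧ Q * y s < φ s + 1 := fun s =>
    ⟨Int.floor_le _, Int.lt_floor_add_one _⟩
  have hinj : Set.InjOn φ T := fun s hs t ht e => by
    by_contra hc
    have h1 := (h s hs t ht hc).trans (dn_le _ (round (x s - u) - round (x t - u)))
    have h2 : x s - x t - ((round (x s - u) - round (x t - u) : ℤ) : ℝ) = y s - y t := by
      simp only [hy]; push_cast; ring
    rw [h2, div_le_iff₀ hQ'] at h1
    have h3 := hb s
    have h4 := hb t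
    rw [e] at h3
    rcases abs_cases (y s - y t) with h5 | h5 <;> rw [h5.1] at h1 <;> nlinarith
  have h1 : ∀ s ∈ T, mn Y (x s - u) ≤ gm Y Q (φ s).natAbs := fun s _ => by
    unfold gm
    split_ifs with h2
    · exact mn_le hY _
    · have h3 : (3 : ℝ) ≤ (φ s).natAbs := by exact_mod_cast not_le.1 h2
      have h4 : (((φ s).natAbs : ℕ) : ℝ) = |(φ s : ℝ)| := by
        rw [Nat.cast_natAbs, Int.cast_abs]
      have h5 := hb s
      refine (mn_le_of (d := (φ s).natAbs / (2 * Q)) hY (by positivity) ?_).trans (le_of_eq ?_)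
      · rw [div_le_iff₀ (by positivity)]
        change _ ≤ |y s| * _
        rw [h4] at h3 ⊢
        rcases abs_cases (y s) with h6 | h6 <;> rcases abs_cases (φ s : ℝ) with h7 | h7 <;>
          rw [h6.1, h7.1] <;> rw [h7.1] at h3 <;> nlinarith
      · field_simp
  have h2 : T.image φ ⊆ Icc (-(Q : ℤ)) Q := by
    intro k hk
    obtain ⟨s, -, rfl⟩ := mem_image.1 hk
    have h3 : |y s| ≤ 1 / 2 := abs_sub_round _
    rw [abs_le] at h3
    have h4 := hb s
    rw [mem_Icc]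
    constructor
    · refine Int.le_floor.2 ?_
      push_cast
      nlinarith
    · have : (φ s : ℝ) ≤ (Q : ℤ) := by push_cast; nlinarith
      exact_mod_cast this
  calc _ ≤ ∑ s ∈ T, gm Y Q (φ s).natAbs := sum_le_sum h1
    _ = ∑ k ∈ T.image φ, gm Y Q k.natAbs := (sum_image (f := fun k : ℤ => gm Y Q k.natAbs) hinj).symm
    _ ≤ ∑ k ∈ Icc (-(Q : ℤ)) Q, gm Y Q k.natAbs :=
        sum_le_sum_of_subset_of_nonneg h2 fun _ _ _ => gm_nonneg hY _ _
    _ ≤ _ := (sum_natAbs_le _ (gm_nonneg hY Q) Q).trans (by gcongr; exact sum_gm_le hY Q)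

theorem geom_Icc (x : ℝ) (X : ℕ) {Y : ℝ} (hY : (X : ℝ) ≤ Y) :
    ‖∑ n ∈ Icc 1 X, e (x * n)‖ ≤ mn Y x := by
  have := geom_Ico x 1 (X + 1) (Y := Y) (by simpa using hY)
  convert this using 2
  refine sum_nbij' (fun n : ℕ => (n : ℤ)) Int.toNat ?_ ?_ ?_ ?_ ?_ <;> simp <;> omega

theorem dual {ι : Type*} (T : Finset ι) (x : ι → ℝ) (X : ℕ) {V : ℝ}
    (hV : ∀ r ∈ T, ∑ s ∈ T, mn X (x s - x r) ≤ V) (G : ι → ℂ) :
    ∑ n ∈ Icc 1 X, ‖∑ r ∈ T, G r * e (x r * n)‖ ^ 2 ≤ V * ∑ r ∈ T, ‖G r‖ ^ 2 := by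
  have e2 : ((∑ n ∈ Icc 1 X, ‖∑ r ∈ T, G r * e (x r * n)‖ ^ 2 : ℝ) : ℂ) =
      ∑ r ∈ T, ∑ s ∈ T, G r * conj (G s) * ∑ n ∈ Icc 1 X, e ((x r - x s) * n) := by
    rw [ofReal_sum]
    simp only [normSq_eq, map_sum, sum_mul_sum]
    rw [sum_comm]
    refine sum_congr rfl fun r _ => ?_
    rw [sum_comm]
    refine sum_congr rfl fun s _ => ?_
    rw [mul_sum]
    refine sum_congr rfl fun n _ => ?_
    rw [sub_mul, e_sub, map_mul]
    ring
  have e3 := congrArg norm e2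
  rw [Complex.norm_real, Real.norm_of_nonneg (by positivity)] at e3
  rw [e3]
  have b1 : ∀ r ∈ T, ∀ s ∈ T, ‖G r * conj (G s) * ∑ n ∈ Icc 1 X, e ((x r - x s) * n)‖ ≤
      ‖G r‖ ^ 2 / 2 * mn X (x s - x r) + ‖G s‖ ^ 2 / 2 * mn X (x r - x s) := by
    intro r _ s _
    have g1 := geom_Icc (x r - x s) X le_rfl
    have g2 : mn X (x s - x r) = mn X (x r - x s) := by rw [← mn_neg, neg_sub]
    rw [g2, norm_mul, norm_mul, Complex.norm_conj]
    have g3 := mn_nonneg (Nat.cast_nonneg X) (x r - x s)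
    calc _ ≤ ‖G r‖ * ‖G s‖ * mn X (x r - x s) := by gcongr
      _ ≤ _ := by nlinarith [mul_nonneg g3 (sq_nonneg (‖G r‖ - ‖G s‖))]
  refine (norm_sum_le _ _).trans ((sum_le_sum fun j hj =>
    (norm_sum_le _ _).trans (sum_le_sum (b1 j hj))).trans ?_)
  simp only [sum_add_distrib]
  rw [sum_comm (f := fun r s => ‖G s‖ ^ 2 / 2 * mn X (x r - x s)), ← two_mul, mul_sum, mul_sum]
  refine sum_le_sum fun r hr => ?_
  rw [← mul_sum]
  nlinarith [hV r hr, sq_nonneg ‖G r‖]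

theorem additive {ι : Type*} (T : Finset ι) (x : ι → ℝ) (X : ℕ) {V : ℝ} (V0 : 0 ≤ V)
    (hV : ∀ r ∈ T, ∑ s ∈ T, mn X (x s - x r) ≤ V) (a : ℕ → ℂ) :
    ∑ r ∈ T, ‖∑ n ∈ Icc 1 X, a n * e (x r * n)‖ ^ 2 ≤ V * ∑ n ∈ Icc 1 X, ‖a n‖ ^ 2 := by
  set S : ι → ℂ := fun r => ∑ n ∈ Icc 1 X, a n * e (x r * n) with hS
  set W := ∑ r ∈ T, ‖S r‖ ^ 2 with hW
  have W0 : 0 ≤ W := by positivity
  have e1 : (W : ℂ) = ∑ n ∈ Icc 1 X, a n * ∑ r ∈ T, conj (S r) * e (x r * n) := by
    rw [hW, ofReal_sum]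
    simp only [normSq_eq, mul_sum]
    rw [sum_comm]
    refine sum_congr rfl fun r _ => ?_
    conv_lhs => rw [hS]
    simp only [sum_mul]
    exact sum_congr rfl fun n _ => by ring
  have h1 := cs_norm (Icc 1 X) a fun n => ∑ r ∈ T, conj (S r) * e (x r * n)
  have h2 := dual T x X hV fun r => conj (S r)
  simp only [Complex.norm_conj] at h2
  rw [← e1, Complex.norm_real, Real.norm_of_nonneg W0] at h1
  rw [← hW] at h2
  have A0 : 0 ≤ ∑ n ∈ Icc 1 X, ‖a n‖ ^ 2 := by positivity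
  rcases W0.eq_or_lt with h | h
  · rw [← h]; positivity
  · refine le_of_mul_le_mul_right ?_ h
    nlinarith [mul_le_mul_of_nonneg_left h2 A0]

theorem farey {R q a q' a' : ℕ} (hq : q ∈ Icc 1 R) (hq' : q' ∈ Icc 1 R) (ha : a < q) (ha' : a' < q')
    (hc : a.Coprime q) (hc' : a'.Coprime q') (hne : ¬ (q = q' ∧ a = a')) :
    1 / ((R ^ 2 : ℕ) : ℝ) ≤ dn ((a : ℝ) / q - a' / q') := by
  rw [mem_Icc] at hq hq'
  have q0 : (0 : ℝ) < q := by exact_mod_cast hq.1
  have q0' : (0 : ℝ) < q' := by exact_mod_cast hq'.1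
  unfold dn
  set k := round ((a : ℝ) / q - a' / q')
  have h1 : (a : ℤ) * q' - a' * q - k * q * q' ≠ 0 := fun h => by
    have d1 : q ∣ q' := hc.symm.dvd_of_dvd_mul_left (Int.natCast_dvd_natCast.1
      ⟨a' + k * q', by push_cast; linear_combination h⟩)
    have d2 : q' ∣ q := hc'.symm.dvd_of_dvd_mul_left (Int.natCast_dvd_natCast.1
      ⟨a - k * q, by push_cast; linear_combination -h⟩)
    obtain rfl := Nat.dvd_antisymm d1 d2
    have q1 : (0 : ℤ) < q := by exact_mod_cast hq.1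
    have h2 : (a : ℤ) - a' = k * q := mul_right_cancel₀ q1.ne' (by linear_combination h)
    have h3 : k = 0 := by
      by_contra hk
      rcases lt_or_gt_of_ne hk with h4 | h4 <;> nlinarith
    rw [h3] at h2
    exact hne ⟨rfl, by omega⟩
  have h2 : (1 : ℝ) ≤ |(((a : ℤ) * q' - a' * q - k * q * q' : ℤ) : ℝ)| := by
    exact_mod_cast Int.one_le_abs h1
  have h3 : (a : ℝ) / q - a' / q' - k = (((a : ℤ) * q' - a' * q - k * q * q' : ℤ) : ℝ) / (q * q') := by
    push_cast; field_simp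
  rw [h3, abs_div, abs_of_pos (mul_pos q0 q0')]
  have h4 : (q : ℝ) ≤ R := by exact_mod_cast hq.2
  have h5 : (q' : ℝ) ≤ R := by exact_mod_cast hq'.2
  refine div_le_div₀ (by positivity) h2 (by positivity) ?_
  push_cast
  rw [sq]
  gcongr

section Mul

variable {q : ℕ} [NeZero q]

omit [NeZero q] in
theorem inv_apply_unit (χ : DirichletCharacter ℂ q) {b : ZMod q} (hb : IsUnit b) :
    χ⁻¹ b = χ b⁻¹ := by
  rw [MulChar.inv_apply_eq_inv']
  exact (eq_inv_of_mul_eq_one_left (by rw [← map_mul, ZMod.inv_mul_of_unit b hb, map_one])).symm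

theorem gauss_twist {χ : DirichletCharacter ℂ q} (hχ : χ.IsPrimitive) (n : ZMod q) :
    χ n * gaussSum χ⁻¹ ZMod.stdAddChar = ∑ b, χ⁻¹ b * ZMod.stdAddChar (n * b) := by
  have h : IsPrimitive χ⁻¹ := (conductor_inv χ).trans hχ
  have := gaussSum_mulShift_of_isPrimitive ZMod.stdAddChar h n
  rw [inv_inv] at this
  rw [← this]
  rfl

theorem norm_gauss {χ : DirichletCharacter ℂ q} (hχ : χ.IsPrimitive) :
    ‖gaussSum χ⁻¹ ZMod.stdAddChar‖ ^ 2 = q := by
  have h1 : conj (gaussSum χ⁻¹ ZMod.stdAddChar) = ∑ b, χ b * ZMod.stdAddChar (-b) := by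
    rw [gaussSum, map_sum]
    refine sum_congr rfl fun b _ => ?_
    rw [map_mul, AddChar.map_neg_eq_conj]
    congr 1
    have := MulChar.star_apply' χ⁻¹ b
    rwa [inv_inv] at this
  have h2 : ((‖gaussSum χ⁻¹ ZMod.stdAddChar‖ ^ 2 : ℝ) : ℂ) =
      ∑ c, χ⁻¹ c * ∑ b : ZMod q, ZMod.stdAddChar (b * (c - 1)) := by
    rw [normSq_eq, h1]
    simp only [mul_sum]
    rw [sum_comm]
    refine sum_congr rfl fun b _ => ?_
    rw [← mul_assoc, mul_comm _ (χ b), gauss_twist hχ, sum_mul]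
    refine sum_congr rfl fun c _ => ?_
    rw [mul_assoc, ← AddChar.map_add_eq_mul]
    congr 2
    ring
  simp only [AddChar.sum_mulShift _ (ZMod.isPrimitive_stdAddChar q), sub_eq_zero, Nat.cast_ite,
    mul_ite, Nat.cast_zero, mul_zero, sum_ite_eq', mem_univ, if_true, map_one, one_mul,
    ZMod.card] at h2
  exact_mod_cast h2

open Classical in
theorem parseval (F : ZMod q → ℂ) : ∑ χ : DirichletCharacter ℂ q, ‖∑ b, χ⁻¹ b * F b‖ ^ 2 =
    q.totient * ∑ b ∈ univ.filter IsUnit, ‖F b‖ ^ 2 := by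
  apply ofReal_injective
  rw [ofReal_sum, ofReal_mul, ofReal_sum, sum_filter, mul_sum]
  simp only [normSq_eq, map_sum, sum_mul_sum]
  rw [sum_comm]
  refine sum_congr rfl fun b _ => ?_
  rw [sum_comm]
  split_ifs with hb
  · have : ∀ c, ∑ χ : DirichletCharacter ℂ q, χ⁻¹ b * F b * conj (χ⁻¹ c * F c) =
        if b = c then q.totient * (F b * conj (F c)) else 0 := fun c => by
      have h1 := sum_char_inv_mul_char_eq ℂ hb c
      calc _ = (∑ χ : DirichletCharacter ℂ q, χ b⁻¹ * χ c) * (F b * conj (F c)) := by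
            rw [sum_mul]
            refine sum_congr rfl fun χ _ => ?_
            have h2 := MulChar.star_apply' χ⁻¹ c
            rw [inv_inv] at h2
            rw [map_mul, inv_apply_unit χ hb, ← h2]
            simp only [RCLike.star_def]
            ring
        _ = _ := by rw [h1]; split_ifs <;> simp
    rw [sum_congr rfl fun c _ => this c]
    simp
  · simp [MulChar.map_nonunit _ hb]

open Classical in
theorem mult (X : ℕ) (a : ℕ → ℂ) : (q : ℝ) / q.totient *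
    ∑ χ ∈ univ.filter (fun χ : DirichletCharacter ℂ q => χ.IsPrimitive),
      ‖∑ n ∈ Icc 1 X, a n * χ n‖ ^ 2 ≤ ∑ b ∈ (range q).filter (fun b => b.Coprime q),
        ‖∑ n ∈ Icc 1 X, a n * e ((b : ℝ) / q * n)‖ ^ 2 := by
  have hφ : (0 : ℝ) < q.totient := by exact_mod_cast Nat.totient_pos.2 (NeZero.pos q)
  set F : ZMod q → ℂ := fun b => ∑ n ∈ Icc 1 X, a n * ZMod.stdAddChar ((n : ZMod q) * b) with hF
  have h1 : ∀ χ : DirichletCharacter ℂ q, χ.IsPrimitive →
      (q : ℝ) * ‖∑ n ∈ Icc 1 X, a n * χ n‖ ^ 2 = ‖∑ b, χ⁻¹ b * F b‖ ^ 2 := fun χ hχ => by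
    rw [← norm_gauss hχ, ← mul_pow, ← norm_mul, mul_sum]
    simp only [hF, mul_sum]
    rw [sum_comm]
    congr 2
    refine sum_congr rfl fun n _ => ?_
    rw [mul_comm, mul_assoc, gauss_twist hχ, mul_sum]
    exact sum_congr rfl fun b _ => by ring
  have h2 : ∑ b ∈ univ.filter IsUnit, ‖F b‖ ^ 2 = ∑ b ∈ (range q).filter (fun b => b.Coprime q),
      ‖∑ n ∈ Icc 1 X, a n * e ((b : ℝ) / q * n)‖ ^ 2 := by
    symm
    refine sum_nbij' (fun b : ℕ => (b : ZMod q)) ZMod.val ?_ ?_ ?_ ?_ fun b _ => ?_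
    · intro b hb
      simpa [ZMod.isUnit_iff_coprime] using (mem_filter.1 hb).2
    · intro b hb
      refine mem_filter.2 ⟨mem_range.2 (ZMod.val_lt b), ?_⟩
      rw [← ZMod.isUnit_iff_coprime, ZMod.natCast_zmod_val]
      exact (mem_filter.1 hb).2
    · intro b hb
      exact ZMod.val_cast_of_lt (mem_range.1 (mem_filter.1 hb).1)
    · intro b _
      exact ZMod.natCast_zmod_val b
    · simp only [hF]
      congr 2
      refine sum_congr rfl fun n _ => ?_
      have := ZMod.stdAddChar_coe (N := q) (n * b : ℕ)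
      push_cast at this
      rw [this, e]
      congr 2
      push_cast
      ring
  rw [← h2, div_mul_eq_mul_div, div_le_iff₀' hφ, ← parseval, mul_sum,
    sum_congr rfl fun χ hχ => h1 χ (mem_filter.1 hχ).2]
  exact sum_le_sum_of_subset_of_nonneg (filter_subset _ _) fun _ _ _ => by positivity

end Mul

end LSP

open LSP in
theorem ls : S_LS := by
  refine ⟨6, by norm_num, fun R X a => ?_⟩
  have hl := Real.log_natCast_nonneg R
  rcases Nat.eq_zero_or_pos R with rfl | hR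
  · simp only [Icc_eq_empty_of_lt one_pos, sum_empty]
    positivity
  have h1 := additive ((Icc 1 R).sigma fun q => (range q).filter fun b => b.Coprime q)
    (fun z => (z.2 : ℝ) / z.1) X (V := 6 * (X + (R : ℝ) ^ 2) * (1 + Real.log R)) (by positivity)
    (fun r _ => (spaced _ _ (Q := R ^ 2) (by positivity) (Nat.cast_nonneg X) (fun s hs t ht hst => by
      rw [mem_sigma, mem_filter, mem_range] at hs ht
      exact farey hs.1 ht.1 hs.2.1 ht.2.1 hs.2.2 ht.2.2 fun h =>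
        hst (Sigma.ext h.1 (heq_of_eq h.2))) _).trans (by
      push_cast
      rw [Real.log_pow]
      have : (0 : ℝ) ≤ X := Nat.cast_nonneg X
      push_cast
      nlinarith [mul_nonneg this hl, mul_nonneg (sq_nonneg (R : ℝ)) hl, sq_nonneg (R : ℝ)])) a
  rw [sum_sigma] at h1
  refine le_trans (sum_le_sum fun q hq => ?_) h1
  have : NeZero q := ⟨by have := (mem_Icc.1 hq).1; omega⟩
  exact mult X a

end Pool.Agent.P.MP_0ad054_nt.An
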