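import Pool.Agent.P.MP_0ad054_nt.An.Defs

/-! Siegel-Walfisz and the prime number theorem from the zero free region. -/

namespace Pool.Agent.P.MP_0ad054_nt.An

open Finset Complex DirichletCharacter
open scoped ArithmeticFunction.vonMangoldt

namespace SWP

/-- the exponent of the zero free region -/
noncomputable def ex (A B : ℕ) : ℝ := 1 / (2 * ((B + (2 * A + 5) + 1 : ℕ) : ℝ))

theorem ex_pos (A B : ℕ) : 0 < ex A B := by unfold ex; positivity

theorem ex_le (A B : ℕ) : ex A B ≤ 1 / 2 := by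
  unfold ex
  refine one_div_le_one_div_of_le (by norm_num) ?_
  have : (1 : ℝ) ≤ ((B + (2 * A + 5) + 1 : ℕ) : ℝ) := by exact_mod_cast (by omega)
  linarith

theorem one_le_cond {q : ℕ} (hq : 1 ≤ q) (s : ℂ) : 1 ≤ cond q s := by
  have : (1 : ℝ) ≤ q := by exact_mod_cast hq
  unfold cond
  nlinarith [abs_nonneg s.im]

theorem key (hT : S_Tauber) (A B : ℕ) (c D : ℝ) (hc : 0 < c) (hc' : c ≤ 1 / 2) (hD : 0 ≤ D) :
    ∃ C : ℝ, 0 < C ∧ ∀ (X q : ℕ) (a : ℕ → ℂ) (F : ℂ → ℂ), 2 ≤ X → 1 ≤ q →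
      (q : ℝ) ≤ Real.log X ^ B → (∀ n, 1 ≤ n → ‖a n‖ ≤ Real.log n + 1) →
      (∀ s : ℂ, 1 < s.re → F s = LSeries a s) →
      (∀ s : ℂ, 1 - c * cond q s ^ (-ex A B) ≤ s.re → s.re ≤ 2 →
        DifferentiableAt ℂ F s ∧ ‖F s‖ ≤ D * cond q s ^ ex A B) →
      ‖∑ n ∈ Icc 1 X, a n‖ ≤ C * X / Real.log X ^ A := by
  obtain ⟨C0, hC0, hT⟩ := hT
  set k := 2 * A + 5 with hk
  set K : ℝ := (2 * k).factorial / c ^ (2 * k) with hK
  have hK0 : 0 < K := by positivity
  refine ⟨4 * 3 ^ A + C0 * (1 + (1 + D) * (K + 1) + (A + 2).factorial), by positivity, ?_⟩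
  intro X q a F hX hq hqL ha hFL hF
  have hX2 : (2 : ℝ) ≤ X := by exact_mod_cast hX
  have hX0 : (0 : ℝ) < X := by linarith
  have hL0 : 0 < Real.log X := Real.log_pos (by linarith)
  set L := Real.log X with hLd
  have hq1 : (1 : ℝ) ≤ q := by exact_mod_cast hq
  rw [add_mul, add_div]
  rcases lt_or_ge L 3 with hL | hL
  · refine le_add_of_le_of_nonneg ?_ (by positivity)
    refine (norm_sum_le _ _).trans ((sum_le_card_nsmul _ _ 4 fun n hn => ?_).trans ?_)
    · rw [mem_Icc] at hn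
      have h1 : (1 : ℝ) ≤ n := by exact_mod_cast hn.1
      have h2 : (n : ℝ) ≤ X := by exact_mod_cast hn.2
      have := Real.log_le_log (by linarith) h2
      linarith [ha n hn.1]
    · rw [nsmul_eq_mul, Nat.card_Icc, Nat.add_sub_cancel, le_div_iff₀ (by positivity)]
      have : L ^ A ≤ 3 ^ A := pow_le_pow_left₀ hL0.le hL.le A
      calc (X : ℝ) * 4 * L ^ A ≤ X * 4 * 3 ^ A := by gcongr
        _ = _ := by ring
  refine le_add_of_nonneg_of_le (by positivity) ?_
  have hL1 : 1 ≤ L := by linarith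
  have hX3 : 3 ≤ X := by
    have := Real.log_le_sub_one_of_pos hX0
    have h : (3 : ℝ) ≤ X := by linarith
    exact_mod_cast h
  set T : ℝ := L ^ k with hTd
  have hT1 : 1 ≤ T := one_le_pow₀ hL1
  set Q : ℝ := q * (T + 2) with hQ
  have hQ1 : 1 ≤ Q := by rw [hQ]; nlinarith
  have hQ0 : 0 < Q := by linarith
  have hQL : Q ≤ L ^ (B + k + 1) := by
    rw [hQ, pow_succ, pow_add, mul_assoc]
    refine mul_le_mul hqL ?_ (by linarith) (by positivity)
    rw [← hTd]; nlinarith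
  have he0 := ex_pos A B
  set e := ex A B with he
  set r := Real.sqrt L with hr
  have hr0 : 0 < r := Real.sqrt_pos.2 hL0
  have hrr : r * r = L := Real.mul_self_sqrt hL0.le
  have hrL : r ≤ L := by
    have : 1 ≤ r := by rw [hr]; exact Real.one_le_sqrt.2 hL1
    nlinarith
  have hQe : Q ^ e ≤ r := by
    calc Q ^ e ≤ (L ^ (B + k + 1)) ^ e := Real.rpow_le_rpow hQ0.le hQL he0.le
      _ = r := by
        rw [← Real.rpow_natCast, ← Real.rpow_mul hL0.le, hr, Real.sqrt_eq_rpow]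
        congr 1
        rw [he, ex, ← hk]
        field_simp
  have hQe1 : 1 ≤ Q ^ e := Real.one_le_rpow hQ1 he0.le
  set ρ : ℝ := c * Q ^ (-e) with hρ
  have hρ0 : 0 < ρ := by positivity
  have hρ1 : ρ ≤ 1 / 2 := by
    have : Q ^ (-e) ≤ 1 := Real.rpow_le_one_of_one_le_of_nonpos hQ1 (by linarith)
    rw [hρ]; nlinarith
  have hρ2 : c * r ≤ ρ * L := by
    rw [hρ, Real.rpow_neg hQ0.le, mul_assoc]
    refine mul_le_mul_of_nonneg_left ?_ hc.le
    rw [le_inv_mul_iff₀ (by positivity), ← hrr]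
    exact mul_le_mul_of_nonneg_right hQe hr0.le
  have hcond : ∀ s : ℂ, |s.im| ≤ T → cond q s ≤ Q := by
    intro s hs
    unfold cond
    rw [hQ]; gcongr
  have hreg : ∀ s : ℂ, 1 - ρ ≤ s.re → s.re ≤ 2 → |s.im| ≤ T →
      DifferentiableAt ℂ F s ∧ ‖F s‖ ≤ D * L := by
    intro s h1 h2 h3
    have h4 := one_le_cond hq s
    have h5 : Q ^ (-e) ≤ cond q s ^ (-e) :=
      Real.rpow_le_rpow_of_nonpos (by linarith) (hcond s h3) (by linarith)
    have h6 := hF s (by rw [hρ] at h1; nlinarith) h2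
    refine ⟨h6.1, h6.2.trans (mul_le_mul_of_nonneg_left ?_ hD)⟩
    exact (Real.rpow_le_rpow (by linarith) (hcond s h3) he0.le).trans (hQe.trans hrL)
  set δ : ℝ := 1 / L ^ (A + 2) with hδ
  have hδ0 : 0 < δ := by positivity
  have hδ1 : δ ≤ 1 := by
    rw [hδ, div_le_one (by positivity)]; exact one_le_pow₀ hL1
  have h := hT a F ρ T (D * L) δ X ha hρ0 hρ1 hT1 (by positivity) hδ0 hδ1 hX3
    (fun s hs => (hreg s hs.1 hs.2.1 hs.2.2).1.differentiableWithinAt) hFL
    (fun s h1 h2 h3 => (hreg s h1 h2 h3).2)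
  refine h.trans ?_
  rw [← hLd]
  have h1 : (X : ℝ) ^ (-ρ) ≤ K / T := by
    rw [Real.rpow_def_of_pos hX0, ← hLd]
    have h2 := Real.pow_div_factorial_le_exp (c * r) (by positivity) (2 * k)
    have h3 : (c * r) ^ (2 * k) = c ^ (2 * k) * T := by
      rw [mul_pow, pow_mul r, sq r, hrr]
    calc Real.exp (L * -ρ) ≤ Real.exp (-(c * r)) := Real.exp_le_exp.2 (by linarith)
      _ = (Real.exp (c * r))⁻¹ := Real.exp_neg _
      _ ≤ ((c * r) ^ (2 * k) / (2 * k).factorial)⁻¹ := inv_anti₀ (by positivity) h2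
      _ = K / T := by rw [h3, hK]; field_simp
  have h2 : (1 + D * L) * ((X : ℝ) ^ (-ρ) + 1 / T) / δ ≤ (1 + D) * (K + 1) * δ := by
    calc _ ≤ ((1 + D) * L) * (K / T + 1 / T) / δ := by
          gcongr
          nlinarith
      _ = _ := by
          rw [hδ, hTd, hk]; field_simp; ring
  have h3 : 1 ≤ X * ((A + 2).factorial * δ) := by
    have h4 := Real.pow_div_factorial_le_exp L hL0.le (A + 2)
    rw [hLd, Real.exp_log hX0, ← hLd, div_le_iff₀ (by positivity)] at h4
    rw [hδ, mul_one_div, ← mul_div_assoc, le_div_iff₀ (by positivity)]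
    linarith
  calc _ ≤ C0 * (X * (δ + (1 + D) * (K + 1) * δ) + X * ((A + 2).factorial * δ)) * L ^ 2 := by
        gcongr
    _ = _ := by rw [hδ]; field_simp; ring

theorem Zf_eq {s : ℂ} (hs : s ≠ 1) : Zf s = (s - 1) * riemannZeta s := by
  rw [Zf, LFunctionTrivChar₁, Function.update_of_ne hs, LFunctionTrivChar, LFunction_modOne_eq]

theorem deriv_Zf {s : ℂ} (hs : s ≠ 1) :
    deriv Zf s = (s - 1) * deriv riemannZeta s + riemannZeta s := by
  rw [Zf, deriv_LFunctionTrivChar₁_apply_of_ne_one 1 hs, LFunctionTrivChar, LFunction_modOne_eq]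

theorem differentiable_Zf : Differentiable ℂ Zf := differentiable_LFunctionTrivChar₁ 1

end SWP

open SWP

theorem sw (hZ : S_Zfree) (hT : S_Tauber) : S_SW := by
  intro A B
  obtain ⟨c, hc, hc', hZ, -⟩ := hZ (ex A B) (ex_pos A B)
  obtain ⟨C, hC, h⟩ := key hT A B c (1 / c) hc (by linarith) (by positivity)
  refine ⟨C, hC, fun X q _ χ hX hq hχ => ?_⟩
  refine h X q (fun n => (Λ n : ℂ) * χ n) (fun s => -(deriv (LFunction χ) s / LFunction χ s)) hX
    (Nat.pos_of_ne_zero (NeZero.ne q)) hq (fun n _ => ?_) (fun s hs => ?_) fun s h1 h2 => ?_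
  · rw [norm_mul, norm_real, Real.norm_eq_abs, abs_of_nonneg ArithmeticFunction.vonMangoldt_nonneg]
    have h1 := χ.norm_le_one (n : ZMod q)
    have h2 := ArithmeticFunction.vonMangoldt_le_log (n := n)
    have h3 := ArithmeticFunction.vonMangoldt_nonneg (n := n)
    nlinarith
  · rw [deriv_LFunction_eq_deriv_LSeries χ hs, LFunction_eq_LSeries χ hs, ← neg_div,
      ← LSeries_twist_vonMangoldt_eq χ hs]
    congr 1
    funext n
    simp [mul_comm]
  · obtain ⟨h3, h4⟩ := hZ q χ hχ s h1 h2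
    have hd := differentiable_LFunction hχ
    refine ⟨((hd.deriv s).div (hd s) h3).neg, ?_⟩
    rw [norm_neg, one_div_mul_eq_div]
    exact h4

theorem pnt (hL : S_Lup) (hZ : S_Zfree) (hT : S_Tauber) : S_PNT := by
  intro A
  have he0 := ex_pos A 0
  obtain ⟨c, hc, hc', -, hZ⟩ := hZ (ex A 0) he0
  obtain ⟨C1, hC1, -, hL⟩ := hL (ex A 0) he0 (ex_le A 0)
  obtain ⟨C, hC, h⟩ := key hT A 0 (min c (ex A 0)) (1 / c + (C1 + ‖riemannZeta₀ 1‖))
    (lt_min hc he0) ((min_le_left _ _).trans (by linarith)) (by positivity)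
  refine ⟨C, hC, fun X hX => ?_⟩
  have h1 := h X 1 (fun n => (Λ n : ℂ) - 1)
    (fun s => -(deriv Zf s / Zf s) - riemannZeta₀ s) hX le_rfl (by simp) (fun n _ => ?_)
    (fun s hs => ?_) fun s h1 h2 => ?_
  · refine le_trans (le_of_eq ?_) h1
    rw [← Real.norm_eq_abs, ← norm_real]
    congr 1
    simp [sum_sub_distrib]
  · refine (norm_sub_le _ _).trans ?_
    rw [norm_one, norm_real, Real.norm_eq_abs,
      abs_of_nonneg ArithmeticFunction.vonMangoldt_nonneg]
    have h2 := ArithmeticFunction.vonMangoldt_le_log (n := n)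
    linarith
  · have hs1 : s ≠ 1 := by
      intro h; rw [h] at hs; simp at hs
    have hs2 : s - 1 ≠ 0 := sub_ne_zero.2 hs1
    have hz := riemannZeta_ne_zero_of_one_lt_re hs
    have e1 := LSeries_sub (ArithmeticFunction.LSeriesSummable_vonMangoldt hs)
      (LSeriesSummable_one_iff.2 hs)
    rw [ArithmeticFunction.LSeries_vonMangoldt_eq_deriv_riemannZeta_div hs,
      LSeries_one_eq_riemannZeta hs] at e1
    refine Eq.trans ?_ e1.symm
    have e2 : riemannZeta₀ s = riemannZeta s - (s - 1)⁻¹ := by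
      rw [riemannZeta_eq_inv_sub_add hs1]; ring
    rw [Zf_eq hs1, deriv_Zf hs1, e2]
    field_simp
    ring
  · have hc1 := one_le_cond le_rfl s
    have hp : 0 < cond 1 s ^ (-ex A 0) := Real.rpow_pos_of_pos (by linarith) _
    have hp1 : cond 1 s ^ (-ex A 0) ≤ 1 :=
      Real.rpow_le_one_of_one_le_of_nonpos hc1 (by linarith)
    have hp2 : 1 ≤ cond 1 s ^ ex A 0 := Real.one_le_rpow hc1 he0.le
    have k1 := mul_le_mul_of_nonneg_right (min_le_left c (ex A 0)) hp.le
    have k2 := mul_le_mul_of_nonneg_right (min_le_right c (ex A 0)) hp.le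
    obtain ⟨h3, h4⟩ := hZ s (by linarith) h2
    refine ⟨((differentiable_Zf.deriv s).div (differentiable_Zf s) h3).neg.sub
      (differentiable_riemannZeta₀ s), (norm_sub_le _ _).trans ?_⟩
    rw [norm_neg, add_mul, one_div_mul_eq_div]
    refine add_le_add h4 ?_
    rw [add_mul]
    rcases eq_or_ne s 1 with rfl | hs1
    · refine le_add_of_nonneg_of_le (by positivity) ?_
      exact le_mul_of_one_le_right (norm_nonneg _) hp2
    · refine le_add_of_le_of_nonneg ?_ (by positivity)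
      have e2 : riemannZeta₀ s = riemannZeta s - 1 / (s - 1) := by
        rw [riemannZeta_eq_inv_sub_add hs1]; ring
      rw [e2]
      exact hL s hs1 (by nlinarith)

end Pool.Agent.P.MP_0ad054_nt.An
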