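import Pool.Agent.P.MP_0ad054_nt.An.Defs

/-! Vinogradov's bound for exponential sums over primes. -/

namespace Pool.Agent.P.MP_0ad054_nt.An

open Finset
open scoped ArithmeticFunction.vonMangoldt ArithmeticFunction.Moebius

namespace VinP

/-- image of a set of naturals in the integers -/
def zs (S : Finset ℕ) : Finset ℤ := S.map ⟨Nat.cast, Nat.cast_injective⟩

theorem zs_convex (a b : ℕ) (u v w : ℤ) (hu : u ∈ zs (Ico a b)) (hw : w ∈ zs (Ico a b)) (h1 : u ≤ v)
    (h2 : v ≤ w) : v ∈ zs (Ico a b) := by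
  simp only [zs, mem_map, mem_Ico, Function.Embedding.coeFn_mk] at hu hw ⊢
  obtain ⟨u', hu1, rfl⟩ := hu
  obtain ⟨w', hw1, rfl⟩ := hw
  exact ⟨v.toNat, by omega, by omega⟩

theorem geomN (x : ℝ) (a b : ℕ) {Y : ℝ} (hY : ((Ico a b).card : ℝ) ≤ Y) :
    ‖∑ m ∈ Ico a b, e (x * m)‖ ≤ mn Y x := by
  have := geom_convex x (zs (Ico a b)) (zs_convex a b) (Y := Y) (by simpa [zs] using hY)
  simpa [zs] using this

theorem minsumN {x Y : ℝ} (hY : 0 ≤ Y) {a : ℤ} {q : ℕ} (hq : 0 < q) (ha : IsCoprime a q)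
    (hx : |x - a / q| ≤ 1 / q ^ 2) (u v : ℕ) (c : ℤ) :
    ∑ k ∈ Ico u v, mn Y (x * (k - c)) ≤
      (((v - u : ℕ) : ℝ) / q + 1) * (6 * Y + 2 * q * (1 + Real.log q)) := by
  rw [sum_Ico_eq_sum_range]
  refine le_trans (le_of_eq ?_) (minsum_range hY hq ha hx (u - c) (v - u))
  refine sum_congr rfl fun i _ => ?_
  congr 1
  push_cast; ring

theorem bilinearN (x : ℝ) (a b : ℕ) (T : Finset ℕ) (X : ℕ) (F G : ℕ → ℂ) {Y V : ℝ}
    (hY : ((Ico a b).card : ℝ) ≤ Y) (hV : ∀ j ∈ T, ∑ j' ∈ T, mn Y (x * ((j : ℝ) - j')) ≤ V) :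
    ‖∑ i ∈ Ico a b, ∑ j ∈ T, if i * j ≤ X then F i * G j * e (x * i * j) else 0‖ ^ 2 ≤
      (∑ i ∈ Ico a b, ‖F i‖ ^ 2) * (∑ j ∈ T, ‖G j‖ ^ 2) * V := by
  have := bilinear x (zs (Ico a b)) (zs T) (fun i j => i * j ≤ (X : ℤ)) (fun z => F z.toNat)
    (fun z => G z.toNat) (Y := Y) (V := V) (by simpa [zs] using hY) (zs_convex a b)
    (fun j u v w h1 h2 h3 h4 => by
      rcases le_total 0 j with h | h
      · nlinarith
      · nlinarith)
    (by simpa [zs] using hV)
  simp only [zs, sum_map, Function.Embedding.coeFn_mk, Int.toNat_natCast, Int.cast_natCast] at this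
  refine le_trans (le_of_eq ?_) this
  congr 2
  refine sum_congr rfl fun i _ => sum_congr rfl fun j _ => ?_
  have : ((i : ℤ) * j ≤ (X : ℤ)) ↔ i * j ≤ X := by exact_mod_cast Iff.rfl
  simp only [this]

theorem dyadic {E : Type} [SeminormedAddCommGroup E] (u v N : ℕ) (hu : 1 ≤ u) (hv : v ≤ N + 1)
    (g : ℕ → E) {B : ℝ} (hB : 0 ≤ B)
    (h : ∀ K a b : ℕ, 1 ≤ K → K ≤ a → u ≤ a → a < b → b ≤ 2 * K → b ≤ v → ‖∑ k ∈ Ico a b, g k‖ ≤ B) :
    ‖∑ k ∈ Ico u v, g k‖ ≤ 2 * (1 + Real.log N) * B := by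
  have hmap : ∀ k ∈ Ico u v, Nat.log 2 k ∈ range (Nat.log 2 N + 1) := fun k hk => by
    rw [mem_Ico] at hk
    exact mem_range.2 (Nat.lt_succ_of_le (Nat.log_mono_right (by omega)))
  rw [← sum_fiberwise_of_maps_to hmap]
  refine (norm_sum_le _ _).trans ?_
  have h1 : ∀ j ∈ range (Nat.log 2 N + 1),
      ‖∑ k ∈ (Ico u v).filter (fun k => Nat.log 2 k = j), g k‖ ≤ B := fun j _ => by
    have e1 : (Ico u v).filter (fun k => Nat.log 2 k = j) = Ico (max u (2 ^ j)) (min v (2 * 2 ^ j)) := by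
      ext k
      simp only [mem_filter, mem_Ico, max_le_iff, lt_min_iff]
      constructor
      · rintro ⟨⟨b1, b2⟩, b3⟩
        have := (Nat.log_eq_iff (Or.inr ⟨one_lt_two, by omega⟩)).1 b3
        rw [pow_succ] at this
        omega
      · rintro ⟨⟨b1, b2⟩, b3, b4⟩
        refine ⟨⟨b1, b3⟩, (Nat.log_eq_iff (Or.inr ⟨one_lt_two, by omega⟩)).2 ⟨b2, ?_⟩⟩
        rw [pow_succ]; omega
    rw [e1]
    rcases le_or_gt (min v (2 * 2 ^ j)) (max u (2 ^ j)) with b | b
    · rw [Ico_eq_empty_of_le b]; simpa using hB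
    · exact h (2 ^ j) _ _ Nat.one_le_two_pow (le_max_right _ _) (le_max_left _ _) b (min_le_right _ _)
        (min_le_left _ _)
  refine (sum_le_card_nsmul _ _ _ h1).trans ?_
  rw [card_range, nsmul_eq_mul]
  refine mul_le_mul_of_nonneg_right ?_ hB
  have h2 : (Nat.log 2 N : ℝ) ≤ 2 * Real.log N := by
    rcases Nat.eq_zero_or_pos N with h0 | h0
    · subst h0; simp
    · have b1 : ((2 ^ Nat.log 2 N : ℕ) : ℝ) ≤ N := by exact_mod_cast Nat.pow_log_le_self 2 h0.ne'
      have b2 := Real.log_le_log (by positivity) b1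
      rw [Nat.cast_pow, Real.log_pow] at b2
      have b3 := Real.log_two_gt_d9
      have b4 : (0 : ℝ) ≤ Nat.log 2 N := Nat.cast_nonneg _
      push_cast at b2
      nlinarith
  push_cast
  linarith

theorem mn_small {Y x : ℝ} (hY : 0 ≤ Y) {q : ℝ} (hq : 0 < q) (h : 1 / (2 * q) ≤ dn x) :
    mn Y x ≤ mn q x := by
  have hd : 0 < dn x := lt_of_lt_of_le (by positivity) h
  refine (mn_le_of hY hd le_rfl).trans (le_of_eq ?_)
  unfold mn
  rw [div_le_iff₀ (by positivity)] at h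
  rw [max_eq_right (by linarith)]
  field_simp

theorem log_abel (x : ℝ) (M : ℕ) :
    ‖∑ m ∈ Icc 1 M, (Real.log m : ℂ) * e (x * m)‖ ≤ Real.log M * mn M x := by
  have tel : ∀ m : ℕ, ∑ j ∈ Ico 1 m, (Real.log (j + 1 : ℕ) - Real.log j) = Real.log m := fun m => by
    rcases Nat.eq_zero_or_pos m with h | h
    · subst h; simp
    · rw [sum_Ico_sub (fun j : ℕ => Real.log j) h]; simp
  have h1 : ∑ m ∈ Icc 1 M, (Real.log m : ℂ) * e (x * m) =
      ∑ j ∈ Ico 1 M, ((Real.log (j + 1 : ℕ) - Real.log j : ℝ) : ℂ) *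
        ∑ m ∈ Ico (j + 1) (M + 1), e (x * m) := by
    simp_rw [mul_sum]
    rw [sum_comm' (t' := Icc 1 M) (s' := fun m => Ico 1 m)]
    · refine sum_congr rfl fun m _ => ?_
      rw [← sum_mul, ← Complex.ofReal_sum, tel]
    · intro j m
      simp only [mem_Ico, mem_Icc]
      omega
  rw [h1, ← tel M, sum_mul]
  refine (norm_sum_le _ _).trans (sum_le_sum fun j hj => ?_)
  have hj1 := (mem_Ico.1 hj).1
  have hj0 : (0 : ℝ) < j := by exact_mod_cast hj1
  have hd : 0 ≤ Real.log (j + 1 : ℕ) - Real.log j :=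
    sub_nonneg.2 (Real.log_le_log hj0 (by push_cast; linarith))
  rw [norm_mul, Complex.norm_real, Real.norm_eq_abs, abs_of_nonneg hd]
  refine mul_le_mul_of_nonneg_left (geomN x _ _ ?_) hd
  rw [Nat.card_Ico]
  exact_mod_cast (by omega : M + 1 - (j + 1) ≤ M)

section
variable {X q : ℕ} {a : ℤ} {β P : ℝ} (hP : 1 ≤ P) (hP3 : P ^ 3 ≤ X) (hPq : P ≤ q) (hqP : q * P ≤ X)
  (ha : IsCoprime a q) (hβ : |β - a / q| ≤ 1 / (q : ℝ) ^ 2)
include hP hP3 hPq hqP ha hβ

theorem typeI (W : ℕ) (hW : (W : ℝ) ≤ P ^ 2) :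
    ∑ k ∈ Icc 1 W, mn ((X : ℝ) / k) (β * k) ≤ 80 * (1 + Real.log X) ^ 2 * (X / P) := by
  have hq0 : (0 : ℝ) < q := by linarith
  have hq : 0 < q := by exact_mod_cast hq0
  have hP0 : 0 < P := by linarith
  have hP23 : P ^ 2 ≤ P ^ 3 := pow_le_pow_right₀ hP (by norm_num)
  have hX1 : (1 : ℝ) ≤ X := (one_le_pow₀ hP).trans hP3
  have hqX : (q : ℝ) ≤ X / P := by rw [le_div_iff₀ hP0]; exact hqP
  have hXP : X / P ≤ (X : ℝ) := div_le_self (by linarith) hP
  have hlq : Real.log q ≤ Real.log X := Real.log_le_log hq0 (hqX.trans hXP)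
  have hlq0 : 0 ≤ Real.log q := Real.log_natCast_nonneg q
  set L := 1 + Real.log X with hL
  have hL1 : 1 ≤ L := by linarith
  have hWX : W ≤ X := by
    have : (W : ℝ) ≤ X := by linarith
    exact_mod_cast this
  have hP2 : P ^ 2 ≤ X / P := by rw [le_div_iff₀ hP0]; linarith
  have hXP0 : 0 ≤ X / P := by positivity
  have h := dyadic 1 (W + 1) X le_rfl (by omega) (fun k : ℕ => mn ((X : ℝ) / k) (β * k))
    (B := 40 * L * (X / P)) (by positivity) (fun K u v h1 h2 _ h4 h5 h6 => by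
      have hK0 : (0 : ℝ) < K := by exact_mod_cast h1
      have hKW : (K : ℝ) ≤ X / P := by
        have : (K : ℝ) ≤ W := by exact_mod_cast (by omega : K ≤ W)
        linarith
      have hvu : ((v - u : ℕ) : ℝ) ≤ K := by exact_mod_cast (by omega : v - u ≤ K)
      rw [Real.norm_of_nonneg (sum_nonneg fun k _ => mn_nonneg (by positivity) _)]
      rcases le_or_gt (4 * K) q with c | c
      · have c' : (4 * K : ℝ) ≤ q := by exact_mod_cast c
        calc ∑ k ∈ Ico u v, mn ((X : ℝ) / k) (β * k) ≤ ∑ k ∈ Ico u v, mn q (β * (k - (0 : ℤ))) := by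
              refine sum_le_sum fun k hk => ?_
              rw [mem_Ico] at hk
              rw [Int.cast_zero, sub_zero]
              exact mn_small (by positivity) hq0 (dn_small hq ha hβ (by omega) (by omega))
          _ ≤ (((v - u : ℕ) : ℝ) / q + 1) * (6 * q + 2 * q * (1 + Real.log q)) :=
              minsumN hq0.le hq ha hβ u v 0
          _ ≤ (1 + 1) * (6 * (X / P) * L + 2 * (X / P) * L) := by
              have d1 : ((v - u : ℕ) : ℝ) / q ≤ 1 := by rw [div_le_one hq0]; linarith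
              have d2 : 6 * (q : ℝ) ≤ 6 * (X / P) * L := by nlinarith
              have d3 : 2 * (q : ℝ) * (1 + Real.log q) ≤ 2 * (X / P) * L := by gcongr; linarith
              gcongr
          _ ≤ 40 * L * (X / P) := by nlinarith
      · have c' : (q : ℝ) ≤ 4 * K := by exact_mod_cast c.le
        calc ∑ k ∈ Ico u v, mn ((X : ℝ) / k) (β * k)
            ≤ ∑ k ∈ Ico u v, mn ((X : ℝ) / K) (β * (k - (0 : ℤ))) := by
              refine sum_le_sum fun k hk => ?_
              rw [mem_Ico] at hk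
              rw [Int.cast_zero, sub_zero]
              have : (K : ℝ) ≤ k := by exact_mod_cast (by omega : K ≤ k)
              exact mn_mono (by positivity) (by gcongr) _
          _ ≤ (((v - u : ℕ) : ℝ) / q + 1) * (6 * ((X : ℝ) / K) + 2 * q * (1 + Real.log q)) :=
              minsumN (by positivity) hq ha hβ u v 0
          _ ≤ (5 * K / q) * (6 * ((X : ℝ) / K) + 2 * q * L) := by
              have d1 : ((v - u : ℕ) : ℝ) / q + 1 ≤ 5 * K / q := by
                rw [div_add_one hq0.ne']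
                gcongr; linarith
              have d3 : 2 * (q : ℝ) * (1 + Real.log q) ≤ 2 * q * L := by gcongr; linarith
              gcongr
          _ = 30 * (X / q) + 10 * K * L := by field_simp; ring
          _ ≤ 30 * (X / P) * L + 10 * (X / P) * L := by
              have d1 : (X : ℝ) / q ≤ X / P := by gcongr
              have d2 : 30 * ((X : ℝ) / q) ≤ 30 * (X / P) * L := by nlinarith
              gcongr
          _ = 40 * L * (X / P) := by ring)
  rw [Real.norm_of_nonneg (sum_nonneg fun k _ => mn_nonneg (by positivity) _)] at h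
  calc ∑ k ∈ Icc 1 W, mn ((X : ℝ) / k) (β * k) ≤ 2 * L * (40 * L * (X / P)) := h
    _ = _ := by ring

theorem typeII (U : ℕ) (hU : P < U + 1) (F G : ℕ → ℂ) (hF : ∀ k, ‖F k‖ ≤ 1)
    (hG : ∀ l : ℕ, ‖G l‖ ≤ Real.log l) :
    ‖∑ k ∈ Ioc U X, F k * ∑ l ∈ Ioc U (X / k), G l * e (β * (k * l : ℕ))‖ ≤
      10 * (1 + Real.log X) ^ 3 * (X / √P) := by
  have hq0 : (0 : ℝ) < q := by linarith
  have hq : 0 < q := by exact_mod_cast hq0
  have hP0 : 0 < P := by linarith
  have hX1 : (1 : ℝ) ≤ X := (one_le_pow₀ hP).trans hP3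
  have hqX : (q : ℝ) ≤ X / P := by rw [le_div_iff₀ hP0]; exact hqP
  have hXP : X / P ≤ (X : ℝ) := div_le_self (by linarith) hP
  have hlq : Real.log q ≤ Real.log X := Real.log_le_log hq0 (hqX.trans hXP)
  have hlq0 : 0 ≤ Real.log q := Real.log_natCast_nonneg q
  set L := 1 + Real.log X with hL
  have hL1 : 1 ≤ L := by linarith
  have hs0 : 0 < √P := Real.sqrt_pos.2 hP0
  have hXP0 : 0 ≤ X / P := by positivity
  have h := dyadic (U + 1) (X + 1) X (by omega) le_rfl
    (fun k : ℕ => F k * ∑ l ∈ Ioc U (X / k), G l * e (β * (k * l : ℕ)))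
    (B := 5 * L ^ 2 * (X / √P)) (by positivity) (fun K u v h1 h2 h3 h4 h5 _ => by
      have hK0 : (0 : ℝ) < K := by exact_mod_cast h1
      have hcard : ((Ico u v).card : ℝ) ≤ K := by
        rw [Nat.card_Ico]; exact_mod_cast (by omega : v - u ≤ K)
      have hPK : P ≤ 2 * K := by
        have : ((U + 1 : ℕ) : ℝ) ≤ (2 * K : ℕ) := by exact_mod_cast (by omega : U + 1 ≤ 2 * K)
        push_cast at this
        linarith
      have e1 : ∑ k ∈ Ico u v, F k * ∑ l ∈ Ioc U (X / k), G l * e (β * (k * l : ℕ)) =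
          ∑ k ∈ Ico u v, ∑ l ∈ Ico (U + 1) (X / K + 1),
            if k * l ≤ X then F k * G l * e (β * k * l) else 0 := by
        refine sum_congr rfl fun k hk => ?_
        rw [mem_Ico] at hk
        have hk0 : 0 < k := by omega
        rw [mul_sum, ← sum_filter]
        refine sum_congr ?_ fun l _ => ?_
        · ext l
          simp only [mem_filter, mem_Ioc, mem_Ico, Nat.le_div_iff_mul_le hk0, Nat.lt_succ_iff,
            Nat.le_div_iff_mul_le h1, Nat.succ_le_iff]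
          constructor
          · rintro ⟨b1, b2⟩
            exact ⟨⟨b1, (Nat.mul_le_mul_left l (by omega)).trans b2⟩, by rw [mul_comm]; exact b2⟩
          · rintro ⟨⟨b1, _⟩, b2⟩
            exact ⟨b1, by rw [mul_comm]; exact b2⟩
        · push_cast; rw [mul_assoc, mul_assoc]
      rw [e1]
      rcases le_or_gt (X / K + 1) (U + 1) with c | c
      · rw [Ico_eq_empty_of_le c]
        simp only [sum_empty, sum_const_zero, norm_zero]
        positivity
      have hXK : ((X / K : ℕ) : ℝ) ≤ X / K := Nat.cast_div_le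
      have hKX : (K : ℝ) ≤ X / P := by
        have b1 : ((U + 1 : ℕ) : ℝ) ≤ (X / K : ℕ) := by exact_mod_cast (by omega : U + 1 ≤ X / K)
        push_cast at b1
        have b2 : P ≤ X / K := by linarith
        rw [le_div_iff₀ hK0] at b2
        rw [le_div_iff₀ hP0]; linarith
      have hT : ((X / K + 1 - (U + 1) : ℕ) : ℝ) ≤ X / K :=
        le_trans (by exact_mod_cast (by omega : X / K + 1 - (U + 1) ≤ X / K)) hXK
      have hb := bilinearN β u v (Ico (U + 1) (X / K + 1)) X F G (Y := K)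
        (V := ((X : ℝ) / K / q + 1) * (6 * K + 2 * q * L)) hcard (fun j _ => by
          calc ∑ j' ∈ Ico (U + 1) (X / K + 1), mn K (β * ((j : ℝ) - j'))
              = ∑ j' ∈ Ico (U + 1) (X / K + 1), mn K (β * ((j' : ℝ) - ((j : ℤ) : ℝ))) := by
                refine sum_congr rfl fun j' _ => ?_
                rw [← mn_neg]
                congr 1
                push_cast; ring
            _ ≤ _ := minsumN hK0.le hq ha hβ _ _ _
            _ ≤ _ := by gcongr; linarith)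
      have b1 : ∑ i ∈ Ico u v, ‖F i‖ ^ 2 ≤ K := by
        calc ∑ i ∈ Ico u v, ‖F i‖ ^ 2 ≤ (Ico u v).card • (1 : ℝ) :=
              sum_le_card_nsmul _ _ _ fun i _ => pow_le_one₀ (norm_nonneg _) (hF i)
          _ ≤ K := by rw [nsmul_eq_mul, mul_one]; exact hcard
      have b2 : ∑ j ∈ Ico (U + 1) (X / K + 1), ‖G j‖ ^ 2 ≤ X / K * L ^ 2 := by
        calc ∑ j ∈ Ico (U + 1) (X / K + 1), ‖G j‖ ^ 2 ≤ (Ico (U + 1) (X / K + 1)).card • L ^ 2 := by
              refine sum_le_card_nsmul _ _ _ fun j hj => ?_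
              rw [mem_Ico] at hj
              have c1 : j ≤ X := (Nat.lt_succ_iff.1 hj.2).trans (Nat.div_le_self _ _)
              have c2 : Real.log j ≤ Real.log X :=
                Real.log_le_log (by exact_mod_cast (by omega : 0 < j)) (by exact_mod_cast c1)
              exact pow_le_pow_left₀ (norm_nonneg _) ((hG j).trans (by linarith)) 2
          _ ≤ X / K * L ^ 2 := by
              rw [nsmul_eq_mul, Nat.card_Ico]
              gcongr
      refine (pow_le_pow_iff_left₀ (norm_nonneg _) (by positivity) two_ne_zero).1 (hb.trans ?_)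
      have b3 : ((X : ℝ) / K / q + 1) * (6 * K + 2 * q * L) ≤ 18 * L * (X / P) := by
        have e2 : ((X : ℝ) / K / q + 1) * (6 * K + 2 * q * L) =
            6 * (X / q) + 2 * (X / K) * L + 6 * K + 2 * q * L := by field_simp; ring
        have d1 : (X : ℝ) / q ≤ X / P := by gcongr
        have d2 : (X : ℝ) / K ≤ 2 * (X / P) := by
          rw [div_le_iff₀ hK0]
          have : (X : ℝ) = X / P * P := by field_simp
          nlinarith
        have d3 : X / P ≤ X / P * L := le_mul_of_one_le_right hXP0 hL1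
        have d4 : (X : ℝ) / K * L ≤ 2 * (X / P) * L := by gcongr
        have d5 : (q : ℝ) * L ≤ X / P * L := by gcongr
        rw [e2]
        linarith
      calc (∑ i ∈ Ico u v, ‖F i‖ ^ 2) * (∑ j ∈ Ico (U + 1) (X / K + 1), ‖G j‖ ^ 2) *
            (((X : ℝ) / K / q + 1) * (6 * K + 2 * q * L))
          ≤ K * (X / K * L ^ 2) * (18 * L * (X / P)) := by gcongr
        _ = 18 * L ^ 3 * (X ^ 2 / P) := by field_simp
        _ ≤ 25 * L ^ 4 * (X ^ 2 / P) := by
            have : L ^ 3 ≤ L ^ 4 := pow_le_pow_right₀ hL1 (by norm_num)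
            gcongr
            norm_num
        _ = (5 * L ^ 2 * (X / √P)) ^ 2 := by
            rw [mul_pow, mul_pow, div_pow, Real.sq_sqrt hP0.le]; ring)
  have e0 : Ico (U + 1) (X + 1) = Ioc U X := Ico_add_one_add_one_eq_Ioc U X
  rw [e0] at h
  calc _ ≤ 2 * L * (5 * L ^ 2 * (X / √P)) := h
    _ = _ := by ring

end

theorem norm_mu (d : ℕ) : ‖((μ d : ℤ) : ℂ)‖ ≤ 1 := by
  rw [Complex.norm_intCast]
  exact_mod_cast ArithmeticFunction.abs_moebius_le_one

end VinP

open VinP in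
theorem vin (h : S_Vaughan) : S_Vin := by
  intro ε hε
  obtain ⟨C, hC, hlog⟩ := one_add_log_le (ε := ε / 3) (by positivity)
  refine ⟨171 * C ^ 3, by positivity, fun X q a β P hP hP3 hPq hqP ha hβ => ?_⟩
  have hP0 : 0 < P := by linarith
  have hX1 : (1 : ℝ) ≤ X := (one_le_pow₀ hP).trans hP3
  have hX0 : (0 : ℝ) < X := by linarith
  set U := ⌊P⌋₊ with hU
  have hU1 : 1 ≤ U := Nat.le_floor (by simpa using hP)
  have hUP : (U : ℝ) ≤ P := Nat.floor_le hP0.le
  have hPU : P < U + 1 := Nat.lt_floor_add_one P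
  obtain ⟨c, b, hc, hb, hid⟩ := h U U hU1 hU1
  set L := 1 + Real.log X with hL
  have hl0 : 0 ≤ Real.log X := Real.log_nonneg hX1
  have hL1 : 1 ≤ L := by linarith
  have hs1 : 1 ≤ √P := Real.one_le_sqrt.2 hP
  have hsP : √P ≤ P := by
    rw [Real.sqrt_le_iff]; exact ⟨hP0.le, by nlinarith⟩
  have hXs : X / P ≤ X / √P := by gcongr
  have hP12 : P ≤ P ^ 2 := by nlinarith
  have hP23 : P ^ 2 ≤ P ^ 3 := pow_le_pow_right₀ hP (by norm_num)
  have hlogle : ∀ k : ℕ, (k : ℝ) ≤ X → Real.log k ≤ L := fun k hk => by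
    rcases Nat.eq_zero_or_pos k with h0 | h0
    · subst h0; simp; linarith
    · have := Real.log_le_log (by exact_mod_cast h0) hk
      linarith
  have hfin : ∀ W : ℕ, (W : ℝ) ≤ P ^ 2 →
      ∑ k ∈ Icc 1 W, L * mn ((X : ℝ) / k) (β * k) ≤ 80 * L ^ 3 * (X / √P) := fun W hW => by
    rw [← mul_sum]
    calc L * ∑ k ∈ Icc 1 W, mn ((X : ℝ) / k) (β * k) ≤ L * (80 * L ^ 2 * (X / P)) :=
          mul_le_mul_of_nonneg_left (typeI hP hP3 hPq hqP ha hβ W hW) (by linarith)
      _ ≤ L * (80 * L ^ 2 * (X / √P)) := by gcongr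
      _ = _ := by ring
  have t1 : ‖∑ d ∈ Icc 1 U, (μ d : ℂ) * ∑ m ∈ Icc 1 (X / d), (Real.log m : ℂ) * e (β * (d * m : ℕ))‖ ≤
      80 * L ^ 3 * (X / √P) := by
    refine (norm_sum_le _ _).trans (le_trans (sum_le_sum fun d _ => ?_) (hfin U (by linarith)))
    rw [norm_mul]
    have b1 := log_abel (β * d) (X / d)
    have b2 : ∑ m ∈ Icc 1 (X / d), (Real.log m : ℂ) * e (β * (d * m : ℕ)) =
        ∑ m ∈ Icc 1 (X / d), (Real.log m : ℂ) * e (β * d * m) :=
      sum_congr rfl fun m _ => by push_cast; rw [mul_assoc]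
    have b3 : Real.log (X / d : ℕ) ≤ L := hlogle _ (by exact_mod_cast Nat.div_le_self _ _)
    have b4 : mn (X / d : ℕ) (β * d) ≤ mn ((X : ℝ) / d) (β * d) :=
      mn_mono (Nat.cast_nonneg _) Nat.cast_div_le _
    have b5 := mn_nonneg (Nat.cast_nonneg (X / d)) (β * d)
    rw [b2]
    calc _ ≤ 1 * (L * mn ((X : ℝ) / d) (β * d)) :=
          mul_le_mul (norm_mu d) (b1.trans (mul_le_mul b3 b4 b5 (by linarith))) (norm_nonneg _) zero_le_one
      _ = _ := one_mul _
  have t2 : ‖∑ k ∈ Icc 1 (U * U), (c k : ℂ) * ∑ m ∈ Icc 1 (X / k), e (β * (k * m : ℕ))‖ ≤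
      80 * L ^ 3 * (X / √P) := by
    have hUU : ((U * U : ℕ) : ℝ) ≤ P ^ 2 := by
      push_cast
      rw [pow_two]
      gcongr
    refine (norm_sum_le _ _).trans (le_trans (sum_le_sum fun k hk => ?_) (hfin (U * U) hUU))
    rw [norm_mul, Complex.norm_real, Real.norm_eq_abs]
    have b0 : (k : ℝ) ≤ X := by
      have : (k : ℝ) ≤ (U * U : ℕ) := by exact_mod_cast (mem_Icc.1 hk).2
      linarith
    have b1 := geomN (β * k) 1 (X / k + 1) (Y := (X : ℝ) / k) (by
      rw [Nat.card_Ico, Nat.add_sub_cancel]; exact Nat.cast_div_le)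
    have b2 : ∑ m ∈ Icc 1 (X / k), e (β * (k * m : ℕ)) = ∑ m ∈ Ico 1 (X / k + 1), e (β * k * m) :=
      sum_congr rfl fun m _ => by push_cast; rw [mul_assoc]
    rw [b2]
    exact mul_le_mul ((hc k).trans (hlogle k b0)) b1 (norm_nonneg _) (by linarith)
  have t3 := typeII hP hP3 hPq hqP ha hβ U hPU (fun k => (μ k : ℂ)) (fun l => (b l : ℂ)) norm_mu
    (fun l => by rw [Complex.norm_real, Real.norm_eq_abs]; exact hb l)
  have t4 : ‖∑ n ∈ Icc 1 (min U X), (Λ n : ℂ) * e (β * n)‖ ≤ L ^ 3 * (X / √P) := by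
    refine (norm_sum_le _ _).trans ?_
    calc ∑ n ∈ Icc 1 (min U X), ‖(Λ n : ℂ) * e (β * n)‖ ≤ (Icc 1 (min U X)).card • L := by
          refine sum_le_card_nsmul _ _ _ fun n hn => ?_
          rw [norm_mul, norm_e, mul_one, Complex.norm_real,
            Real.norm_of_nonneg ArithmeticFunction.vonMangoldt_nonneg]
          refine ArithmeticFunction.vonMangoldt_le_log.trans (hlogle n ?_)
          exact_mod_cast (mem_Icc.1 hn).2.trans (min_le_right _ _)
      _ ≤ X / √P * L ^ 3 := by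
          rw [nsmul_eq_mul, Nat.card_Icc, Nat.add_sub_cancel]
          have b1 : ((min U X : ℕ) : ℝ) ≤ U := by exact_mod_cast min_le_left _ _
          have b2 : P ≤ X / P := by rw [le_div_iff₀ hP0]; nlinarith
          have b3 : L ≤ L ^ 3 := le_self_pow₀ hL1 (by norm_num)
          exact mul_le_mul (by linarith) b3 (by linarith) (by positivity)
      _ = _ := mul_comm _ _
  rw [hid X (fun n => e (β * n))]
  have hsum := (norm_add_le _ _).trans (add_le_add ((norm_add_le _ _).trans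
    (add_le_add ((norm_sub_le _ _).trans (add_le_add t1 t2)) t3)) t4)
  refine hsum.trans ?_
  have hL3 : L ^ 3 ≤ C ^ 3 * (X : ℝ) ^ ε := by
    calc L ^ 3 ≤ (C * (X : ℝ) ^ (ε / 3)) ^ 3 := pow_le_pow_left₀ (by linarith) (hlog X hX1) 3
      _ = C ^ 3 * (X : ℝ) ^ ε := by
          rw [mul_pow, ← Real.rpow_natCast ((X : ℝ) ^ (ε / 3)), ← Real.rpow_mul hX0.le]
          norm_num
  calc _ = 171 * L ^ 3 * (X / √P) := by ring
    _ ≤ 171 * (C ^ 3 * (X : ℝ) ^ ε) * (X / √P) := by gcongr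
    _ = _ := by rw [Real.rpow_add hX0, Real.rpow_one]; ring

end Pool.Agent.P.MP_0ad054_nt.An
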