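import Pool.Agent.P.MP_0ad054_nt.An.Lup
import Pool.Agent.P.MP_0ad054_nt.An.Siegel
import Pool.Agent.P.MP_0ad054_nt.An.Zfree
import Pool.Agent.P.MP_0ad054_nt.An.Tauber
import Pool.Agent.P.MP_0ad054_nt.An.SW
import Pool.Agent.P.MP_0ad054_nt.An.Vaughan
import Pool.Agent.P.MP_0ad054_nt.An.Vin
import Pool.Agent.P.MP_0ad054_nt.An.LS
import Pool.Agent.P.MP_0ad054_nt.An.BV

/-! The classical theorems without hypotheses. -/

namespace Pool.Agent.P.MP_0ad054_nt.An

theorem siegel_all : S_Siegel := siegel lup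

theorem zfree_all : S_Zfree := zfree lup siegel_all

theorem sw_all : S_SW := sw zfree_all tauber

theorem pnt_all : S_PNT := pnt lup zfree_all tauber

theorem vin_all : S_Vin := vin vaughan

theorem bv_all : S_BV := bv vaughan ls sw_all pnt_all

end Pool.Agent.P.MP_0ad054_nt.An
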