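import Pool.Agent.P.MP_0ad054_nt.An.LS

/-! Type I and type II bounds for the Bombieri-Vinogradov theorem. -/

namespace Pool.Agent.P.MP_0ad054_nt.An

open Finset Complex DirichletCharacter
open scoped ArithmeticFunction.vonMangoldt ArithmeticFunction.Moebius

namespace BVP

open Classical in
/-- primitive characters -/
noncomputable def prim (r : ℕ) : Finset (DirichletCharacter ℂ r) :=
  univ.filter fun χ : DirichletCharacter ℂ r => χ.IsPrimitive

/-- twisted sums -/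
noncomputable def tw (X : ℕ) (a : ℕ → ℂ) {r : ℕ} (χ : DirichletCharacter ℂ r) : ℂ :=
  ∑ n ∈ Icc 1 X, a n * χ n

theorem card_prim_le {r : ℕ} (hr : r ≠ 0) : (prim r).card ≤ r.totient := by
  have : NeZero r := ⟨hr⟩
  rw [← card_eq_totient_of_hasEnoughRootsOfUnity ℂ r, Nat.card_eq_fintype_card]
  exact card_le_univ _

theorem avg_le {r : ℕ} (hr : r ≠ 0) {f : DirichletCharacter ℂ r → ℝ} {B : ℝ} (hB : 0 ≤ B)
    (h : ∀ χ ∈ prim r, f χ ≤ B) : 1 / (r.totient : ℝ) * ∑ χ ∈ prim r, f χ ≤ B := by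
  have hφ : (0 : ℝ) < r.totient := by exact_mod_cast Nat.totient_pos.2 (Nat.pos_of_ne_zero hr)
  have h1 := sum_le_card_nsmul _ _ _ h
  have h2 : ((prim r).card : ℝ) ≤ r.totient := by exact_mod_cast card_prim_le hr
  rw [nsmul_eq_mul] at h1
  rw [one_div, inv_mul_le_iff₀ hφ]
  exact h1.trans (by gcongr)

theorem prim_ne_one {r : ℕ} (hr : 2 ≤ r) {χ : DirichletCharacter ℂ r} (h : χ ∈ prim r) : χ ≠ 1 := by
  classical
  have : NeZero r := ⟨by omega⟩
  rintro rfl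
  have h1 : conductor (1 : DirichletCharacter ℂ r) = r := (mem_filter.1 h).2
  rw [conductor_one] at h1
  omega

section TypeI

variable {r : ℕ} [NeZero r] {χ : DirichletCharacter ℂ r}

theorem char_sum (h : χ ≠ 1) (Y : ℕ) : ‖∑ m ∈ Icc 1 Y, χ m‖ ≤ r := by
  have h0 : ∑ m ∈ range r, χ ((m : ZMod r) + 1) = 0 := by
    rw [← MulChar.sum_eq_zero_of_ne_one h, ← Equiv.sum_comp (Equiv.addRight 1)]
    refine sum_nbij' (fun b : ℕ => (b : ZMod r)) ZMod.val ?_ ?_ ?_ ?_ fun b _ => rfl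
    · simp
    · exact fun b _ => mem_range.2 (ZMod.val_lt b)
    · exact fun b hb => ZMod.val_cast_of_lt (mem_range.1 hb)
    · exact fun b _ => ZMod.natCast_zmod_val b
  have h1 : Function.Periodic (fun Y => ∑ m ∈ range Y, χ ((m : ZMod r) + 1)) r := fun Y => by
    induction Y with
    | zero => simpa using h0
    | succ Y ih =>
      simp only at ih ⊢
      rw [Nat.add_right_comm, sum_range_succ, sum_range_succ, ih]
      simp
  have h2 : ∑ m ∈ Icc 1 Y, χ m = ∑ m ∈ range Y, χ ((m : ZMod r) + 1) := by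
    rw [← Finset.Ico_add_one_right_eq_Icc, sum_Ico_eq_sum_range]
    simp [add_comm]
  rw [h2, ← h1.map_mod_nat Y]
  refine (norm_sum_le _ _).trans ((sum_le_card_nsmul _ _ 1 fun _ _ => χ.norm_le_one _).trans ?_)
  simpa using (Nat.mod_lt Y (NeZero.pos r)).le

theorem log_char_sum (h : χ ≠ 1) (Y : ℕ) :
    ‖∑ m ∈ Icc 1 Y, (Real.log m : ℂ) * χ m‖ ≤ 2 * r * Real.log Y := by
  have h1 : ∀ Y : ℕ, ‖∑ m ∈ Icc 1 Y, (Real.log m : ℂ) * χ m -
      (Real.log Y : ℂ) * ∑ m ∈ Icc 1 Y, χ m‖ ≤ r * Real.log Y := fun Y => by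
    induction Y with
    | zero => simp
    | succ Y ih =>
      have h2 : Real.log Y ≤ Real.log (Y + 1 : ℕ) := by
        rcases Nat.eq_zero_or_pos Y with rfl | hY
        · simp
        · gcongr; omega
      have h3 : ‖((Real.log (Y + 1 : ℕ) - Real.log Y : ℝ) : ℂ) * ∑ m ∈ Icc 1 Y, χ m‖ ≤
          (Real.log (Y + 1 : ℕ) - Real.log Y) * r := by
        rw [norm_mul, Complex.norm_real, Real.norm_of_nonneg (by linarith)]
        gcongr
        exact char_sum h Y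
      refine le_trans (le_of_eq ?_) ((norm_sub_le _ _).trans ((add_le_add ih h3).trans_eq (by ring)))
      rw [sum_Icc_succ_top (by omega), sum_Icc_succ_top (by omega), ofReal_sub]
      congr 1
      ring
  have h2 : ‖(Real.log Y : ℂ) * ∑ m ∈ Icc 1 Y, χ m‖ ≤ Real.log Y * r := by
    rw [norm_mul, Complex.norm_real, Real.norm_of_nonneg (Real.log_natCast_nonneg Y)]
    gcongr
    exact char_sum h Y
  refine (norm_le_norm_sub_add _ _).trans ((add_le_add (h1 Y) h2).trans_eq (by ring))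

theorem log_mono {a X : ℕ} (h : a ≤ X) : Real.log a ≤ Real.log X := by
  rcases Nat.eq_zero_or_pos a with rfl | ha
  · simpa using Real.log_natCast_nonneg X
  · gcongr

theorem norm_mu (k : ℕ) : ‖(μ k : ℂ)‖ ≤ 1 := by
  rw [Complex.norm_intCast]
  exact_mod_cast ArithmeticFunction.abs_moebius_le_one

theorem typeI (hV : S_Vaughan) {U : ℕ} (hU : 1 ≤ U) : ∃ b : ℕ → ℝ, (∀ l, |b l| ≤ Real.log l) ∧
    ∀ (X r : ℕ) (χ : DirichletCharacter ℂ r), r ≠ 0 → χ ≠ 1 → U * U ≤ X →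
      ‖tw X (fun n => Λ n) χ‖ ≤ 4 * U ^ 2 * r * Real.log X +
        ‖∑ k ∈ Ioc U X, (μ k : ℂ) * ∑ l ∈ Ioc U (X / k), (b l : ℂ) * χ (k * l : ℕ)‖ := by
  obtain ⟨c, b, hc, hb, h⟩ := hV U U hU hU
  refine ⟨b, hb, fun X r χ hr hχ hX => ?_⟩
  have : NeZero r := ⟨hr⟩
  have l0 := Real.log_natCast_nonneg X
  have U1 : (1 : ℝ) ≤ U := by exact_mod_cast hU
  have r1 : (1 : ℝ) ≤ r := by exact_mod_cast Nat.pos_of_ne_zero hr
  have h1 : ‖∑ d ∈ Icc 1 U, (μ d : ℂ) * ∑ m ∈ Icc 1 (X / d), (Real.log m : ℂ) * χ (d * m : ℕ)‖ ≤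
      U * (2 * r * Real.log X) := by
    refine (norm_sum_le _ _).trans ((sum_le_card_nsmul _ _ (2 * r * Real.log X) fun d _ => ?_).trans
      (by simp))
    have e : ∑ m ∈ Icc 1 (X / d), (Real.log m : ℂ) * χ (d * m : ℕ) =
        χ d * ∑ m ∈ Icc 1 (X / d), (Real.log m : ℂ) * χ m := by
      rw [mul_sum]
      exact sum_congr rfl fun m _ => by rw [Nat.cast_mul, map_mul]; ring
    rw [e, norm_mul, norm_mul]
    calc _ ≤ 1 * (1 * (2 * r * Real.log X)) := by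
          gcongr
          · exact norm_mu d
          · exact χ.norm_le_one _
          · refine (log_char_sum hχ _).trans ?_
            gcongr ?_ * ?_
            exact log_mono (Nat.div_le_self _ _)
      _ = _ := by ring
  have h2 : ‖∑ k ∈ Icc 1 (U * U), (c k : ℂ) * ∑ m ∈ Icc 1 (X / k), χ (k * m : ℕ)‖ ≤
      U ^ 2 * (Real.log X * r) := by
    refine (norm_sum_le _ _).trans ((sum_le_card_nsmul _ _ (Real.log X * r) fun k hk => ?_).trans
      (by simp [sq]))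
    have e : ∑ m ∈ Icc 1 (X / k), χ (k * m : ℕ) = χ k * ∑ m ∈ Icc 1 (X / k), χ m := by
      rw [mul_sum]
      exact sum_congr rfl fun m _ => by rw [Nat.cast_mul, map_mul]
    rw [e, norm_mul, norm_mul, Complex.norm_real, Real.norm_eq_abs]
    calc _ ≤ Real.log X * (1 * r) := by
          gcongr
          · exact (hc k).trans (log_mono ((mem_Icc.1 hk).2.trans hX))
          · exact χ.norm_le_one _
          · exact char_sum hχ _
      _ = _ := by ring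
  have h3 : ‖∑ n ∈ Icc 1 (min U X), (Λ n : ℂ) * χ n‖ ≤ U * Real.log X := by
    refine (norm_sum_le _ _).trans ((sum_le_card_nsmul _ _ (Real.log X) fun n hn => ?_).trans ?_)
    · rw [norm_mul, Complex.norm_real, Real.norm_of_nonneg ArithmeticFunction.vonMangoldt_nonneg]
      refine (mul_le_of_le_one_right ArithmeticFunction.vonMangoldt_nonneg (χ.norm_le_one _)).trans ?_
      exact ArithmeticFunction.vonMangoldt_le_log.trans
        (log_mono ((mem_Icc.1 hn).2.trans (min_le_right _ _)))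
    · rw [nsmul_eq_mul, Nat.card_Icc, Nat.add_sub_cancel]
      gcongr
      exact min_le_left _ _
  rw [tw, h X fun n => χ n]
  refine (norm_add_le _ _).trans ((add_le_add ((norm_add_le _ _).trans (add_le_add
    ((norm_sub_le _ _).trans (add_le_add h1 h2)) le_rfl)) h3).trans ?_)
  have h4 : (U : ℝ) ≤ U ^ 2 := by nlinarith
  have h5 : (U : ℝ) * (r * Real.log X) ≤ U ^ 2 * (r * Real.log X) := by gcongr
  have h6 : (U : ℝ) * Real.log X ≤ U * (r * Real.log X) := by gcongr; nlinarith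
  nlinarith

end TypeI

theorem sum_Ioc_dyadic {M : Type*} [AddCommMonoid M] (f : ℕ → M) (a J : ℕ) :
    ∑ n ∈ Ioc a (a * 2 ^ J), f n = ∑ i ∈ range J, ∑ n ∈ Ioc (a * 2 ^ i) (2 * (a * 2 ^ i)), f n := by
  induction J with
  | zero => simp
  | succ J ih =>
    rw [sum_range_succ, ← ih, sum_Ioc_consecutive _ (Nat.le_mul_of_pos_right _ (by positivity))
      (by omega)]
    congr 2
    ring

theorem cs2 (s : Finset ℕ) (w : ℕ → ℝ) (hw : ∀ r, 0 ≤ w r)
    (x y : (r : ℕ) → DirichletCharacter ℂ r → ℝ) :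
    (∑ r ∈ s, w r * ∑ χ ∈ prim r, x r χ * y r χ) ^ 2 ≤
      (∑ r ∈ s, w r * ∑ χ ∈ prim r, x r χ ^ 2) * ∑ r ∈ s, w r * ∑ χ ∈ prim r, y r χ ^ 2 := by
  have := sum_mul_sq_le_sq_mul_sq (s.sigma prim) (fun z => Real.sqrt (w z.1) * x z.1 z.2)
    fun z => Real.sqrt (w z.1) * y z.1 z.2
  simp only [sum_sigma, mul_pow, Real.sq_sqrt (hw _), mul_mul_mul_comm _ (x _ _),
    Real.mul_self_sqrt (hw _), ← mul_sum] at this
  exact this

theorem bil {C : ℝ} (hL : ∀ (R X : ℕ) (a : ℕ → ℂ), ∑ q ∈ Icc 1 R, (q : ℝ) / q.totient *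
      ∑ χ ∈ prim q, ‖tw X a χ‖ ^ 2 ≤
      C * (X + (R : ℝ) ^ 2) * (1 + Real.log R) * ∑ n ∈ Icc 1 X, ‖a n‖ ^ 2)
    {R : ℕ} (hR : 1 ≤ R) (N₁ N₂ : ℕ) (a b : ℕ → ℂ) {D : ℝ} (hD : 0 ≤ D)
    (h : C * (N₁ + 4 * (R : ℝ) ^ 2) * (1 + Real.log (2 * R : ℕ)) * (∑ n ∈ Icc 1 N₁, ‖a n‖ ^ 2) *
      (C * (N₂ + 4 * (R : ℝ) ^ 2) * (1 + Real.log (2 * R : ℕ)) * ∑ n ∈ Icc 1 N₂, ‖b n‖ ^ 2) ≤
      (R * D) ^ 2) :
    ∑ r ∈ Ioc R (2 * R), 1 / (r.totient : ℝ) * ∑ χ ∈ prim r, ‖tw N₁ a χ‖ * ‖tw N₂ b χ‖ ≤ D := by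
  have R0 : (0 : ℝ) < R := by exact_mod_cast hR
  have h1 : ∀ (N : ℕ) (a : ℕ → ℂ), ∑ q ∈ Ioc R (2 * R), (q : ℝ) / q.totient *
      ∑ χ ∈ prim q, ‖tw N a χ‖ ^ 2 ≤ C * (N + 4 * (R : ℝ) ^ 2) * (1 + Real.log (2 * R : ℕ)) *
        ∑ n ∈ Icc 1 N, ‖a n‖ ^ 2 := fun N a => by
    refine (sum_le_sum_of_subset_of_nonneg (fun q hq => ?_) fun _ _ _ => by positivity).trans
      ((hL (2 * R) N a).trans_eq (by push_cast; ring))
    rw [mem_Ioc] at hq
    rw [mem_Icc]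
    omega
  have h2 := ((cs2 (Ioc R (2 * R)) (fun q => (q : ℝ) / q.totient) (fun _ => by positivity)
    (fun _ χ => ‖tw N₁ a χ‖) fun _ χ => ‖tw N₂ b χ‖).trans
      (mul_le_mul (h1 N₁ a) (h1 N₂ b) (by positivity) (le_trans (by positivity) (h1 N₁ a)))).trans h
  refine le_of_mul_le_mul_left (le_trans ?_ ((le_abs_self _).trans (abs_le_of_sq_le_sq h2 (by positivity)))) R0
  rw [mul_sum]
  refine sum_le_sum fun r hr => ?_
  rw [← mul_assoc, mul_one_div]
  gcongr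
  exact (mem_Ioc.1 hr).1.le

/-- Fourier coefficients of an initial segment -/
noncomputable def cf (N j Y : ℕ) : ℂ := (N : ℂ)⁻¹ * ∑ t ∈ Icc 1 Y, e (-((j : ℝ) / N) * t)

theorem norm_cf_le {N Y : ℕ} (h : Y ≤ N) (j : ℕ) : ‖cf N j Y‖ ≤ (N : ℝ)⁻¹ * mn N (j / N) := by
  rw [cf, norm_mul, norm_inv, Complex.norm_natCast, ← mn_neg]
  gcongr
  exact LSP.geom_Icc _ _ (by exact_mod_cast h)

theorem orth {N l t : ℕ} (hl : l < N) (ht : t < N) :
    ∑ j ∈ range N, e (-((j : ℝ) / N) * t) * e ((j : ℝ) / N * l) = if l = t then (N : ℂ) else 0 := by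
  have N0 : (0 : ℝ) < N := by exact_mod_cast (Nat.zero_le _).trans_lt hl
  have h1 : ∀ j : ℕ, e (-((j : ℝ) / N) * t) * e ((j : ℝ) / N * l) = e (((l : ℝ) - t) / N * j) :=
    fun j => by rw [← e_add]; congr 1; ring
  simp only [h1]
  split_ifs with h
  · simp [h, e_zero]
  · have h2 := geom_range (((l : ℝ) - t) / N) N
    have h3 : ((l : ℝ) - t) / N * N = ((l - t : ℤ) : ℝ) := by push_cast; field_simp
    rw [h3, e_int, sub_self] at h2
    refine (mul_eq_zero.1 h2).resolve_right fun h4 => h ?_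
    have h5 := four_dn_le (((l : ℝ) - t) / N)
    rw [h4, norm_zero] at h5
    have h6 : ((l : ℝ) - t) / N - round (((l : ℝ) - t) / N) = 0 :=
      abs_nonpos_iff.1 (by unfold dn at h5; linarith)
    set k := round (((l : ℝ) - t) / N)
    rw [sub_eq_zero, div_eq_iff N0.ne'] at h6
    have h7 : (l : ℤ) - t = k * N := by exact_mod_cast h6
    have h8 : k = 0 := by
      by_contra hk
      rcases lt_or_gt_of_ne hk with h4 | h4 <;> nlinarith
    rw [h8] at h7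
    omega

theorem cf_sum {N l Y : ℕ} (hl : l < N) (hl1 : 1 ≤ l) (hY : Y < N) :
    ∑ j ∈ range N, cf N j Y * e ((j : ℝ) / N * l) = if l ≤ Y then 1 else 0 := by
  have N0 : (N : ℂ) ≠ 0 := by exact_mod_cast ((Nat.zero_le _).trans_lt hl).ne'
  simp only [cf, mul_assoc, sum_mul]
  rw [← mul_sum, sum_comm, sum_congr rfl fun t ht => orth hl ((mem_Icc.1 ht).2.trans_lt hY)]
  simp [hl1, N0]

theorem cut {r : ℕ} (χ : DirichletCharacter ℂ r) (b : ℕ → ℝ) (X U : ℕ) {M : ℕ} (hM : 1 ≤ M) :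
    ∑ k ∈ Ioc M (2 * M), (μ k : ℂ) * ∑ l ∈ Ioc U (X / k), (b l : ℂ) * χ (k * l : ℕ) =
      ∑ j ∈ range (X + 1), tw (2 * M) (fun k => if M < k then μ k * cf (X + 1) j (X / k) else 0) χ *
        tw (X / M) (fun l => if U < l then b l * e ((j : ℝ) / (X + 1 : ℕ) * l) else 0) χ := by
  simp only [tw, sum_mul_sum]
  rw [sum_comm]
  have e1 : Ioc M (2 * M) = (Icc 1 (2 * M)).filter fun k => M < k := by
    ext k; simp only [mem_Ioc, mem_filter, mem_Icc]; omega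
  rw [e1, sum_filter]
  refine sum_congr rfl fun k _ => ?_
  split_ifs with hk
  swap
  · simp
  have h1 : X / k ≤ X / M := Nat.div_le_div_left hk.le hM
  have e2 : Ioc U (X / k) = (Icc 1 (X / M)).filter fun l => U < l ∧ l ≤ X / k := by
    ext l; simp only [mem_Ioc, mem_filter, mem_Icc]; omega
  rw [sum_comm, e2, sum_filter, mul_sum]
  refine sum_congr rfl fun l hl => ?_
  rw [mem_Icc] at hl
  have h2 := cf_sum (N := X + 1) (Y := X / k) (Nat.lt_succ_of_le (hl.2.trans (Nat.div_le_self _ _)))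
    hl.1 (Nat.lt_succ_of_le (Nat.div_le_self _ _))
  by_cases hU : U < l
  · simp only [hU, true_and, if_true]
    calc _ = μ k * b l * χ k * χ l * (if l ≤ X / k then (1 : ℂ) else 0) := by
          split_ifs
          · rw [Nat.cast_mul, map_mul]; ring
          · simp
      _ = _ := by rw [← h2, mul_sum]; exact sum_congr rfl fun j _ => by ring
  · simp [hU]

theorem sum_w {X : ℕ} (hX : 2 ≤ X) :
    ∑ j ∈ range (X + 1), ((X + 1 : ℕ) : ℝ)⁻¹ * mn (X + 1 : ℕ) (j / (X + 1 : ℕ)) ≤ 32 * Real.log X := by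
  have N0 : (0 : ℝ) < (X + 1 : ℕ) := by positivity
  have h1 := minsum_range (x := 1 / (X + 1 : ℕ)) (a := 1) (q := X + 1) N0.le (Nat.succ_pos _)
    isCoprime_one_left (by rw [Int.cast_one, sub_self, abs_zero]; positivity) 0 (X + 1)
  simp only [Int.cast_zero, zero_add, one_div_mul_eq_div, div_self N0.ne'] at h1
  rw [← mul_sum, inv_mul_le_iff₀ N0]
  refine h1.trans ?_
  have h2 : Real.log (X + 1 : ℕ) ≤ 2 * Real.log X := by
    have := log_mono (a := X + 1) (X := X ^ 2) (by nlinarith)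
    rwa [Nat.cast_pow, Real.log_pow] at this
  have h3 := (Real.log_two_gt_d9.le.trans_eq (by simp)).trans (log_mono hX)
  nlinarith

theorem typeII_block {C : ℝ} (C0 : 0 ≤ C)
    (hL : ∀ (R X : ℕ) (a : ℕ → ℂ), ∑ q ∈ Icc 1 R, (q : ℝ) / q.totient *
      ∑ χ ∈ prim q, ‖tw X a χ‖ ^ 2 ≤
      C * (X + (R : ℝ) ^ 2) * (1 + Real.log R) * ∑ n ∈ Icc 1 X, ‖a n‖ ^ 2)
    {b : ℕ → ℝ} (hb : ∀ l, |b l| ≤ Real.log l) {X U R M : ℕ} (hX : 2 ≤ X) (hU : 1 ≤ U) (hR : 1 ≤ R)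
    (hRX : R ≤ X) (hM : U ≤ M) {D : ℝ} (D0 : 0 ≤ D) (h1 : X ≤ R * D) (h2 : (X : ℝ) ^ 2 ≤ U * D ^ 2)
    (h3 : (R : ℝ) ^ 2 * X ≤ D ^ 2) :
    ∑ r ∈ Ioc R (2 * R), 1 / (r.totient : ℝ) * ∑ χ ∈ prim r,
      ‖∑ k ∈ Ioc M (2 * M), (μ k : ℂ) * ∑ l ∈ Ioc U (X / k), (b l : ℂ) * χ (k * l : ℕ)‖ ≤
      1024 * C * Real.log X ^ 3 * D := by
  have l0 := Real.log_natCast_nonneg X
  rcases le_or_gt X (M * U) with hMX | hMX
  · refine le_trans (le_of_eq (sum_eq_zero fun r _ => ?_)) (by positivity)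
    refine mul_eq_zero_of_right _ (sum_eq_zero fun χ _ => norm_eq_zero.2 (sum_eq_zero fun k hk => ?_))
    rw [Ioc_eq_empty_of_le (Nat.div_le_of_le_mul (hMX.trans
      (Nat.mul_le_mul_right _ (mem_Ioc.1 hk).1.le))), sum_empty, mul_zero]
  have hM1 : 1 ≤ M := hU.trans hM
  have l1 : 1 + Real.log (2 * R : ℕ) ≤ 4 * Real.log X := by
    have := log_mono (a := 2 * R) (X := X ^ 2) (by nlinarith)
    rw [Nat.cast_pow, Real.log_pow] at this
    have h3 := (Real.log_two_gt_d9.le.trans_eq (by simp)).trans (log_mono hX)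
    push_cast at this ⊢
    linarith
  have l2 : 0 ≤ 1 + Real.log (2 * R : ℕ) := by positivity
  have key : ∀ j : ℕ, ∑ r ∈ Ioc R (2 * R), 1 / (r.totient : ℝ) * ∑ χ ∈ prim r,
      ‖tw (2 * M) (fun k => if M < k then μ k * cf (X + 1) j (X / k) else 0) χ‖ *
        ‖tw (X / M) (fun l => if U < l then b l * e ((j : ℝ) / (X + 1 : ℕ) * l) else 0) χ‖ ≤
      ((X + 1 : ℕ) : ℝ)⁻¹ * mn (X + 1 : ℕ) (j / (X + 1 : ℕ)) * (32 * C * Real.log X ^ 2 * D) :=
    fun j => by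
    set w := ((X + 1 : ℕ) : ℝ)⁻¹ * mn (X + 1 : ℕ) (j / (X + 1 : ℕ)) with hw
    have w0 : 0 ≤ w := mul_nonneg (by positivity) (mn_nonneg (by positivity) _)
    refine bil hL hR _ _ _ _ (by positivity) ?_
    have a1 : ∑ k ∈ Icc 1 (2 * M), ‖if M < k then μ k * cf (X + 1) j (X / k) else 0‖ ^ 2 ≤
        2 * M * w ^ 2 := by
      refine (sum_le_card_nsmul _ _ (w ^ 2) fun k _ => ?_).trans (by simp)
      gcongr
      split_ifs
      · rw [norm_mul]
        exact (mul_le_of_le_one_left (norm_nonneg _) (norm_mu k)).trans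
          (norm_cf_le ((Nat.div_le_self _ _).trans (Nat.le_succ _)) j)
      · simpa using w0
    have a2 : ∑ l ∈ Icc 1 (X / M), ‖if U < l then b l * e ((j : ℝ) / (X + 1 : ℕ) * l) else 0‖ ^ 2 ≤
        (X / M : ℕ) * Real.log X ^ 2 := by
      refine (sum_le_card_nsmul _ _ (Real.log X ^ 2) fun l hl => ?_).trans (by simp)
      gcongr
      split_ifs
      · rw [norm_mul, norm_e, mul_one, Complex.norm_real, Real.norm_eq_abs]
        exact (hb l).trans (log_mono ((mem_Icc.1 hl).2.trans (Nat.div_le_self _ _)))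
      · simpa using l0
    set Y : ℝ := ((X / M : ℕ) : ℝ) with hY
    have Y0 : 0 ≤ Y := Nat.cast_nonneg _
    have a3 : M * Y ≤ X := by rw [hY]; exact_mod_cast Nat.mul_div_le X M
    have U0 : (0 : ℝ) < U := by exact_mod_cast hU
    have X0 : (0 : ℝ) ≤ X := Nat.cast_nonneg _
    have a4 : (M : ℝ) * X ≤ D ^ 2 := by
      have : (M : ℝ) * U ≤ X := by exact_mod_cast hMX.le
      refine le_of_mul_le_mul_left (le_trans ?_ h2) U0
      nlinarith
    have a5 : Y * X ≤ D ^ 2 := by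
      have : (U : ℝ) ≤ M := by exact_mod_cast hM
      have : U * Y ≤ X := le_trans (by gcongr) a3
      refine le_of_mul_le_mul_left (le_trans ?_ h2) U0
      nlinarith
    have a6 : (X : ℝ) ^ 2 ≤ R ^ 2 * D ^ 2 := by rw [← mul_pow]; gcongr
    have a7 : (2 * M + 4 * (R : ℝ) ^ 2) * (Y + 4 * R ^ 2) * (M * Y) ≤ 32 * (R ^ 2 * D ^ 2) := by
      refine le_trans (mul_le_mul_of_nonneg_left a3 (by positivity)) ?_
      have R2 : (0 : ℝ) ≤ R ^ 2 := sq_nonneg _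
      nlinarith [mul_le_mul_of_nonneg_left a4 R2, mul_le_mul_of_nonneg_left a5 R2,
        mul_le_mul_of_nonneg_left h3 R2, mul_le_mul_of_nonneg_right a3 X0, mul_nonneg R2 (sq_nonneg D)]
    calc _ ≤ C * ((2 * M : ℕ) + 4 * (R : ℝ) ^ 2) * (4 * Real.log X) * (2 * M * w ^ 2) *
          (C * (Y + 4 * (R : ℝ) ^ 2) * (4 * Real.log X) * (Y * Real.log X ^ 2)) := by gcongr
      _ = 32 * (C * w * Real.log X ^ 2) ^ 2 * ((2 * M + 4 * (R : ℝ) ^ 2) * (Y + 4 * R ^ 2) * (M * Y)) := by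
          push_cast; ring
      _ ≤ 32 * (C * w * Real.log X ^ 2) ^ 2 * (32 * (R ^ 2 * D ^ 2)) := by gcongr
      _ = _ := by ring
  calc _ ≤ ∑ r ∈ Ioc R (2 * R), ∑ j ∈ range (X + 1), 1 / (r.totient : ℝ) * ∑ χ ∈ prim r,
        ‖tw (2 * M) (fun k => if M < k then μ k * cf (X + 1) j (X / k) else 0) χ‖ *
        ‖tw (X / M) (fun l => if U < l then b l * e ((j : ℝ) / (X + 1 : ℕ) * l) else 0) χ‖ := by
        refine sum_le_sum fun r _ => ?_
        rw [← mul_sum, sum_comm]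
        gcongr with χ
        rw [cut χ b X U hM1]
        exact (norm_sum_le _ _).trans_eq (sum_congr rfl fun j _ => norm_mul _ _)
    _ ≤ 32 * Real.log X * (32 * C * Real.log X ^ 2 * D) := by
        rw [sum_comm]
        refine (sum_le_sum fun j _ => key j).trans ?_
        rw [← sum_mul]
        gcongr
        exact sum_w hX
    _ = _ := by ring

end BVP

end Pool.Agent.P.MP_0ad054_nt.An
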