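import Pool.Agent.P.MP_0ad054_nt.Exp
import Pool.Agent.P.MP_0ad054_nt.Div

/-! Interface statements of classical prime number theory (Siegel-Walfisz, Vinogradov,
large sieve, Bombieri-Vinogradov). Each is proved in its own file of this folder. -/

namespace Pool.Agent.P.MP_0ad054_nt.An

open Finset Complex DirichletCharacter
open scoped ArithmeticFunction.vonMangoldt ArithmeticFunction.Moebius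

/-- analytic conductor -/
noncomputable def cond (q : ℕ) (s : ℂ) : ℝ := q * (|s.im| + 2)

/-- the entire function `(s - 1) ζ(s)` -/
noncomputable def Zf : ℂ → ℂ := LFunctionTrivChar₁ 1

/-- upper bounds slightly to the left of the line `re s = 1` -/
def S_Lup : Prop :=
  ∀ δ : ℝ, 0 < δ → δ ≤ 1 / 2 → ∃ C : ℝ, 0 < C ∧
    (∀ (q : ℕ) [NeZero q] (χ : DirichletCharacter ℂ q), χ ≠ 1 → ∀ s : ℂ, 1 - δ ≤ s.re →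
      ‖LFunction χ s‖ ≤ C * cond q s ^ δ) ∧
    ∀ s : ℂ, s ≠ 1 → 1 - δ ≤ s.re → ‖riemannZeta s - 1 / (s - 1)‖ ≤ C * cond 1 s ^ δ

/-- Siegel's theorem -/
def S_Siegel : Prop :=
  ∀ ε : ℝ, 0 < ε → ∃ c : ℝ, 0 < c ∧ ∀ (q : ℕ) [NeZero q] (χ : DirichletCharacter ℂ q),
    χ ≠ 1 → χ ^ 2 = 1 → c * (q : ℝ) ^ (-ε) ≤ ‖LFunction χ 1‖

/-- a thin zero free region with a bound for the logarithmic derivative -/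
def S_Zfree : Prop :=
  ∀ δ : ℝ, 0 < δ → ∃ c : ℝ, 0 < c ∧ c ≤ 1 / 4 ∧
    (∀ (q : ℕ) [NeZero q] (χ : DirichletCharacter ℂ q), χ ≠ 1 → ∀ s : ℂ,
      1 - c * cond q s ^ (-δ) ≤ s.re → s.re ≤ 2 →
      LFunction χ s ≠ 0 ∧ ‖deriv (LFunction χ) s / LFunction χ s‖ ≤ cond q s ^ δ / c) ∧
    ∀ s : ℂ, 1 - c * cond 1 s ^ (-δ) ≤ s.re → s.re ≤ 2 →
      Zf s ≠ 0 ∧ ‖deriv Zf s / Zf s‖ ≤ cond 1 s ^ δ / c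

/-- smoothed Perron formula and contour shift -/
def S_Tauber : Prop :=
  ∃ C : ℝ, 0 < C ∧ ∀ (a : ℕ → ℂ) (F : ℂ → ℂ) (ρ T B δ : ℝ) (X : ℕ),
    (∀ n, 1 ≤ n → ‖a n‖ ≤ Real.log n + 1) → 0 < ρ → ρ ≤ 1 / 2 → 1 ≤ T → 0 ≤ B → 0 < δ → δ ≤ 1 →
    3 ≤ X →
    DifferentiableOn ℂ F {s | 1 - ρ ≤ s.re ∧ s.re ≤ 2 ∧ |s.im| ≤ T} →
    (∀ s : ℂ, 1 < s.re → F s = LSeries a s) →
    (∀ s : ℂ, 1 - ρ ≤ s.re → s.re ≤ 2 → |s.im| ≤ T → ‖F s‖ ≤ B) →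
    ‖∑ n ∈ Icc 1 X, a n‖ ≤
      C * (X * (δ + (1 + B) * ((X : ℝ) ^ (-ρ) + 1 / T) / δ) + 1) * Real.log X ^ 2

/-- Siegel-Walfisz for characters -/
def S_SW : Prop :=
  ∀ A B : ℕ, ∃ C : ℝ, 0 < C ∧ ∀ (X q : ℕ) [NeZero q] (χ : DirichletCharacter ℂ q), 2 ≤ X →
    (q : ℝ) ≤ Real.log X ^ B → χ ≠ 1 →
    ‖∑ n ∈ Icc 1 X, (Λ n : ℂ) * χ n‖ ≤ C * X / Real.log X ^ A

/-- the prime number theorem with any power of the logarithm saved -/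
def S_PNT : Prop :=
  ∀ A : ℕ, ∃ C : ℝ, 0 < C ∧ ∀ X : ℕ, 2 ≤ X →
    |∑ n ∈ Icc 1 X, Λ n - X| ≤ C * X / Real.log X ^ A

/-- Vaughan's identity -/
def S_Vaughan : Prop :=
  ∀ U V : ℕ, 1 ≤ U → 1 ≤ V → ∃ c b : ℕ → ℝ, (∀ k, |c k| ≤ Real.log k) ∧
    (∀ l, |b l| ≤ Real.log l) ∧ ∀ (X : ℕ) (f : ℕ → ℂ),
    ∑ n ∈ Icc 1 X, (Λ n : ℂ) * f n =
      ∑ d ∈ Icc 1 U, (μ d : ℂ) * ∑ m ∈ Icc 1 (X / d), (Real.log m : ℂ) * f (d * m) -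
      ∑ k ∈ Icc 1 (U * V), (c k : ℂ) * ∑ m ∈ Icc 1 (X / k), f (k * m) +
      ∑ k ∈ Ioc U X, (μ k : ℂ) * ∑ l ∈ Ioc V (X / k), (b l : ℂ) * f (k * l) +
      ∑ n ∈ Icc 1 (min V X), (Λ n : ℂ) * f n

/-- Vinogradov's bound for exponential sums over primes -/
def S_Vin : Prop :=
  ∀ ε : ℝ, 0 < ε → ∃ C : ℝ, 0 < C ∧ ∀ (X q : ℕ) (a : ℤ) (β P : ℝ), 1 ≤ P → P ^ 3 ≤ X → P ≤ q →
    q * P ≤ X → IsCoprime a q → |β - a / q| ≤ 1 / (q : ℝ) ^ 2 →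
    ‖∑ n ∈ Icc 1 X, (Λ n : ℂ) * e (β * n)‖ ≤ C * (X : ℝ) ^ (1 + ε) / Real.sqrt P

open Classical in
/-- the multiplicative large sieve, with a logarithmic loss -/
def S_LS : Prop :=
  ∃ C : ℝ, 0 < C ∧ ∀ (R X : ℕ) (a : ℕ → ℂ),
    ∑ q ∈ Icc 1 R, (q : ℝ) / q.totient *
      ∑ χ ∈ univ.filter (fun χ : DirichletCharacter ℂ q => χ.IsPrimitive),
        ‖∑ n ∈ Icc 1 X, a n * χ n‖ ^ 2 ≤
      C * (X + (R : ℝ) ^ 2) * (1 + Real.log R) * ∑ n ∈ Icc 1 X, ‖a n‖ ^ 2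

/-- Bombieri-Vinogradov with level `X ^ θ`, `θ < 1 / 2` -/
def S_BV : Prop :=
  ∀ (θ : ℝ) (A : ℕ), θ < 1 / 2 → ∃ C : ℝ, 0 < C ∧ ∀ (X K : ℕ) (c : ℕ → ℤ), 2 ≤ X →
    (K : ℝ) ≤ (X : ℝ) ^ θ → (∀ k ∈ Icc 1 K, IsCoprime (c k) k) →
    ∑ k ∈ Icc 1 K, |∑ n ∈ (Icc 1 X).filter (fun n : ℕ => (k : ℤ) ∣ n - c k), Λ n -
      (X : ℝ) / k.totient| ≤ C * X / Real.log X ^ A

end Pool.Agent.P.MP_0ad054_nt.An
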