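import Pool.Agent.P.MP_0ad054_nt.An.Defs

/-! Upper bounds for Dirichlet L-functions slightly to the left of the line `re s = 1`. -/

namespace Pool.Agent.P.MP_0ad054_nt.An

open Finset Complex DirichletCharacter Filter Topology

namespace LupP

lemma step {x a : ℝ} (hx : 0 < x) (ha : a ≤ 1) (h0 : a ≠ 0) :
    (x + 1) ^ (a - 1) ≤ ((x + 1) ^ a - x ^ a) / a := by
  obtain ⟨c, hc, h⟩ := exists_hasDerivAt_eq_slope (fun y : ℝ => y ^ a) (fun y => a * y ^ (a - 1))
    (show x < x + 1 by linarith)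
    (fun y hy => (Real.continuousAt_rpow_const y a (Or.inl (by linarith [hy.1]))).continuousWithinAt)
    fun y hy => Real.hasDerivAt_rpow_const (Or.inl (by linarith [hy.1]))
  rw [add_sub_cancel_left, div_one] at h
  rw [← h, mul_div_cancel_left₀ _ h0]
  exact Real.rpow_le_rpow_of_nonpos (by linarith [hc.1]) hc.2.le (by linarith)

lemma tele {a : ℝ} (ha : a ≤ 1) (h0 : a ≠ 0) {N : ℕ} (hN : 1 ≤ N) (M : ℕ) :
    ∑ n ∈ range M, ((n + N : ℕ) + 1 : ℝ) ^ (a - 1) ≤ (((M + N : ℕ) : ℝ) ^ a - (N : ℝ) ^ a) / a := by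
  induction M with
  | zero => simp
  | succ M ih =>
    have := step (x := ((M + N : ℕ) : ℝ)) (by exact_mod_cast (by omega : 0 < M + N)) ha h0
    rw [sum_range_succ, show ((M + 1 + N : ℕ) : ℝ) = (M + N : ℕ) + 1 by push_cast; ring]
    rw [sub_div] at *
    linarith

lemma head_le {δ : ℝ} (h0 : 0 < δ) (h1 : δ ≤ 1) (N : ℕ) :
    ∑ n ∈ range N, ((n : ℝ) + 1) ^ (δ - 1) ≤ 1 + (N : ℝ) ^ δ / δ := by
  rcases N with - | N
  · simp [Real.zero_rpow h0.ne']
  · have := tele h1 h0.ne' (N := 1) le_rfl N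
    rw [sum_range_succ', sub_div] at *
    have h2 : 0 ≤ ((1 : ℕ) : ℝ) ^ δ / δ := by positivity
    simp only [Nat.cast_zero, zero_add, Real.one_rpow]
    linarith

lemma tail_le {a : ℝ} (h0 : 0 < a) {N : ℕ} (hN : 1 ≤ N) (M : ℕ) :
    ∑ n ∈ range M, ((n + N : ℕ) + 1 : ℝ) ^ (-a - 1) ≤ (N : ℝ) ^ (-a) / a := by
  refine (tele (a := -a) (by linarith) (by linarith) hN M).trans ?_
  rw [div_neg, ← neg_div, neg_sub, sub_div]
  have : 0 ≤ ((M + N : ℕ) : ℝ) ^ (-a) / a := by positivity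
  linarith

lemma norm_sub_sum_le {t : ℕ → ℂ} {v : ℂ} (h : HasSum t v) {K a : ℝ} (hK : 0 ≤ K) (h0 : 0 < a)
    (hb : ∀ n, ‖t n‖ ≤ K * ((n : ℝ) + 1) ^ (-a - 1)) {N : ℕ} (hN : 1 ≤ N) :
    ‖v - ∑ n ∈ range N, t n‖ ≤ K * ((N : ℝ) ^ (-a) / a) := by
  refine le_of_tendsto' ((hasSum_nat_add_iff' N).2 h).tendsto_sum_nat.norm fun M => ?_
  refine (norm_sum_le _ _).trans ((sum_le_sum fun n _ => hb (n + N)).trans ?_)
  rw [← mul_sum]
  exact mul_le_mul_of_nonneg_left (tail_le h0 hN M) hK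

lemma rpow_mono (n : ℕ) {a b : ℝ} (h : a ≤ b) : ((n : ℝ) + 1) ^ a ≤ ((n : ℝ) + 1) ^ b :=
  Real.rpow_le_rpow_of_exponent_le (by linarith [Nat.cast_nonneg (α := ℝ) n]) h

lemma summable_aux {a : ℝ} (h0 : 0 < a) : Summable fun n : ℕ => ((n : ℝ) + 1) ^ (-a - 1) := by
  have := (summable_nat_add_iff 1).2 (Real.summable_nat_rpow.2 (show -a - 1 < -1 by linarith))
  simpa using this

lemma rep {F : ℂ → ℂ} (hF : Differentiable ℂ F) {t : ℕ → ℂ → ℂ} (ht : ∀ n, Differentiable ℂ (t n))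
    {K : ℂ → ℝ} (hK : Continuous K)
    (hb : ∀ n s, 0 < s.re → ‖t n s‖ ≤ K s * ((n : ℝ) + 1) ^ (-s.re - 1))
    (h1 : ∀ s, 1 < s.re → Tendsto (fun N => ∑ n ∈ range N, t n s) atTop (𝓝 (F s)))
    {s : ℂ} (hs : 0 < s.re) : HasSum (fun n => t n s) (F s) := by
  have hsum : ∀ w, 0 < w.re → Summable fun n => t n w := fun w hw =>
    Summable.of_norm_bounded ((summable_aux hw).mul_left (K w)) fun n => hb n w hw
  set U : Set ℂ := {w | s.re / 2 < w.re} ∩ Metric.ball 0 (‖s‖ + 3) with hU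
  have ho : IsOpen U := (isOpen_lt continuous_const continuous_re).inter Metric.isOpen_ball
  have hc : IsPreconnected U :=
    ((convex_halfSpace_re_gt _).inter (convex_ball _ _)).isPreconnected
  obtain ⟨M, hM⟩ := (isCompact_closedBall (0 : ℂ) (‖s‖ + 3)).exists_bound_of_continuousOn
    hK.continuousOn
  have hd : DifferentiableOn ℂ (fun w => ∑' n, t n w) U := by
    refine differentiableOn_tsum_of_summable_norm ((summable_aux (half_pos hs)).mul_left M)
      (fun n => (ht n).differentiableOn) ho fun n w hw => ?_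
    have h2 : s.re / 2 < w.re := hw.1
    refine (hb n w (by linarith)).trans ?_
    have h3 := hM w (Metric.ball_subset_closedBall hw.2)
    exact mul_le_mul ((le_abs_self _).trans h3) (rpow_mono n (by linarith)) (by positivity)
      ((norm_nonneg _).trans h3)
  have h4 := re_le_norm s
  have hm : ((‖s‖ + 2 : ℝ) : ℂ) ∈ U := by
    refine ⟨show s.re / 2 < ((‖s‖ + 2 : ℝ) : ℂ).re by rw [ofReal_re]; linarith, ?_⟩
    rw [mem_ball_zero_iff, norm_real, Real.norm_of_nonneg (by positivity)]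
    linarith
  have he := (hd.analyticOnNhd ho).eqOn_of_preconnected_of_eventuallyEq
    (hF.differentiableOn.analyticOnNhd ho) hc hm (by
      have h5 : {w : ℂ | 1 < w.re} ∈ 𝓝 ((‖s‖ + 2 : ℝ) : ℂ) :=
        (isOpen_lt continuous_const continuous_re).mem_nhds
          (show 1 < ((‖s‖ + 2 : ℝ) : ℂ).re by rw [ofReal_re]; linarith [norm_nonneg s])
      filter_upwards [h5] with w hw
      exact tendsto_nhds_unique (hsum w (zero_lt_one.trans hw)).hasSum.tendsto_sum_nat (h1 w hw))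
  rw [← he ⟨show s.re / 2 < s.re by linarith, by rw [mem_ball_zero_iff]; linarith⟩]
  exact (hsum s hs).hasSum

lemma hasDerivAt_cp {x : ℝ} (hx : 0 < x) (r : ℂ) :
    HasDerivAt (fun y : ℝ => (y : ℂ) ^ r) (r * (x : ℂ) ^ (r - 1)) x :=
  (hasStrictDerivAt_cpow_const (ofReal_mem_slitPlane.2 hx)).hasDerivAt.comp_ofReal

lemma norm_cp_sub {x y : ℝ} (hx : 0 < x) (hy : y ∈ Set.Icc x (x + 1)) {s : ℂ} (hs : 0 < s.re) :
    ‖(x : ℂ) ^ (-s) - (y : ℂ) ^ (-s)‖ ≤ ‖s‖ * x ^ (-s.re - 1) := by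
  have := (convex_Icc x (x + 1)).norm_image_sub_le_of_norm_hasDerivWithin_le
    (C := ‖s‖ * x ^ (-s.re - 1))
    (fun z hz => (hasDerivAt_cp (hx.trans_le hz.1) (-s)).hasDerivWithinAt) (fun z hz => by
      rw [norm_mul, norm_neg, norm_cpow_eq_rpow_re_of_pos (hx.trans_le hz.1)]
      exact mul_le_mul_of_nonneg_left (by
        simpa using Real.rpow_le_rpow_of_nonpos hx hz.1 (show -s.re - 1 ≤ 0 by linarith))
        (norm_nonneg _)) hy ⟨le_rfl, by linarith⟩
  refine this.trans (mul_le_of_le_one_right (by positivity) ?_)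
  rw [Real.norm_eq_abs, abs_le]
  constructor <;> linarith [hy.1, hy.2]

lemma norm_cp (n : ℕ) (s : ℂ) : ‖((n : ℂ) + 1) ^ s‖ = ((n : ℝ) + 1) ^ s.re := by
  rw [← norm_cpow_eq_rpow_re_of_pos (by positivity)]
  push_cast
  rfl

lemma diff_cp (n : ℕ) {f : ℂ → ℂ} (hf : Differentiable ℂ f) :
    Differentiable ℂ fun s => ((n : ℂ) + 1) ^ f s :=
  hf.const_cpow (Or.inl (Nat.cast_add_one_ne_zero n))

lemma tendsto_cp {s : ℂ} (hs : s.re < 0) :
    Tendsto (fun n : ℕ => ((n : ℂ) + 1) ^ s) atTop (𝓝 0) := by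
  rw [tendsto_zero_iff_norm_tendsto_zero]
  simp only [norm_cp]
  have := (tendsto_rpow_neg_atTop (y := -s.re) (by linarith)).comp
    (tendsto_atTop_add_const_right _ 1 tendsto_natCast_atTop_atTop)
  simpa [Function.comp_def] using this

variable {q : ℕ} [NeZero q]

lemma hasSum_L (χ : DirichletCharacter ℂ q) {s : ℂ} (hs : 1 < s.re) :
    HasSum (fun n : ℕ => χ ((n + 1 : ℕ) : ZMod q) * ((n : ℂ) + 1) ^ (-s)) (LFunction χ s) := by
  have h := (hasSum_nat_add_iff' 1).2 (LSeriesSummable_of_one_lt_re χ hs).hasSum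
  rw [LFunction_eq_LSeries χ hs]
  simp only [range_one, sum_singleton, LSeries.term_zero, sub_zero] at h
  refine HasSum.congr_fun h fun n => ?_
  rw [LSeries.term_of_ne_zero (Nat.succ_ne_zero n), cpow_neg, div_eq_mul_inv]
  push_cast
  rfl

/-- The trivial bound to the right of the line `re s = 1`. -/
lemma norm_L_le (χ : DirichletCharacter ℂ q) {s : ℂ} (hs : 1 < s.re) :
    ‖LFunction χ s‖ ≤ 1 + 1 / (s.re - 1) := by
  have h := norm_sub_sum_le (hasSum_L χ hs) (K := 1) (a := s.re - 1) zero_le_one (by linarith)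
    (fun n => by
      rw [norm_mul, norm_cp, neg_re, show -(s.re - 1) - 1 = -s.re by ring]
      exact mul_le_mul_of_nonneg_right (norm_le_one χ _) (by positivity)) (N := 1) le_rfl
  simp only [range_one, sum_singleton, Nat.cast_zero, zero_add, Nat.cast_one, map_one, one_cpow,
    Real.one_rpow, one_mul] at h
  linarith [norm_sub_norm_le (LFunction χ s) 1, norm_one (α := ℂ)]

/-- Partial sums of a character. -/
noncomputable def PA (χ : DirichletCharacter ℂ q) (n : ℕ) : ℂ :=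
  ∑ m ∈ range n, χ ((m + 1 : ℕ) : ZMod q)

lemma PA_add (χ : DirichletCharacter ℂ q) (hχ : χ ≠ 1) (n : ℕ) : PA χ (n + q) = PA χ n := by
  induction n with
  | zero =>
    have h := MulChar.sum_eq_zero_of_ne_one hχ
    rw [zero_add, PA, PA, sum_range_zero, ← h]
    refine sum_bij (fun m _ => ((m + 1 : ℕ) : ZMod q)) (fun _ _ => mem_univ _)
      (fun a ha b hb e => ?_) (fun b _ => ⟨(b - 1).val, mem_range.2 (ZMod.val_lt _), by simp⟩)
      fun _ _ => rfl
    have e' : (a : ZMod q) = b := by simpa using e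
    have := congrArg ZMod.val e'
    rwa [ZMod.val_cast_of_lt (mem_range.1 ha), ZMod.val_cast_of_lt (mem_range.1 hb)] at this
  | succ n ih =>
    rw [show n + 1 + q = n + q + 1 by ring, PA, sum_range_succ, ← PA, ih, PA, PA, sum_range_succ]
    simp

lemma norm_PA_le (χ : DirichletCharacter ℂ q) (hχ : χ ≠ 1) (n : ℕ) : ‖PA χ n‖ ≤ q := by
  induction n using Nat.strong_induction_on with
  | _ n ih =>
    by_cases h : n ≤ q
    · refine (norm_sum_le _ _).trans ((sum_le_sum fun m _ => norm_le_one χ _).trans ?_)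
      simpa using h
    · obtain ⟨m, rfl⟩ : ∃ m, n = m + q := ⟨n - q, by omega⟩
      rw [PA_add χ hχ]
      exact ih m (by have := NeZero.pos q; omega)

/-- Terms of the summed by parts series. -/
noncomputable def tL (χ : DirichletCharacter ℂ q) (n : ℕ) (s : ℂ) : ℂ :=
  PA χ (n + 1) * (((n : ℂ) + 1) ^ (-s) - (((n + 1 : ℕ) : ℂ) + 1) ^ (-s))

omit [NeZero q] in
lemma sum_tL (χ : DirichletCharacter ℂ q) (s : ℂ) (N : ℕ) : ∑ n ∈ range N, tL χ n s =
    ∑ n ∈ range N, χ ((n + 1 : ℕ) : ZMod q) * ((n : ℂ) + 1) ^ (-s) -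
      PA χ N * ((N : ℂ) + 1) ^ (-s) := by
  induction N with
  | zero => simp [PA]
  | succ N ih =>
    rw [sum_range_succ, sum_range_succ, ih, tL, PA, PA, sum_range_succ]
    ring

lemma norm_tL_le (χ : DirichletCharacter ℂ q) (hχ : χ ≠ 1) (n : ℕ) {s : ℂ} (hs : 0 < s.re) :
    ‖tL χ n s‖ ≤ q * ‖s‖ * ((n : ℝ) + 1) ^ (-s.re - 1) := by
  have := norm_cp_sub (x := (n : ℝ) + 1) (y := (n : ℝ) + 1 + 1) (by positivity)
    ⟨by linarith, le_rfl⟩ hs
  rw [tL, norm_mul, mul_assoc]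
  push_cast at this ⊢
  exact mul_le_mul (norm_PA_le χ hχ _) this (norm_nonneg _) (Nat.cast_nonneg _)

lemma hasSum_tL (χ : DirichletCharacter ℂ q) (hχ : χ ≠ 1) {s : ℂ} (hs : 0 < s.re) :
    HasSum (fun n => tL χ n s) (LFunction χ s) := by
  refine rep (differentiable_LFunction hχ) (fun n => ?_) (K := fun s => q * ‖s‖) (by fun_prop)
    (fun n s hs => norm_tL_le χ hχ n hs) (fun s hs => ?_) hs
  · exact ((diff_cp n differentiable_neg).sub (diff_cp (n + 1) differentiable_neg)).const_mul _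
  · simp only [sum_tL]
    have h1 : Tendsto (fun N : ℕ => PA χ N * ((N : ℂ) + 1) ^ (-s)) atTop (𝓝 0) := by
      refine squeeze_zero_norm (fun N => ?_)
        (by simpa using ((tendsto_cp (s := -s) (by simp; linarith)).norm.const_mul (q : ℝ)))
      rw [norm_mul]
      exact mul_le_mul_of_nonneg_right (norm_PA_le χ hχ _) (norm_nonneg _)
    simpa using (hasSum_L χ hs).tendsto_sum_nat.sub h1

/-- Terms of the series for `(s - 1) ζ(s) - 1`. -/
noncomputable def tZ (n : ℕ) (s : ℂ) : ℂ :=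
  (s - 1) * ((n : ℂ) + 1) ^ (-s) - (((n : ℂ) + 1) ^ (1 - s) - (((n + 1 : ℕ) : ℂ) + 1) ^ (1 - s))

lemma norm_tZ_le (n : ℕ) {s : ℂ} {W : ℝ}
    (h : ∀ y ∈ Set.Icc ((n : ℝ) + 1) ((n : ℝ) + 1 + 1),
      ‖(((n : ℝ) + 1 : ℝ) : ℂ) ^ (-s) - (y : ℂ) ^ (-s)‖ ≤ W) : ‖tZ n s‖ ≤ ‖s - 1‖ * W := by
  have h0 : (0 : ℝ) < n + 1 := by positivity
  have := (convex_Icc ((n : ℝ) + 1) ((n : ℝ) + 1 + 1)).norm_image_sub_le_of_norm_hasDerivWithin_le
    (C := ‖s - 1‖ * W)
    (f := fun y : ℝ => (s - 1) * (((n : ℝ) + 1 : ℝ) : ℂ) ^ (-s) * y + (y : ℂ) ^ (1 - s))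
    (fun z hz => (((hasDerivAt_id (z : ℂ)).comp_ofReal.const_mul _).add
      (hasDerivAt_cp (h0.trans_le hz.1) (1 - s))).hasDerivWithinAt) (fun z hz => by
      refine le_trans (le_of_eq ?_) (mul_le_mul_of_nonneg_left (h z hz) (norm_nonneg (s - 1)))
      rw [← norm_mul, sub_sub_cancel_left]
      congr 1
      ring) ⟨le_rfl, by linarith⟩ ⟨by linarith, le_rfl⟩
  rw [add_sub_cancel_left, norm_one, mul_one] at this
  refine le_trans (le_of_eq ?_) this
  congr 1
  rw [tZ]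
  push_cast
  ring

lemma norm_tZ_le₁ (n : ℕ) {s : ℂ} (hs : 0 < s.re) :
    ‖tZ n s‖ ≤ ‖s - 1‖ * ‖s‖ * ((n : ℝ) + 1) ^ (-s.re - 1) := by
  rw [mul_assoc]
  exact norm_tZ_le n fun y hy => norm_cp_sub (by positivity) hy hs

lemma norm_tZ_le₂ (n : ℕ) {s : ℂ} (hs : 0 < s.re) :
    ‖tZ n s‖ ≤ ‖s - 1‖ * (2 * ((n : ℝ) + 1) ^ (-s.re)) := by
  have h0 : (0 : ℝ) < n + 1 := by positivity
  refine norm_tZ_le n fun y hy => (norm_sub_le _ _).trans ?_
  rw [norm_cpow_eq_rpow_re_of_pos h0, norm_cpow_eq_rpow_re_of_pos (h0.trans_le hy.1), neg_re]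
  linarith [Real.rpow_le_rpow_of_nonpos h0 hy.1 (show -s.re ≤ 0 by linarith)]

lemma Zf_eq {s : ℂ} (hs : s ≠ 1) : Zf s = (s - 1) * riemannZeta s := by
  rw [Zf, LFunctionTrivChar₁, Function.update_of_ne hs, LFunctionTrivChar, LFunction_modOne_eq]

lemma Zf_one : Zf 1 = 1 := by
  rw [Zf, LFunctionTrivChar₁, Function.update_self]
  simp

lemma differentiable_Zf : Differentiable ℂ Zf := differentiable_LFunctionTrivChar₁ 1

lemma hasSum_tZ {s : ℂ} (hs : 0 < s.re) : HasSum (fun n => tZ n s) (Zf s - 1) := by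
  refine rep (F := fun s => Zf s - 1) (differentiable_Zf.sub_const 1) (fun n => ?_)
    (K := fun s => ‖s - 1‖ * ‖s‖) (by fun_prop) (fun n s hs => norm_tZ_le₁ n hs)
    (fun s hs => ?_) hs
  · exact ((differentiable_id.sub_const 1).mul (diff_cp n differentiable_neg)).sub
      ((diff_cp n (differentiable_id.const_sub 1)).sub
        (diff_cp (n + 1) (differentiable_id.const_sub 1)))
  · have h1 := (hasSum_L (1 : DirichletCharacter ℂ 1) hs).tendsto_sum_nat
    simp only [LFunction_modOne_eq, MulChar.one_apply (isUnit_of_subsingleton _), one_mul] at h1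
    have h2 := (h1.const_mul (s - 1)).sub
      ((tendsto_cp (s := 1 - s) (by simp; linarith)).const_sub 1)
    rw [Zf_eq (by rintro rfl; simp at hs)]
    rw [sub_zero] at h2
    refine h2.congr fun N => ?_
    simp only [tZ, sum_sub_distrib, ← mul_sum]
    rw [← sum_sub_distrib, sum_range_sub' fun n : ℕ => ((n : ℂ) + 1) ^ (1 - s)]
    simp

lemma two_le_cond {q : ℕ} (hq : 1 ≤ q) (s : ℂ) : 2 ≤ cond q s := by
  have : (1 : ℝ) ≤ q := by exact_mod_cast hq
  unfold cond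
  nlinarith [abs_nonneg s.im]

lemma norm_le_cond (q : ℕ) {s : ℂ} (h0 : 0 < s.re) (h2 : s.re ≤ 2) : q * ‖s‖ ≤ cond q s := by
  have := norm_le_abs_re_add_abs_im s
  rw [abs_of_pos h0] at this
  exact mul_le_mul_of_nonneg_left (by linarith) (Nat.cast_nonneg _)

lemma cut {Q δ : ℝ} (hQ : 2 ≤ Q) (h0 : 0 < δ) (h1 : δ ≤ 1 / 2) : ∃ N : ℕ, 1 ≤ N ∧ Q ≤ N ∧
    (N : ℝ) ^ δ ≤ 2 * Q ^ δ ∧ Q * ((N : ℝ) ^ (-(1 - δ)) / (1 - δ)) ≤ 4 * Q ^ δ ∧
    Q * ((N : ℝ) + 1) ^ (δ - 1) ≤ 2 * Q ^ δ := by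
  have a1 := Nat.le_ceil Q
  have a2 := Nat.ceil_lt_add_one (show 0 ≤ Q by linarith)
  set N := ⌈Q⌉₊
  have a3 : (0 : ℝ) < N := by linarith
  have a4 : (N : ℝ) ^ δ ≤ 2 * Q ^ δ := by
    refine (Real.rpow_le_rpow a3.le (show (N : ℝ) ≤ 2 * Q by linarith) h0.le).trans ?_
    rw [Real.mul_rpow (by norm_num) (by linarith)]
    refine mul_le_mul_of_nonneg_right ?_ (by positivity)
    simpa using Real.rpow_le_rpow_of_exponent_le (x := 2) (by norm_num) (show δ ≤ 1 by linarith)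
  have a5 : Q * (N : ℝ) ^ (δ - 1) ≤ 2 * Q ^ δ := by
    refine le_trans ?_ a4
    rw [Real.rpow_sub_one a3.ne', mul_div_assoc', div_le_iff₀ a3, mul_comm]
    exact mul_le_mul_of_nonneg_left a1 (by positivity)
  refine ⟨N, by exact_mod_cast (show (1 : ℝ) ≤ N by linarith), a1, a4, ?_, le_trans ?_ a5⟩
  · rw [neg_sub, ← mul_div_assoc, div_le_iff₀ (by linarith)]
    have : 0 ≤ Q ^ δ := by positivity
    nlinarith
  · exact mul_le_mul_of_nonneg_left
      (Real.rpow_le_rpow_of_nonpos a3 (by linarith) (by linarith)) (by linarith)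

end LupP

open LupP

theorem lup : S_Lup := by
  intro δ h0 h1
  have hi : 0 < 1 / δ := by positivity
  refine ⟨8 + 4 * (1 / δ), by positivity, fun q _ χ hχ s hs => ?_, fun s hs1 hs => ?_⟩
  · have hQ := two_le_cond (NeZero.one_le (n := q)) s
    have hP : 1 ≤ cond q s ^ δ := Real.one_le_rpow (by linarith) h0.le
    rcases le_total s.re 2 with h2 | h2
    · obtain ⟨N, n1, -, n3, n4, n5⟩ := cut hQ h0 h1
      have hc := norm_le_cond q (s := s) (by linarith) h2
      have b1 := norm_sub_sum_le (hasSum_tL χ hχ (s := s) (by linarith)) (K := cond q s)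
        (a := 1 - δ) (by linarith) (by linarith) (fun n =>
          (norm_tL_le χ hχ n (by linarith)).trans
            (mul_le_mul hc (rpow_mono n (by linarith)) (by positivity) (by linarith))) n1
      have b2 : ‖∑ n ∈ range N, χ ((n + 1 : ℕ) : ZMod q) * ((n : ℂ) + 1) ^ (-s)‖ ≤
          1 + (N : ℝ) ^ δ / δ := by
        refine (norm_sum_le _ _).trans ((sum_le_sum fun n _ => ?_).trans
          (head_le h0 (by linarith) N))
        rw [norm_mul, norm_cp, neg_re]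
        exact (mul_le_of_le_one_left (by positivity) (norm_le_one χ _)).trans
          (rpow_mono n (by linarith))
      have b3 : ‖PA χ N * ((N : ℂ) + 1) ^ (-s)‖ ≤ cond q s * ((N : ℝ) + 1) ^ (δ - 1) := by
        rw [norm_mul, norm_cp, neg_re]
        refine mul_le_mul ((norm_PA_le χ hχ N).trans ?_) (rpow_mono N (by linarith))
          (by positivity) (by linarith)
        exact le_mul_of_one_le_right (Nat.cast_nonneg _) (by linarith [abs_nonneg s.im])
      have b4 := norm_sub_norm_le (LFunction χ s) (∑ n ∈ range N, tL χ n s)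
      have b5 := (sum_tL χ s N ▸ norm_sub_le _ _ : ‖∑ n ∈ range N, tL χ n s‖ ≤ _)
      have b6 : (N : ℝ) ^ δ / δ ≤ 2 * cond q s ^ δ * (1 / δ) := by
        rw [mul_one_div]; gcongr
      nlinarith
    · have := norm_L_le χ (s := s) (by linarith)
      have h3 : 1 / (s.re - 1) ≤ 1 := by rw [div_le_one (by linarith)]; linarith
      nlinarith
  · have hQ := two_le_cond le_rfl s
    have hP : 1 ≤ cond 1 s ^ δ := Real.one_le_rpow (by linarith) h0.le
    have hn : 0 < ‖s - 1‖ := norm_pos_iff.2 (sub_ne_zero.2 hs1)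
    rcases le_total s.re 2 with h2 | h2
    · obtain ⟨N, n1, -, n3, n4, -⟩ := cut hQ h0 h1
      have hc := norm_le_cond 1 (s := s) (by linarith) h2
      rw [Nat.cast_one, one_mul] at hc
      have b1 := norm_sub_sum_le (hasSum_tZ (s := s) (by linarith)) (K := ‖s - 1‖ * cond 1 s)
        (a := 1 - δ) (by positivity) (by linarith) (fun n =>
          (norm_tZ_le₁ n (by linarith)).trans
            (mul_le_mul (by gcongr) (rpow_mono n (by linarith)) (by positivity) (by positivity))) n1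
      have b2 : ‖∑ n ∈ range N, tZ n s‖ ≤ ‖s - 1‖ * (2 * (1 + (N : ℝ) ^ δ / δ)) := by
        refine (norm_sum_le _ _).trans ((sum_le_sum fun n _ => norm_tZ_le₂ n (by linarith)).trans ?_)
        rw [← mul_sum, ← mul_sum]
        gcongr
        exact (sum_le_sum fun n _ => rpow_mono n (by linarith)).trans (head_le h0 (by linarith) N)
      have b4 := norm_sub_norm_le (Zf s - 1) (∑ n ∈ range N, tZ n s)
      have b6 : (N : ℝ) ^ δ / δ ≤ 2 * cond 1 s ^ δ * (1 / δ) := by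
        rw [mul_one_div]; gcongr
      have e : riemannZeta s - 1 / (s - 1) = (Zf s - 1) / (s - 1) := by
        rw [Zf_eq hs1, sub_div, mul_div_cancel_left₀ _ (sub_ne_zero.2 hs1)]
      rw [e, norm_div, div_le_iff₀' hn]
      rw [mul_assoc] at b1
      have b7 : 2 * (1 + (N : ℝ) ^ δ / δ) + cond 1 s * ((N : ℝ) ^ (-(1 - δ)) / (1 - δ)) ≤
          (8 + 4 * (1 / δ)) * cond 1 s ^ δ := by nlinarith
      nlinarith [mul_le_mul_of_nonneg_left b7 hn.le]
    · have := norm_L_le (1 : DirichletCharacter ℂ 1) (s := s) (by linarith)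
      rw [LFunction_modOne_eq] at this
      have h3 : 1 / (s.re - 1) ≤ 1 := by rw [div_le_one (by linarith)]; linarith
      have h4 : ‖1 / (s - 1)‖ ≤ 1 := by
        rw [norm_div, norm_one, div_le_one hn]
        have := re_le_norm (s - 1)
        rw [sub_re, one_re] at this
        linarith
      nlinarith [norm_sub_le (riemannZeta s) (1 / (s - 1))]

end Pool.Agent.P.MP_0ad054_nt.An
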