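import Pool.Agent.P.MP_0ad054_nt.An.Defs

/-! The Perron formula for Riesz means of order one. -/

namespace Pool.Agent.P.MP_0ad054_nt.An

open Finset Complex MeasureTheory

namespace TauberP

/-- the kernel -/
noncomputable def g (s : ℂ) : ℂ := 1 / (s * (s + 1))

/-- the weight -/
noncomputable def f0 (x : ℝ) : ℂ := ((max (1 - x) 0 : ℝ) : ℂ)

theorem norm_g_le {s : ℂ} (hs : 0 < s.re) : ‖g s‖ ≤ (s.re ^ 2 + s.im ^ 2)⁻¹ := by
  have h0 : s ≠ 0 := by
    intro h; rw [h] at hs; simp at hs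
  have hp : 0 < ‖s‖ := norm_pos_iff.2 h0
  have h1 : ‖s‖ ^ 2 = s.re ^ 2 + s.im ^ 2 := by
    rw [Complex.sq_norm, normSq_apply]; ring
  have h2 : ‖s + 1‖ ^ 2 = (s.re + 1) ^ 2 + s.im ^ 2 := by
    rw [Complex.sq_norm, normSq_apply]; simp; ring
  have h3 : ‖s‖ ≤ ‖s + 1‖ := by
    refine (pow_le_pow_iff_left₀ (norm_nonneg _) (norm_nonneg _) two_ne_zero).1 ?_
    rw [h1, h2]; nlinarith
  rw [g, norm_div, norm_one, norm_mul, ← h1, one_div]
  refine inv_anti₀ (by positivity) ?_
  rw [sq]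
  exact mul_le_mul_of_nonneg_left h3 hp.le

theorem norm_g_half {σ : ℝ} (hσ : 1 / 2 ≤ σ) (t : ℝ) :
    ‖g (σ + t * I)‖ ≤ 4 * (1 + t ^ 2)⁻¹ := by
  have h := norm_g_le (s := σ + t * I) (by simp; linarith)
  simp only [add_re, ofReal_re, mul_re, I_re, mul_zero, ofReal_im, I_im, mul_one, sub_self,
    add_zero, add_im, mul_im, zero_add] at h
  refine h.trans ?_
  rw [← one_div, ← div_eq_mul_inv, div_le_div_iff₀ (by nlinarith) (by positivity)]
  nlinarith

theorem g_den_ne {s : ℂ} (hs : 0 < s.re) : s * (s + 1) ≠ 0 := by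
  refine mul_ne_zero ?_ ?_
  · intro h; rw [h] at hs; simp at hs
  · intro h
    have := congrArg re h
    simp at this; linarith

theorem differentiableAt_g {s : ℂ} (hs : 0 < s.re) : DifferentiableAt ℂ g s := by
  unfold g
  exact (differentiableAt_const _).div (by fun_prop) (g_den_ne hs)

theorem continuous_g {σ : ℝ} (hσ : 0 < σ) : Continuous fun t : ℝ => g (σ + t * I) := by
  unfold g
  refine continuous_const.div (by fun_prop) fun t => g_den_ne ?_
  simpa using hσ

theorem integrable_g {σ : ℝ} (hσ : 1 / 2 ≤ σ) : Integrable fun t : ℝ => g (σ + t * I) :=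
  Integrable.mono' (integrable_inv_one_add_sq.const_mul 4)
    (continuous_g (by linarith)).aestronglyMeasurable
    (Filter.Eventually.of_forall (norm_g_half hσ))

theorem hasMellin_f0 {s : ℂ} (hs : 0 < s.re) : HasMellin f0 s (g s) := by
  have h1 := hasMellin_one_Ioc hs
  have h2 := hasMellin_cpow_Ioc 1 (s := s) (by simp; linarith)
  have h3 := hasMellin_sub h1.1 h2.1
  rw [h1.2, h2.2] at h3
  have he : Set.EqOn (fun t : ℝ => (t : ℂ) ^ (s - 1) •
      (Set.indicator (Set.Ioc (0 : ℝ) 1) (fun _ => (1 : ℂ)) t -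
        Set.indicator (Set.Ioc (0 : ℝ) 1) (fun t : ℝ => (t : ℂ) ^ (1 : ℂ)) t))
      (fun t : ℝ => (t : ℂ) ^ (s - 1) • f0 t) (Set.Ioi 0) := by
    intro t ht
    have ht0 : 0 < t := ht
    beta_reduce
    congr 1
    by_cases h : t ≤ 1
    · have hm : t ∈ Set.Ioc (0 : ℝ) 1 := ⟨ht0, h⟩
      rw [Set.indicator_of_mem hm, Set.indicator_of_mem hm, f0, max_eq_left (by linarith)]
      simp
    · have hm : t ∉ Set.Ioc (0 : ℝ) 1 := fun hm => h hm.2
      rw [Set.indicator_of_notMem hm, Set.indicator_of_notMem hm, f0,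
        max_eq_right (by linarith)]
      simp
  refine ⟨(integrableOn_congr_fun he measurableSet_Ioi).1 h3.1, ?_⟩
  have h4 := h3.2
  rw [mellin, setIntegral_congr_fun measurableSet_Ioi he] at h4
  rw [mellin, h4, g]
  have hd := g_den_ne hs
  have h5 : s ≠ 0 := left_ne_zero_of_mul hd
  have h6 : s + 1 ≠ 0 := right_ne_zero_of_mul hd
  field_simp
  ring

theorem continuous_f0 : Continuous f0 := by
  unfold f0; fun_prop

theorem f0_eq {σ x : ℝ} (hσ : 1 / 2 ≤ σ) (hx : 0 < x) :
    f0 x = (1 / (2 * Real.pi) : ℝ) •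
      ∫ t : ℝ, cexp (-(σ + t * I) * Real.log x) * g (σ + t * I) := by
  have hm : ∀ t : ℝ, mellin f0 (σ + t * I) = g (σ + t * I) := fun t =>
    (hasMellin_f0 (by simp; linarith)).2
  have h := mellinInv_mellin_eq σ f0 hx (hasMellin_f0 (by simp; linarith)).1
    (by unfold Complex.VerticalIntegrable; simp only [hm]; exact integrable_g hσ)
    continuous_f0.continuousAt
  rw [← h, mellinInv]
  congr 2
  funext t
  rw [hm, smul_eq_mul, cpow_def_of_ne_zero (by exact_mod_cast hx.ne'), ← ofReal_log hx.le,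
    mul_comm (Real.log x : ℂ)]

theorem sum_rpow_le {η : ℝ} (hη : 0 < η) (N : ℕ) :
    ∑ n ∈ range N, (n : ℝ) ^ (-(1 + η)) ≤ 1 + 1 / η := by
  have key : ∀ N : ℕ, ∑ n ∈ range (N + 2), (n : ℝ) ^ (-(1 + η)) ≤
      1 + 1 / η - ((N : ℝ) + 1) ^ (-η) / η := by
    intro N
    induction N with
    | zero =>
      have : (0 : ℝ) ^ (-η + -1) = 0 := Real.zero_rpow (by linarith)
      simp [sum_range_succ, this]
    | succ N ih =>
      rw [sum_range_succ]
      push_cast
      set y : ℝ := (N : ℝ) + 1 with hy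
      have hy0 : 0 < y := by positivity
      have e1 : ((N : ℝ) + 2) = y + 1 := by rw [hy]; ring
      rw [e1]
      have h1 : (y + 1) ^ (-(1 + η)) = (y + 1) ^ (-η) / (y + 1) := by
        rw [show -(1 + η) = -η - 1 by ring, Real.rpow_sub_one (by positivity)]
      have h2 : y ^ (-η) = (y + 1) ^ (-η) * Real.exp (η * Real.log ((y + 1) / y)) := by
        rw [Real.rpow_def_of_pos hy0, Real.rpow_def_of_pos (by positivity), ← Real.exp_add,
          Real.log_div (by positivity) hy0.ne']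
        congr 1; ring
      have h3 : 1 / (y + 1) ≤ Real.log ((y + 1) / y) := by
        have := Real.one_sub_inv_le_log_of_pos (x := (y + 1) / y) (by positivity)
        refine le_trans (le_of_eq ?_) this
        field_simp; ring
      have h4 : 1 + η * (1 / (y + 1)) ≤ Real.exp (η * Real.log ((y + 1) / y)) := by
        have := Real.add_one_le_exp (η * Real.log ((y + 1) / y))
        nlinarith
      have h5 : 0 < (y + 1) ^ (-η) := by positivity
      have h6 : (y + 1) ^ (-η) * (1 + η * (1 / (y + 1))) ≤ y ^ (-η) := by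
        rw [h2]; exact mul_le_mul_of_nonneg_left h4 h5.le
      have h7 : (y + 1) ^ (-η) / (y + 1) ≤ y ^ (-η) / η - (y + 1) ^ (-η) / η := by
        rw [← sub_div, le_div_iff₀ hη]
        have : (y + 1) ^ (-η) / (y + 1) * η = (y + 1) ^ (-η) * (η * (1 / (y + 1))) := by ring
        rw [this]; linarith
      rw [h1]; linarith
  calc _ ≤ ∑ n ∈ range (N + 2), (n : ℝ) ^ (-(1 + η)) :=
        sum_le_sum_of_subset_of_nonneg (range_mono (by omega)) fun n _ _ => by positivity
    _ ≤ _ := by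
        have : 0 ≤ ((N : ℝ) + 1) ^ (-η) / η := by positivity
        linarith [key N]

theorem sum_term_le (a : ℕ → ℂ) (ha : ∀ n, 1 ≤ n → ‖a n‖ ≤ Real.log n + 1) {L : ℝ}
    (hL : 1 ≤ L) (N : ℕ) :
    ∑ n ∈ range N, ‖LSeries.term a ((1 + 1 / L : ℝ) : ℂ) n‖ ≤ 16 * L ^ 2 := by
  have hL0 : 0 < L := by linarith
  set η : ℝ := 1 / (2 * L) with hη
  have hη0 : 0 < η := by positivity
  have hi : 1 / η = 2 * L := by rw [hη]; field_simp
  have hb : ∀ n : ℕ, ‖LSeries.term a ((1 + 1 / L : ℝ) : ℂ) n‖ ≤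
      4 * L * (n : ℝ) ^ (-(1 + η)) := by
    intro n
    rw [LSeries.norm_term_eq]
    split_ifs with hn
    · positivity
    · have hn1 : (1 : ℝ) ≤ n := by exact_mod_cast Nat.one_le_iff_ne_zero.2 hn
      have hn0 : (0 : ℝ) < n := by linarith
      rw [ofReal_re, div_le_iff₀ (by positivity), mul_assoc, ← Real.rpow_add hn0]
      have e : -(1 + η) + (1 + 1 / L) = η := by rw [hη]; field_simp; ring
      rw [e]
      have h1 := Real.log_le_rpow_div hn0.le hη0
      have h2 : 1 ≤ (n : ℝ) ^ η := Real.one_le_rpow hn1 hη0.le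
      rw [div_eq_mul_one_div, hi] at h1
      have h3 := ha n (Nat.one_le_iff_ne_zero.2 hn)
      nlinarith
  calc _ ≤ ∑ n ∈ range N, 4 * L * (n : ℝ) ^ (-(1 + η)) := sum_le_sum fun n _ => hb n
    _ = 4 * L * ∑ n ∈ range N, (n : ℝ) ^ (-(1 + η)) := by rw [mul_sum]
    _ ≤ 4 * L * (1 + 1 / η) := mul_le_mul_of_nonneg_left (sum_rpow_le hη0 N) (by positivity)
    _ ≤ _ := by rw [hi]; nlinarith

theorem norm_term_line (a : ℕ → ℂ) (κ t : ℝ) (n : ℕ) :
    ‖LSeries.term a (κ + t * I) n‖ = ‖LSeries.term a (κ : ℂ) n‖ := by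
  simp [LSeries.norm_term_eq]

theorem continuous_term (a : ℕ → ℂ) (κ : ℝ) (n : ℕ) :
    Continuous fun t : ℝ => LSeries.term a (κ + t * I) n := by
  rcases eq_or_ne n 0 with rfl | hn
  · simpa using continuous_const
  · have h0 : (n : ℂ) ≠ 0 := by exact_mod_cast hn
    simp only [LSeries.term_of_ne_zero hn]
    refine continuous_const.div ?_ fun t => ?_
    · exact Continuous.const_cpow (by fun_prop) (Or.inl h0)
    · rw [Ne, cpow_eq_zero_iff]; exact fun h => h0 h.1

theorem continuous_L (a : ℕ → ℂ) (κ : ℝ) (hs : Summable fun n => ‖LSeries.term a (κ : ℂ) n‖) :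
    Continuous fun t : ℝ => LSeries a (κ + t * I) :=
  continuous_tsum (continuous_term a κ) hs fun n t => (norm_term_line a κ t n).le

theorem norm_L_le (a : ℕ → ℂ) (κ M : ℝ)
    (hM : ∀ N, ∑ n ∈ range N, ‖LSeries.term a (κ : ℂ) n‖ ≤ M) (t : ℝ) :
    ‖LSeries a (κ + t * I)‖ ≤ M := by
  have hs : Summable fun n => ‖LSeries.term a (κ : ℂ) n‖ :=
    summable_of_sum_range_le (fun _ => norm_nonneg _) hM
  calc _ ≤ ∑' n, ‖LSeries.term a (κ : ℂ) n‖ :=
        tsum_of_norm_bounded hs.hasSum fun n => (norm_term_line a κ t n).le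
    _ ≤ M := Real.tsum_le_of_sum_range_le (fun _ => norm_nonneg _) hM

theorem norm_E (s : ℂ) (L : ℝ) : ‖cexp (s * L)‖ = Real.exp (s.re * L) := by
  rw [norm_exp]; simp

theorem perron (a : ℕ → ℂ) (κ Z : ℝ) (N : ℕ) (hκ : 1 / 2 ≤ κ) (hZ : 0 < Z) (hN : Z < N + 1)
    (hs : Summable fun n => ‖LSeries.term a (κ : ℂ) n‖) :
    ∑ n ∈ Icc 1 N, a n * f0 (n / Z) = (1 / (2 * Real.pi) : ℝ) •
      ∫ t : ℝ, cexp ((κ + t * I) * Real.log Z) * g (κ + t * I) * LSeries a (κ + t * I) := by
  set F : ℕ → ℝ → ℂ := fun n t =>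
    cexp ((κ + t * I) * Real.log Z) * g (κ + t * I) * LSeries.term a (κ + t * I) n with hF
  have hn : ∀ n t, ‖F n t‖ =
      Real.exp (κ * Real.log Z) * ‖LSeries.term a (κ : ℂ) n‖ * ‖g (κ + t * I)‖ := by
    intro n t
    simp only [hF, norm_mul, norm_E, norm_term_line]
    simp only [add_re, ofReal_re, mul_re, I_re, mul_zero, ofReal_im, I_im, mul_one, sub_self,
      add_zero]
    ring
  have hint : ∀ n, Integrable (F n) := fun n =>
    Integrable.mono' ((integrable_g hκ).norm.const_mul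
      (Real.exp (κ * Real.log Z) * ‖LSeries.term a (κ : ℂ) n‖))
      (((by fun_prop : Continuous fun t : ℝ => cexp ((κ + t * I) * Real.log Z)).mul
        (continuous_g (by linarith))).mul (continuous_term a κ n)).aestronglyMeasurable
      (Filter.Eventually.of_forall fun t => (hn n t).le)
  have hsum : Summable fun n => ∫ t, ‖F n t‖ := by
    simp only [hn, integral_const_mul]
    exact (hs.mul_left _).mul_right _
  have h1 := (hasSum_integral_of_summable_integral_norm hint hsum).const_smul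
    (1 / (2 * Real.pi) : ℝ)
  have h2 : ∀ n, n ≠ 0 → (1 / (2 * Real.pi) : ℝ) • ∫ t, F n t = a n * f0 (n / Z) := by
    intro n hn0
    have hn' : (0 : ℝ) < n := by exact_mod_cast Nat.pos_of_ne_zero hn0
    rw [f0_eq hκ (div_pos hn' hZ), mul_smul_comm, ← integral_const_mul]
    congr 2
    funext t
    simp only [hF]
    rw [LSeries.term_of_ne_zero hn0, cpow_def_of_ne_zero (by exact_mod_cast hn0),
      ← natCast_log, Real.log_div hn'.ne' hZ.ne', div_eq_mul_inv, ← Complex.exp_neg]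
    have : cexp (-(κ + t * I) * ((Real.log n - Real.log Z : ℝ) : ℂ)) =
        cexp ((κ + t * I) * Real.log Z) * cexp (-(Real.log n * (κ + t * I))) := by
      rw [← Complex.exp_add]; congr 1; push_cast; ring
    rw [this]; ring
  have h3 : HasSum (fun n => (1 / (2 * Real.pi) : ℝ) • ∫ t, F n t)
      (∑ n ∈ Icc 1 N, (1 / (2 * Real.pi) : ℝ) • ∫ t, F n t) := by
    refine hasSum_sum_of_ne_finset_zero fun n hn => ?_
    rcases eq_or_ne n 0 with rfl | hn0
    · simp [hF]
    · rw [h2 n hn0]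
      have : N + 1 ≤ n := by
        rw [mem_Icc] at hn; omega
      have h4 : (N : ℝ) + 1 ≤ n := by exact_mod_cast this
      have h5 : 1 ≤ n / Z := by rw [le_div_iff₀ hZ]; linarith
      rw [f0, max_eq_right (by linarith)]; simp
  have h4 := h3.unique h1
  rw [sum_congr rfl fun n hn => h2 n (by rw [mem_Icc] at hn; omega)] at h4
  rw [h4]
  congr 2
  funext t
  simp only [hF, tsum_mul_left, LSeries]

end TauberP

end Pool.Agent.P.MP_0ad054_nt.An
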